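import Pool.Agent.W544.PG.Defs6

/-!
# Tate classes on products of surfaces (definitions and statements of the parts, VIII)
-/

open Matrix Finset Module

namespace Pool.Agent.W544.PG

noncomputable section

/-! ### Lie algebras in orthonormal coordinates -/

/-- (PRM) -/
def S_prm : Prop := ∀ (ι : Type) [Fintype ι] [DecidableEq ι] (S : Submodule ℂ (Matrix ι ι ℂ))
  (x : Matrix ι ι ℂ) (p q : ℕ), IsStar S → Factor S → Nat.Coprime p q → x * x * x = x →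
  xᴴ = x → x.trace = 0 → (x * x).trace = 2 * p → Fintype.card ι = 2 * p + q →
  x ∈ com (S : Set (Matrix ι ι ℂ)) → ∀ s ∈ S, ∃ c : ℂ, s = c • (1 : Matrix ι ι ℂ)

/-- (CRD) -/
def S_crd : Prop := ∀ (n p q : ℕ) (x : Matrix (Fin n) (Fin n) ℂ), xᵀ = -x → xᴴ = x →
  x * x * x = x → (x * x).trace = 2 * p → n = 2 * p + q →
  ∃ g : Matrix (Fin n) (I p q) ℂ, gᵀ * g = B0 p q ∧ gᴴ * g = 1 ∧ g * gᴴ = 1 ∧ x * g = g * x0 p q

/-- (ONE) one block -/
def S_one : Prop := ∀ (n p q : ℕ) (h : Submodule ℂ (Matrix (Fin n) (Fin n) ℂ))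
  (x : Matrix (Fin n) (Fin n) ℂ), 0 < p →
  (p = 1 ∨ 2 * p ^ 2 * (p ^ 2 + 1) < (q - 2 * p) * (q + p)) → Nat.Coprime p q →
  n = 2 * p + q → (∀ y ∈ h, yᵀ = -y) → (∀ y ∈ h, yᴴ ∈ h) →
  (∀ y ∈ h, ∀ z ∈ h, y * z - z * y ∈ h) → x ∈ h → xᴴ = x → x * x * x = x →
  (x * x).trace = 2 * p →
  (∀ C, (∀ y ∈ h, C * y = y * C) → ∃ z : ℂ, C = z • (1 : Matrix (Fin n) (Fin n) ℂ)) →
  ∀ Z : Matrix (Fin n) (Fin n) ℂ, Zᵀ = -Z → Z ∈ h

/-- (BLK) several blocks -/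
def S_blk : Prop := ∀ (n r : ℕ) (c : Fin n → Fin r) (p q : Fin r → ℕ)
  (h : Submodule ℂ (Matrix (Fin n) (Fin n) ℂ)) (x : Matrix (Fin n) (Fin n) ℂ),
  (∀ y ∈ h, BD c y) → (∀ y ∈ h, yᵀ = -y) → (∀ y ∈ h, yᴴ ∈ h) →
  (∀ y ∈ h, ∀ z ∈ h, y * z - z * y ∈ h) → x ∈ h → xᴴ = x → x * x * x = x →
  (∀ i, ∑ a with c a = i, (x * x) a a = 2 * (p i : ℂ)) →
  (∀ i, (univ.filter fun a => c a = i).card = 2 * p i + q i) → (∀ i, Nat.Coprime (p i) (q i)) →
  (∀ i, (p i = 1 ∧ 0 < q i ∧ q i ≠ 2) ∨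
    (0 < p i ∧ 2 * p i ^ 2 * (p i ^ 2 + 1) < (q i - 2 * p i) * (q i + p i))) →
  (∀ C, (∀ y ∈ h, C * y = y * C) → ∃ d : Fin r → ℂ, C = Matrix.diagonal fun a => d (c a)) →
  ∀ Z : Matrix (Fin n) (Fin n) ℂ, Zᵀ = -Z → BD c Z → Z ∈ h

/-! ### Descent of linear equations -/

/-- (DK) -/
def S_dk : Prop := ∀ (K : Type) [Field K] (ι : K →+* ℂ) (X : Type) [Fintype X]
  (E : Set (X → K)) (t : X → ℂ), (∀ e ∈ E, ∑ x, ι (e x) * t x = 0) →
  t ∈ Submodule.span ℂ {u : X → ℂ | ∃ v : X → K, (u = fun x => ι (v x)) ∧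
    ∀ e ∈ E, ∑ x, e x * v x = 0}

/-- (MK) -/
def S_mk : Prop := ∀ (K : Type) [Field K] (ι : K →+* ℂ) (X : Type) [Fintype X]
  (G : Set (X → K)) (v : X → K),
  (fun x => ι (v x)) ∈ Submodule.span ℂ {u : X → ℂ | ∃ w ∈ G, u = fun x => ι (w x)} →
  v ∈ Submodule.span K G

/-! ### Classes on products -/

/-- products of algebraic classes on some factors and of the form `Q` on pairs of equal factors,
with coefficients in `K` -/
def algK {K : Type} [Field K] {n r s m : ℕ} (Q : Matrix (Fin n) (Fin n) K) (c : Fin n → Fin r)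
    (d : Fin s → Fin r) (a : Fin m → Fin r) : Submodule K ((Fin m → Fin s ⊕ Fin n) → K) :=
  Submodule.span K {t | ∃ (σ : Fin m → Fin m) (ν : Fin m → Fin s → K), (∀ j, σ (σ j) = j) ∧
    (∀ j, a (σ j) = a j) ∧ (∀ j b, ν j b ≠ 0 → d b = a j) ∧
    ∀ J, t J = (∏ j with σ j = j, Sum.elim (ν j) (fun _ => 0) (J j)) *
      ∏ j with j < σ j,
        if Sum.elim d c (J j) = a j then Matrix.fromBlocks 0 0 0 Q (J j) (J (σ j)) else 0}

/-- (HCX) rational forms in orthonormal coordinates -/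
def S_hcx : Prop := ∀ (n r s m : ℕ) (c : Fin n → Fin r) (d : Fin s → Fin r) (a : Fin m → Fin r)
  (t : (Fin m → Fin s ⊕ Fin n) → ℚ),
  (∀ Z : Matrix (Fin n) (Fin n) ℂ, Zᵀ = -Z → BD c Z → act (fromBlocks 0 0 0 Z) (cx t) = 0) →
  (∀ J, t J ≠ 0 → ∀ j, Sum.elim d c (J j) = a j) →
  (∀ J, t J ≠ 0 → ∀ i, (univ.filter fun j => ∃ b, J j = Sum.inr b ∧ c b = i).card <
    (univ.filter fun a => c a = i).card) →
  t ∈ algK (1 : Matrix (Fin n) (Fin n) ℚ) c d a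

/-- (HCC) complex forms in orthonormal coordinates -/
def S_hcc : Prop := ∀ (n r s m : ℕ) (c : Fin n → Fin r) (d : Fin s → Fin r) (a : Fin m → Fin r)
  (t : (Fin m → Fin s ⊕ Fin n) → ℂ),
  (∀ Z : Matrix (Fin n) (Fin n) ℂ, Zᵀ = -Z → BD c Z → act (fromBlocks 0 0 0 Z) t = 0) →
  (∀ J, t J ≠ 0 → ∀ j, Sum.elim d c (J j) = a j) →
  (∀ J, t J ≠ 0 → ∀ i, (univ.filter fun j => ∃ b, J j = Sum.inr b ∧ c b = i).card <
    (univ.filter fun a => c a = i).card) →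
  t ∈ algK (1 : Matrix (Fin n) (Fin n) ℂ) c d a

/-- (HCK) forms over a subfield, any quadratic form -/
def S_hck : Prop := ∀ (K : Type) [Field K] (ι : K →+* ℂ) (n r s m : ℕ) (c : Fin n → Fin r)
  (d : Fin s → Fin r) (a : Fin m → Fin r) (Q : Matrix (Fin n) (Fin n) K)
  (u : Matrix (Fin n) (Fin n) ℂ), BD c Q → BD c u → uᵀ * Q.map ι * u = 1 →
  ∀ t : (Fin m → Fin s ⊕ Fin n) → K,
  (∀ Z : Matrix (Fin n) (Fin n) ℂ, Zᵀ * Q.map ι + Q.map ι * Z = 0 → BD c Z →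
    act (fromBlocks 0 0 0 Z) (fun J => ι (t J)) = 0) →
  (∀ J, t J ≠ 0 → ∀ j, Sum.elim d c (J j) = a j) →
  (∀ J, t J ≠ 0 → ∀ i, (univ.filter fun j => ∃ b, J j = Sum.inr b ∧ c b = i).card <
    (univ.filter fun a => c a = i).card) →
  t ∈ algK Q c d a

/-! ### Galois representations -/

/-- action of a matrix as a derivation on forms with coefficients in `K` -/
def actK {K : Type} [Field K] {ι : Type} [Fintype ι] [DecidableEq ι] {k : ℕ}
    (y : Matrix ι ι K) (t : (Fin k → ι) → K) : (Fin k → ι) → K :=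
  fun J => ∑ j, ∑ l, y l (J j) * t (Function.update J j l)

/-- A form `t` on the representation `ρ` is a Tate class: it is invariant under an open
subgroup. -/
def IsTate {K : Type} [Field K] {Γ : Type} [Group Γ] [TopologicalSpace Γ] {ι : Type} [Fintype ι]
    [DecidableEq ι] (ρ : Γ → Matrix ι ι K) {k : ℕ} (t : (Fin k → ι) → K) : Prop :=
  ∃ U : Subgroup Γ, IsOpen (U : Set Γ) ∧ ∀ g ∈ U, pull (ρ g) t = t

/-- A representation of `Γ` on `K^n` with an invariant non-degenerate symmetric form, the Lie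
algebra of its image and its Sen (Hodge-Tate) operator. -/
structure GR (K : Type) [Field K] (Γ : Type) [Group Γ] [TopologicalSpace Γ] (n : ℕ) where
  /-- the representation -/
  ρ : Γ →* Matrix (Fin n) (Fin n) K
  /-- the intersection form -/
  Q : Matrix (Fin n) (Fin n) K
  symm : Qᵀ = Q
  inv : ∀ g, (ρ g)ᵀ * Q * ρ g = Q
  /-- the Lie algebra of the image of `ρ` -/
  L : Submodule K (Matrix (Fin n) (Fin n) K)
  lie : ∀ a ∈ L, ∀ b ∈ L, a * b - b * a ∈ L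
  tate : ∀ (k : ℕ) (t : (Fin k → Fin n) → K), IsTate ρ t ↔ ∀ y ∈ L, actK y t = 0
  /-- the embedding of `K` into the complex numbers -/
  ι : K →+* ℂ
  /-- the Sen operator -/
  x : Matrix (Fin n) (Fin n) ℂ
  sen : x ∈ Submodule.span ℂ {Y : Matrix (Fin n) (Fin n) ℂ | ∃ y ∈ L, Y = y.map ι}
  cube : x * x * x = x

section GR
variable {K : Type} [Field K] {Γ : Type} [Group Γ] [TopologicalSpace Γ] {n : ℕ}

/-- the complexification of the Lie algebra -/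
def GR.LC (T : GR K Γ n) : Submodule ℂ (Matrix (Fin n) (Fin n) ℂ) :=
  Submodule.span ℂ {Y | ∃ y ∈ T.L, Y = y.map T.ι}

/-- the total representation (`s` algebraic classes and `T`) -/
def GR.ρS (T : GR K Γ n) (s : ℕ) (g : Γ) : Matrix (Fin s ⊕ Fin n) (Fin s ⊕ Fin n) K :=
  fromBlocks 1 0 0 (T.ρ g)

/-- The complexified Lie algebra is reductive, in the form of the unitary trick: there is a
basis `u` of `ℂ^n`, orthonormal for `Q` and compatible with the decomposition `c`, such that in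
this basis the Lie algebra is closed under adjoints and `x` is hermitian. -/
def GR.Red (T : GR K Γ n) {r : ℕ} (c : Fin n → Fin r) : Prop :=
  ∃ u : Matrix (Fin n) (Fin n) ℂ, BD c u ∧ uᵀ * T.Q.map T.ι * u = 1 ∧
    (∀ y ∈ T.LC, u * (u⁻¹ * y * u)ᴴ * u⁻¹ ∈ T.LC) ∧ (u⁻¹ * T.x * u)ᴴ = u⁻¹ * T.x * u

/-- The conditions on `T = T_1 + ... + T_r`. -/
structure GR.Big (T : GR K Γ n) {r : ℕ} (c : Fin n → Fin r) (p q : Fin r → ℕ) : Prop where
  bQ : BD c T.Q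
  bρ : ∀ g, BD c (T.ρ g)
  red : T.Red c
  endo : ∀ P : Matrix (Fin n) (Fin n) K,
    (∃ U : Subgroup Γ, IsOpen (U : Set Γ) ∧ ∀ g ∈ U, P * T.ρ g = T.ρ g * P) →
    ∃ d : Fin r → K, P = Matrix.diagonal (fun a => d (c a))
  tr : ∀ i, ∑ a with c a = i, (T.x * T.x) a a = 2 * (p i : ℂ)
  rk : ∀ i, (univ.filter fun a => c a = i).card = 2 * p i + q i
  cop : ∀ i, Nat.Coprime (p i) (q i)
  num : ∀ i, (p i = 1 ∧ 0 < q i ∧ q i ≠ 2) ∨
    (0 < p i ∧ 2 * p i ^ 2 * (p i ^ 2 + 1) < (q i - 2 * p i) * (q i + p i))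

end GR

/-- (TBD) elements of the Lie algebra are block diagonal and skew -/
def S_tbd : Prop := ∀ (K : Type) [Field K] (Γ : Type) [Group Γ] [TopologicalSpace Γ] (n r : ℕ)
  (T : GR K Γ n) (c : Fin n → Fin r), BD c T.Q → (∀ g, BD c (T.ρ g)) → T.Q.det ≠ 0 →
  ∀ y ∈ T.L, BD c y ∧ yᵀ * T.Q + T.Q * y = 0

/-- (TCM) the commutant of the Lie algebra -/
def S_tcm : Prop := ∀ (K : Type) [Field K] (Γ : Type) [Group Γ] [TopologicalSpace Γ] (n : ℕ)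
  (T : GR K Γ n), T.Q.det ≠ 0 → (∀ y ∈ T.L, yᵀ * T.Q + T.Q * y = 0) →
  ∀ P : Matrix (Fin n) (Fin n) K, (∀ y ∈ T.L, P * y = y * P) →
  ∃ U : Subgroup Γ, IsOpen (U : Set Γ) ∧ ∀ g ∈ U, P * T.ρ g = T.ρ g * P

/-- (TSL) slices of Tate classes -/
def S_tsl : Prop := ∀ (K : Type) [Field K] (Γ : Type) [Group Γ] [TopologicalSpace Γ]
  (n s m : ℕ) (T : GR K Γ n) (t : (Fin m → Fin s ⊕ Fin n) → K),
  IsTate (T.ρS s) t ↔ ∀ y ∈ T.L, actK (fromBlocks 0 0 0 y) t = 0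

/-- (TAL) algebraic classes are Tate classes -/
def S_tal : Prop := ∀ (K : Type) [Field K] (Γ : Type) [Group Γ] [TopologicalSpace Γ]
  (n r s m : ℕ) (T : GR K Γ n) (c : Fin n → Fin r) (d : Fin s → Fin r) (a : Fin m → Fin r),
  BD c T.Q → (∀ g, BD c (T.ρ g)) → ∀ t ∈ algK T.Q c d a, IsTate (T.ρS s) t

end

end Pool.Agent.W544.PG
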