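import Pool.Agent.W544.PG.Defs3

/-!
# Products of several surfaces (definitions and statements of the parts, IV)
-/

open Matrix Finset Module

namespace Pool.Agent.W544.PG

noncomputable section

/-- the bracket -/
def br {ι : Type} [Fintype ι] (a b : Matrix ι ι ℂ) : Matrix ι ι ℂ := a * b - b * a

/-- `A` is block-diagonal for the colouring `c`. -/
def BD {n r : ℕ} {R : Type} [Zero R] (c : Fin n → Fin r) (A : Matrix (Fin n) (Fin n) R) : Prop :=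
  ∀ a b, c a ≠ c b → A a b = 0

/-- the block of colour `i` of `A`, completed by the identity -/
def bl {n r : ℕ} {R : Type} [Zero R] [One R] (c : Fin n → Fin r) (i : Fin r)
    (A : Matrix (Fin n) (Fin n) R) : Matrix (Fin n) (Fin n) R :=
  Matrix.of fun a b => if c a = i ∧ c b = i then A a b else if a = b then 1 else 0

/-- (SUB) -/
def S_sub : Prop := ∀ (n k : ℕ) (T : HS n) (e : Fin k → Fin n), Function.Injective e →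
  (∀ a b, (∀ i, e i ≠ b) → T.Q (e a) b = 0 ∧ T.x (e a) b = 0 ∧ T.x b (e a) = 0) →
  ∃ T' : HS k, T'.Q = T.Q.submatrix e e ∧ T'.x = T.x.submatrix e e

/-- (SIM) `so(n)` is simple for `n ≥ 3`, `n ≠ 4`. -/
def S_sim : Prop := ∀ n : ℕ, 3 ≤ n → n ≠ 4 → ∀ J : Submodule ℂ (Matrix (Fin n) (Fin n) ℂ),
  (∀ y ∈ J, yᵀ = -y) → (∀ Z : Matrix (Fin n) (Fin n) ℂ, Zᵀ = -Z → ∀ y ∈ J, br Z y ∈ J) →
  J ≠ ⊥ → ∀ Z : Matrix (Fin n) (Fin n) ℂ, Zᵀ = -Z → Z ∈ J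

/-- (GOU) Goursat's lemma -/
def S_gou : Prop := ∀ (r : ℕ) (m : Fin r → ℕ), (∀ i, 3 ≤ m i ∧ m i ≠ 4) →
  ∀ h : Submodule ℂ (∀ i : Fin r, Matrix (Fin (m i)) (Fin (m i)) ℂ),
  (∀ y ∈ h, ∀ i, (y i)ᵀ = -y i) → (∀ y ∈ h, ∀ z ∈ h, (fun i => br (y i) (z i)) ∈ h) →
  (∀ (i : Fin r) (Z : Matrix (Fin (m i)) (Fin (m i)) ℂ), Zᵀ = -Z → ∃ y ∈ h, y i = Z) →
  (∀ i j, i ≠ j → ∃ y ∈ h, y i = 0 ∧ y j ≠ 0) →
  ∀ y : ∀ i : Fin r, Matrix (Fin (m i)) (Fin (m i)) ℂ, (∀ i, (y i)ᵀ = -y i) → y ∈ h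

/-- `θ` restricts to an isomorphism of `so(n)` with `so(m)`. -/
structure IsoSo {n m : ℕ} (θ : Matrix (Fin n) (Fin n) ℂ →ₗ[ℂ] Matrix (Fin m) (Fin m) ℂ) :
    Prop where
  map : ∀ y, yᵀ = -y → (θ y)ᵀ = -θ y
  inj : ∀ y, yᵀ = -y → θ y = 0 → y = 0
  surj : ∀ z : Matrix (Fin m) (Fin m) ℂ, zᵀ = -z → ∃ y, yᵀ = -y ∧ θ y = z
  br : ∀ y z, yᵀ = -y → zᵀ = -z → θ (br y z) = br (θ y) (θ z)

/-- (KIL) -/
def S_kil : Prop := ∀ (n m : ℕ), 3 ≤ n → 3 ≤ m →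
  ∀ θ : Matrix (Fin n) (Fin n) ℂ →ₗ[ℂ] Matrix (Fin m) (Fin m) ℂ, IsoSo θ →
  n = m ∧ ∀ y, yᵀ = -y → (θ y * θ y).trace = (y * y).trace

/-- (TYP) -/
def S_typ : Prop := ∀ n : ℕ, 3 ≤ n → n ≠ 8 → ∀ s : Matrix (Fin n) (Fin n) ℂ, sᵀ = -s →
  (s * s).trace = 2 → (∀ Z, Zᵀ = -Z → br s (br s (br s Z)) = br s Z) → s * s * s = s

/-- (NRM) -/
def S_nrm : Prop := ∀ (n q : ℕ), n = 2 + q → ∀ r : Matrix (Fin n) (Fin n) ℂ, rᵀ = -r →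
  r * r * r = r → (r * r).trace = 2 →
  ∃ (g : Matrix (Fin n) (I 1 q) ℂ) (g' : Matrix (I 1 q) (Fin n) ℂ),
    g * g' = 1 ∧ g' * g = 1 ∧ gᵀ * g = B0 1 q ∧ r * g = g * x0 1 q

/-- skew for `B0` -/
def So {q : ℕ} (y : Matrix (I 1 q) (I 1 q) ℂ) : Prop := yᵀ * B0 1 q + B0 1 q * y = 0

/-- (RIG) -/
def S_rig : Prop := ∀ (q : ℕ), 0 < q →
  ∀ θ : Matrix (I 1 q) (I 1 q) ℂ →ₗ[ℂ] Matrix (I 1 q) (I 1 q) ℂ,
  (∀ y, So y → So (θ y)) → (∀ y, So y → θ y = 0 → y = 0) → (∀ z, So z → ∃ y, So y ∧ θ y = z) →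
  (∀ y z, So y → So z → θ (br y z) = br (θ y) (θ z)) → θ (x0 1 q) = x0 1 q →
  ∃ A : Matrix (I 1 q) (I 1 q) ℂ, A ≠ 0 ∧ ∀ y, So y → A * y = θ y * A

/-- (THT) -/
def S_tht : Prop := ∀ (n m p : ℕ), 3 ≤ n → 3 ≤ m → (p = 1 ∨ n ≠ 8) →
  ∀ θ : Matrix (Fin n) (Fin n) ℂ →ₗ[ℂ] Matrix (Fin m) (Fin m) ℂ, IsoSo θ →
  ∀ x : Matrix (Fin n) (Fin n) ℂ, xᵀ = -x → x * x * x = x → (x * x).trace = 2 * p →
  θ x * θ x * θ x = θ x →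
  ∃ A : Matrix (Fin m) (Fin n) ℂ, A ≠ 0 ∧ ∀ y, yᵀ = -y → A * y = θ y * A

/-- (DE2) -/
def S_de2 : Prop := ∀ (n : ℕ) (T : HS n) (C : Matrix (Fin n) (Fin n) ℂ),
  (∀ σ : ℂ ≃+* ℂ, C * T.x.map σ = T.x.map σ * C) →
  C ∈ Submodule.span ℂ
    {D | ∃ P : Matrix (Fin n) (Fin n) ℚ, D = mC P ∧ mC P * T.x = T.x * mC P}

/-- (DIA) -/
def S_dia : Prop := ∀ (n r : ℕ) (T : HS n) (c : Fin n → Fin r), BD c T.Q → BD c T.x →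
  ∀ y ∈ T.hT, BD c y

/-- products of the intersection forms of the `T_i` -/
def HS.pairs2 {n : ℕ} (T : HS n) {r : ℕ} (c : Fin n → Fin r) (k : ℕ) :
    Submodule ℚ ((Fin k → Fin n) → ℚ) :=
  Submodule.span ℚ {s | ∃ (σ : Fin k → Fin k) (κ : Fin k → Fin r), (∀ j, σ (σ j) = j) ∧
    (∀ j, σ j ≠ j) ∧
    ∀ J, s J = ∏ j with j < σ j, if c (J j) = κ j then T.Q (J j) (J (σ j)) else 0}

/-- (FF2) -/
def S_ff2 : Prop := ∀ (n r k : ℕ) (T : HS n) (c : Fin n → Fin r), BD c T.Q →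
  ∀ t : (Fin k → Fin n) → ℚ,
  (∀ Z : Matrix (Fin n) (Fin n) ℂ, Zᵀ * mC T.Q + mC T.Q * Z = 0 → BD c Z → Kil Z t) →
  (∀ J, t J ≠ 0 → ∀ i, (univ.filter fun j => c (J j) = i).card <
    (univ.filter fun a => c a = i).card) → t ∈ T.pairs2 c k

/-- The cohomology of the product of the surfaces `S_(a 1), ..., S_(a m)`: products of algebraic
classes on some of the factors and of the transcendental parts of the diagonals on pairs of equal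
factors (`d` says to which surface an algebraic class belongs, `c` to which surface a coordinate of
`T` belongs). -/
def HS.algP {n : ℕ} (T : HS n) {r s m : ℕ} (c : Fin n → Fin r) (d : Fin s → Fin r)
    (a : Fin m → Fin r) : Submodule ℚ ((Fin m → Fin s ⊕ Fin n) → ℚ) :=
  Submodule.span ℚ {t | ∃ (σ : Fin m → Fin m) (ν : Fin m → Fin s → ℚ), (∀ j, σ (σ j) = j) ∧
    (∀ j, a (σ j) = a j) ∧ (∀ j b, ν j b ≠ 0 → d b = a j) ∧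
    ∀ J, t J = (∏ j with σ j = j, Sum.elim (ν j) (fun _ => 0) (J j)) *
      ∏ j with j < σ j,
        if Sum.elim d c (J j) = a j then Matrix.fromBlocks 0 0 0 T.Q (J j) (J (σ j)) else 0}

/-- (HC2) -/
def S_hc2 : Prop := ∀ (n r s : ℕ) (T : HS n) (c : Fin n → Fin r) (d : Fin s → Fin r),
  BD c T.Q →
  (∀ (k : ℕ) (t : (Fin k → Fin n) → ℚ), T.IsHodge t → (∀ J, t J ≠ 0 → ∀ i,
    (univ.filter fun j => c (J j) = i).card < (univ.filter fun a => c a = i).card) →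
    t ∈ T.pairs2 c k) →
  ∀ (m : ℕ) (a : Fin m → Fin r) (t : (Fin m → Fin s ⊕ Fin n) → ℚ), T.IsHodgeS t →
    (∀ J, t J ≠ 0 → ∀ j, Sum.elim d c (J j) = a j) →
    (∀ J, t J ≠ 0 → ∀ i, (univ.filter fun j => ∃ b, J j = Sum.inr b ∧ c b = i).card <
      (univ.filter fun a => c a = i).card) →
    t ∈ T.algP c d a

/-- (SO2) -/
def S_so2 : Prop := ∀ (n r k : ℕ) (c : Fin n → Fin r) (s : (Fin k → Fin n) → ℂ),
  (∀ Z : Matrix (Fin n) (Fin n) ℂ, Zᵀ = -Z → BD c Z → act Z s = 0) →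
  ∀ R : Matrix (Fin n) (Fin n) ℂ, Rᵀ * R = 1 → BD c R → (∀ i, (bl c i R).det = 1) →
    pull R s = s

/-- (AH2) -/
def S_ah2 : Prop := ∀ (n r k : ℕ) (c : Fin n → Fin r) (Q Q' : Matrix (Fin n) (Fin n) ℚ),
  Qᵀ = Q → Q'ᵀ = Q' → BD c Q → BD c Q' → Q.det ≠ 0 → Q'.det ≠ 0 →
  ∀ P : Matrix (Fin n) (Fin n) ℂ, BD c P → Pᵀ * mC Q' * P = mC Q →
  (∀ i, ∃ e : ℚ, (bl c i P).det = (e : ℂ)) → ∀ t : (Fin k → Fin n) → ℚ,
  (∀ Z : Matrix (Fin n) (Fin n) ℂ, Zᵀ * mC Q + mC Q * Z = 0 → BD c Z → Kil Z t) →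
  ∃ t' : (Fin k → Fin n) → ℚ,
    (∀ Z : Matrix (Fin n) (Fin n) ℂ, Zᵀ * mC Q' + mC Q' * Z = 0 → BD c Z → Kil Z t') ∧
    pull P (cx t') = cx t

end

end Pool.Agent.W544.PG
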