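import Pool.Agent.W544.PG.Prj
import Pool.Agent.W544.PG.Defs4
import Pool.Agent.W557.PG.Ahl
import Pool.Agent.W74.PG.HCT

/-!
# The Hodge Lie algebra of a sum of level two Hodge structures
-/

open Matrix Finset Module

namespace Pool.Agent.W544.PG

noncomputable section

/-- The conditions on `T = T_1 + ... + T_r` (`c` is the decomposition of the basis). -/
structure HS.Big {n : ℕ} (T : HS n) {r : ℕ} (c : Fin n → Fin r) (p q : Fin r → ℕ) : Prop where
  bQ : BD c T.Q
  bx : BD c T.x
  endo : ∀ P : Matrix (Fin n) (Fin n) ℚ, mC P * T.x = T.x * mC P →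
    ∃ d : Fin r → ℚ, P = Matrix.diagonal (fun a => d (c a))
  tr : ∀ i, ∑ a with c a = i, (T.x * T.x) a a = 2 * (p i : ℂ)
  rk : ∀ i, (univ.filter fun a => c a = i).card = 2 * p i + q i
  num : ∀ i, (p i = 1 ∧ 0 < q i ∧ q i ≠ 2) ∨
    (0 < p i ∧ 2 * p i ^ 2 * (p i ^ 2 + 1) < (q i - 2 * p i) * (q i + p i))

/-! ### Selection matrices -/

section sel
variable {n k l : ℕ}

/-- the selection matrix of `e` -/
def sel (e : Fin k → Fin n) : Matrix (Fin n) (Fin k) ℂ := Matrix.of fun a j => if e j = a then 1 else 0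

theorem sel_T_mul (e : Fin k → Fin n) {m : Type} (A : Matrix (Fin n) m ℂ) :
    (sel e)ᵀ * A = A.submatrix e id := by
  ext i j
  simp [sel, Matrix.mul_apply]

theorem mul_sel (e : Fin k → Fin n) {m : Type} (A : Matrix m (Fin n) ℂ) :
    A * sel e = A.submatrix id e := by
  ext i j
  simp [sel, Matrix.mul_apply]

theorem sub_eq (e : Fin k → Fin n) (A : Matrix (Fin n) (Fin n) ℂ) :
    A.submatrix e e = (sel e)ᵀ * A * sel e := by
  rw [sel_T_mul, mul_sel]
  rfl

theorem sel_T_sel (e : Fin k → Fin n) (he : Function.Injective e) :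
    (sel e)ᵀ * sel e = 1 := by
  rw [mul_sel]
  ext i j
  simp only [Matrix.submatrix_apply, Matrix.transpose_apply, sel, Matrix.of_apply, id,
    Matrix.one_apply, he.eq_iff]

variable {r : ℕ} (c : Fin n → Fin r)

/-- `e` enumerates the indices of colour `i`. -/
structure Enum (e : Fin k → Fin n) (i : Fin r) : Prop where
  inj : Function.Injective e
  col : ∀ j, c (e j) = i
  surj : ∀ a, c a = i → ∃ j, e j = a

variable {c} {e : Fin k → Fin n} {e' : Fin l → Fin n} {i i' : Fin r}

theorem exists_enum (c : Fin n → Fin r) (i : Fin r) {k : ℕ}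
    (hk : (univ.filter fun a => c a = i).card = k) : ∃ e : Fin k → Fin n, Enum c e i := by
  subst hk
  refine ⟨fun j => ((univ.filter fun a => c a = i).orderEmbOfFin rfl j), ?_, ?_, ?_⟩
  · intro j j' h
    exact ((univ.filter fun a => c a = i).orderEmbOfFin rfl).injective h
  · intro j
    exact (Finset.mem_filter.1 ((univ.filter fun a => c a = i).orderEmbOfFin_mem rfl j)).2
  · intro a ha
    have h1 : a ∈ Set.range ((univ.filter fun a => c a = i).orderEmbOfFin rfl) := by
      rw [Finset.range_orderEmbOfFin]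
      simpa using ha
    exact h1

theorem Enum.mul_sel (he : Enum c e i) {A : Matrix (Fin n) (Fin n) ℂ} (hA : BD c A) :
    A * sel e = sel e * A.submatrix e e := by
  ext a j
  simp only [Matrix.mul_apply, sel, Matrix.of_apply, Matrix.submatrix_apply, mul_ite, mul_one,
    mul_zero, Finset.sum_ite_eq, Finset.mem_univ, if_true, ite_mul, one_mul, zero_mul]
  by_cases ha : c a = i
  · obtain ⟨b, rfl⟩ := he.surj a ha
    rw [Finset.sum_eq_single b]
    · simp
    · intro b' _ hb
      rw [if_neg]
      intro h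
      exact hb (he.inj h)
    · simp
  · rw [hA a (e j) (by rw [he.col]; exact ha)]
    rw [Finset.sum_eq_zero]
    intro b _
    rw [if_neg]
    intro h
    exact ha (by rw [← h, he.col])

theorem BD.transpose {R : Type} [Zero R] {A : Matrix (Fin n) (Fin n) R} (hA : BD c A) :
    BD c Aᵀ := fun a b h => hA b a (Ne.symm h)

theorem Enum.selT_mul (he : Enum c e i) {A : Matrix (Fin n) (Fin n) ℂ} (hA : BD c A) :
    (sel e)ᵀ * A = A.submatrix e e * (sel e)ᵀ := by
  have h := congrArg Matrix.transpose (he.mul_sel hA.transpose)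
  rw [Matrix.transpose_mul, Matrix.transpose_mul, Matrix.transpose_transpose] at h
  rw [h]
  rfl

theorem BD.map {R S : Type} [Zero R] [Zero S] {A : Matrix (Fin n) (Fin n) R} (hA : BD c A)
    {f : R → S} (hf : f 0 = 0) : BD c (A.map f) := by
  intro a b h
  rw [Matrix.map_apply, hA a b h, hf]

theorem BD.mC {A : Matrix (Fin n) (Fin n) ℚ} (hA : BD c A) : BD c (mC A) :=
  hA.map (by simp)

theorem Enum.sub_mul (he : Enum c e i) {A : Matrix (Fin n) (Fin n) ℂ}
    {B : Matrix (Fin n) (Fin n) ℂ} (hB : BD c B) :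
    (A * B).submatrix e e = A.submatrix e e * B.submatrix e e := by
  rw [sub_eq, sub_eq e A, Matrix.mul_assoc, Matrix.mul_assoc, he.mul_sel hB]
  simp only [Matrix.mul_assoc]

theorem ext_of_sub {k : Fin r → ℕ} {e : ∀ i, Fin (k i) → Fin n} (he : ∀ i, Enum c (e i) i)
    {A B : Matrix (Fin n) (Fin n) ℂ} (hA : BD c A) (hB : BD c B)
    (h : ∀ i, A.submatrix (e i) (e i) = B.submatrix (e i) (e i)) : A = B := by
  ext a b
  by_cases hab : c a = c b
  · obtain ⟨j, hj⟩ := (he (c a)).surj a rfl
    obtain ⟨j', hj'⟩ := (he (c a)).surj b hab.symm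
    have := congrFun (congrFun (h (c a)) j) j'
    simp only [Matrix.submatrix_apply, hj, hj'] at this
    exact this
  · rw [hA a b hab, hB a b hab]

end sel

end

end Pool.Agent.W544.PG
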