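import Pool.Agent.W544.PG.Defs2

/-!
# Hodge groups of level two Hodge structures (definitions and statements of the parts, III)

Absolute Hodge classes and the generalized Hodge conjecture for powers of surfaces.
-/

open Matrix Finset Module

namespace Pool.Agent.W544.PG

noncomputable section

/-! ### Forms -/

section forms
variable {ι : Type} [Fintype ι] [DecidableEq ι] {k : ℕ}

/-- value of a rational form on complex vectors -/
def evG (t : (Fin k → ι) → ℚ) (v : Fin k → ι → ℂ) : ℂ :=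
  ∑ J : Fin k → ι, (t J : ℂ) * ∏ j, v j (J j)

/-- action of a matrix as a derivation on complex forms -/
def act (y : Matrix ι ι ℂ) (s : (Fin k → ι) → ℂ) : (Fin k → ι) → ℂ :=
  fun J => ∑ j, ∑ l, y l (J j) * s (Function.update J j l)

/-- pull-back of a form -/
def pull {R : Type} [CommRing R] (P : Matrix ι ι R) (s : (Fin k → ι) → R) : (Fin k → ι) → R :=
  fun J => ∑ K : Fin k → ι, (∏ j, P (K j) (J j)) * s K

/-- a rational form as a complex form -/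
def cx (t : (Fin k → ι) → ℚ) : (Fin k → ι) → ℂ := fun J => (t J : ℂ)

/-- the complex span of a rational space of forms -/
def cspan (W : Submodule ℚ ((Fin k → ι) → ℚ)) : Submodule ℂ ((Fin k → ι) → ℂ) :=
  Submodule.span ℂ (cx '' (W : Set ((Fin k → ι) → ℚ)))

end forms

/-! ### Absolute Hodge classes -/

/-- (SOI) a form killed by `so(n)` is invariant under `SO(n)` -/
def S_soi : Prop := ∀ (n k : ℕ) (s : (Fin k → Fin n) → ℂ),
  (∀ Z : Matrix (Fin n) (Fin n) ℂ, Zᵀ = -Z → act Z s = 0) →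
  ∀ R : Matrix (Fin n) (Fin n) ℂ, Rᵀ * R = 1 → R.det = 1 → pull R s = s

/-- (AHL) -/
def S_ahl : Prop := ∀ (n k : ℕ) (Q Q' : Matrix (Fin n) (Fin n) ℚ), Qᵀ = Q → Q'ᵀ = Q' →
  Q.det ≠ 0 → Q'.det ≠ 0 → ∀ P : Matrix (Fin n) (Fin n) ℂ, Pᵀ * mC Q' * P = mC Q →
  (∃ c : ℚ, P.det = (c : ℂ)) → ∀ t : (Fin k → Fin n) → ℚ,
  (∀ Z : Matrix (Fin n) (Fin n) ℂ, Zᵀ * mC Q + mC Q * Z = 0 → Kil Z t) →
  ∃ t' : (Fin k → Fin n) → ℚ,
    (∀ Z : Matrix (Fin n) (Fin n) ℂ, Zᵀ * mC Q' + mC Q' * Z = 0 → Kil Z t') ∧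
    pull P (cx t') = cx t

/-- (SQR) -/
def S_sqr : Prop := ∀ r : ℚ, (∀ (l : ℕ) [Fact l.Prime], ∃ z : ℚ_[l], z ^ 2 = (r : ℚ_[l])) →
  ∃ c : ℚ, c ^ 2 = r

/-- (EMB) -/
def S_emb : Prop := ∀ (l : ℕ) [Fact l.Prime], Nonempty (ℚ_[l] →+* ℂ)

/-- the total Hodge operator (`s` algebraic classes and `T`) -/
def HS.xS {n : ℕ} (T : HS n) (s : ℕ) : Matrix (Fin s ⊕ Fin n) (Fin s ⊕ Fin n) ℂ :=
  fromBlocks 0 0 0 T.x

/-- A class on the `m`-th power (a rational `m`-linear form on the total cohomology) is Hodge. -/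
def HS.IsHodgeS {n : ℕ} (T : HS n) {s m : ℕ} (t : (Fin m → Fin s ⊕ Fin n) → ℚ) : Prop :=
  ∀ (v : Fin m → Fin s ⊕ Fin n → ℂ) (a : Fin m → ℤ),
    (∀ j, T.xS s *ᵥ v j = (a j : ℂ) • v j) → ∑ j, a j ≠ 0 → evG t v = 0

/-- (AHT) from `T` to the total cohomology, for any field of coefficients -/
def S_aht : Prop := ∀ (n s m : ℕ) (T T' : HS n) (R : Type) [Field R] [CharZero R]
  (P : Matrix (Fin n) (Fin n) R),
  (∀ (k : ℕ) (t : (Fin k → Fin n) → ℚ), T.IsHodge t → ∃ t' : (Fin k → Fin n) → ℚ,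
    T'.IsHodge t' ∧ pull P (fun J => (t' J : R)) = fun J => (t J : R)) →
  ∀ t : (Fin m → Fin s ⊕ Fin n) → ℚ, T.IsHodgeS t → ∃ t' : (Fin m → Fin s ⊕ Fin n) → ℚ,
    T'.IsHodgeS t' ∧ pull (fromBlocks 1 0 0 P) (fun J => (t' J : R)) = fun J => (t J : R)

/-! ### Algebraic classes on powers -/

/-- products of algebraic classes of `S` on some of the factors and of the transcendental part of
the diagonal on pairs of factors -/
def HS.alg {n : ℕ} (T : HS n) (s m : ℕ) : Submodule ℚ ((Fin m → Fin s ⊕ Fin n) → ℚ) :=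
  Submodule.span ℚ {t | ∃ (σ : Fin m → Fin m) (ν : Fin m → Fin s → ℚ), (∀ j, σ (σ j) = j) ∧
    ∀ J, t J = (∏ j with σ j = j, Sum.elim (ν j) (fun _ => 0) (J j)) *
      ∏ j with j < σ j, Matrix.fromBlocks 0 0 0 T.Q (J j) (J (σ j))}

/-- products of the intersection form -/
def HS.pairs {n : ℕ} (T : HS n) (k : ℕ) : Submodule ℚ ((Fin k → Fin n) → ℚ) :=
  Submodule.span ℚ {s | ∃ σ : Fin k → Fin k, (∀ j, σ (σ j) = j) ∧ (∀ j, σ j ≠ j) ∧
    ∀ J, s J = ∏ j with j < σ j, T.Q (J j) (J (σ j))}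

/-- (HCT) -/
def S_hct : Prop := ∀ (n s : ℕ) (T : HS n),
  (∀ (k : ℕ), k < n → ∀ (t : (Fin k → Fin n) → ℚ), T.IsHodge t → t ∈ T.pairs k) →
  ∀ (m : ℕ) (t : (Fin m → Fin s ⊕ Fin n) → ℚ), T.IsHodgeS t →
    (∀ J, t J ≠ 0 → (univ.filter fun j => (J j).isRight = true).card < n) → t ∈ T.alg s m

/-- (FFT) -/
def S_fftT : Prop := ∀ (n k : ℕ) (T : HS n), k < n → ∀ t : (Fin k → Fin n) → ℚ,
  (∀ Z : Matrix (Fin n) (Fin n) ℂ, Zᵀ * mC T.Q + mC T.Q * Z = 0 → Kil Z t) → t ∈ T.pairs k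

/-! ### The generalized Hodge conjecture -/

/-- A rational space of forms is a Hodge substructure. -/
def HS.IsSub {n : ℕ} (T : HS n) {k : ℕ} (W : Submodule ℚ ((Fin k → Fin n) → ℚ)) : Prop :=
  ∀ w ∈ cspan W, act T.x w ∈ cspan W

/-- (G0) Hodge substructures are stable under `so(T)`. -/
def S_g0 : Prop := ∀ (n k : ℕ) (T : HS n),
  (∀ Z : Matrix (Fin n) (Fin n) ℂ, Zᵀ * mC T.Q + mC T.Q * Z = 0 → Z ∈ T.hT) →
  ∀ W : Submodule ℚ ((Fin k → Fin n) → ℚ), T.IsSub W →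
  ∀ Z : Matrix (Fin n) (Fin n) ℂ, Zᵀ * mC T.Q + mC T.Q * Z = 0 →
  ∀ w ∈ cspan W, act Z w ∈ cspan W

/-- forms (in orthonormal coordinates) in the span of products of at least `l` pairings with
arbitrary forms of the other variables -/
def insC (n k l : ℕ) : Submodule ℂ ((Fin k → Fin n) → ℂ) :=
  Submodule.span ℂ {s | ∃ (σ : Fin k → Fin k) (u : (Fin k → Fin n) → ℂ), (∀ j, σ (σ j) = j) ∧
    2 * l ≤ (univ.filter fun j => σ j ≠ j).card ∧
    (∀ J J', (∀ j, σ j = j → J j = J' j) → u J = u J') ∧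
    ∀ J, s J = (∏ j with j < σ j, if J j = J (σ j) then 1 else 0) * u J}

/-- `s` is traceless. -/
def Trl {n k : ℕ} (s : (Fin k → Fin n) → ℂ) : Prop :=
  ∀ a b : Fin k, a ≠ b → ∀ J, ∑ c, s (Function.update (Function.update J a c) b c) = 0

/-- (G2) -/
def S_g2 : Prop := ∀ (n r p : ℕ) (X : Matrix (Fin n) (Fin n) ℂ), Xᵀ = -X → X * X * X = X →
  (X * X).trace = 2 * p → r ≤ p → 2 * r < n → ∀ M : Submodule ℂ ((Fin r → Fin n) → ℂ),
  (∀ Z : Matrix (Fin n) (Fin n) ℂ, Zᵀ = -Z → ∀ s ∈ M, act Z s ∈ M) → (∀ s ∈ M, Trl s) →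
  M ≠ ⊥ → ∃ s ∈ M, s ≠ 0 ∧ act X s = (r : ℂ) • s

/-- (G1) -/
def S_g1 : Prop := ∀ (n k p l : ℕ) (X : Matrix (Fin n) (Fin n) ℂ), Xᵀ = -X → X * X * X = X →
  (X * X).trace = 2 * p → k ≤ p → 2 * k < n → ∀ M : Submodule ℂ ((Fin k → Fin n) → ℂ),
  (∀ Z : Matrix (Fin n) (Fin n) ℂ, Zᵀ = -Z → ∀ s ∈ M, act Z s ∈ M) →
  (∀ a : ℤ, (k : ℤ) - 2 * l + 1 < |a| → ∀ s ∈ M, act X s = (a : ℂ) • s → s = 0) →
  M ≤ insC n k l

/-- rational forms in the span of products of at least `l` pairings with arbitrary forms of the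
other variables -/
def HS.ins {n : ℕ} (T : HS n) (k l : ℕ) : Submodule ℚ ((Fin k → Fin n) → ℚ) :=
  Submodule.span ℚ {s | ∃ (σ : Fin k → Fin k) (u : (Fin k → Fin n) → ℚ), (∀ j, σ (σ j) = j) ∧
    2 * l ≤ (univ.filter fun j => σ j ≠ j).card ∧
    (∀ J J', (∀ j, σ j = j → J j = J' j) → u J = u J') ∧
    ∀ J, s J = (∏ j with j < σ j, T.Q (J j) (J (σ j))) * u J}

/-- (GQ) from orthonormal coordinates to `T` -/
def S_gq : Prop := ∀ (n k p q l : ℕ) (T : HS n), (T.x * T.x).trace = 2 * p → n = 2 * p + q →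
  0 < q → k ≤ p → ∀ W : Submodule ℚ ((Fin k → Fin n) → ℚ),
  (∀ Z : Matrix (Fin n) (Fin n) ℂ, Zᵀ * mC T.Q + mC T.Q * Z = 0 →
    ∀ w ∈ cspan W, act Z w ∈ cspan W) →
  (∀ a : ℤ, (k : ℤ) - 2 * l + 1 < |a| → ∀ w ∈ cspan W, act T.x w = (a : ℂ) • w → w = 0) →
  W ≤ T.ins k l

/-- The part of the cohomology of the `m`-th power given by products of: algebraic classes on the
factors in `A` (of codimensions `d`), transcendental parts of diagonals (codimension two) on pairs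
of factors, and an arbitrary class `u` on the other factors; the total codimension of the algebraic
part is at least `j`.  These classes are supported in codimension `j`.  (`cd a` is the codimension
of the `a`-th algebraic class of the surface.) -/
def HS.coniv {n : ℕ} (T : HS n) {s : ℕ} (cd : Fin s → ℕ) (m j : ℕ) :
    Submodule ℚ ((Fin m → Fin s ⊕ Fin n) → ℚ) :=
  Submodule.span ℚ {t | ∃ (A : Finset (Fin m)) (σ : Fin m → Fin m) (d : Fin m → ℕ)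
    (ν : Fin m → Fin s → ℚ) (u : (Fin m → Fin s ⊕ Fin n) → ℚ), (∀ i, σ (σ i) = i) ∧
    (∀ i ∈ A, σ i = i) ∧ (∀ i a, ν i a ≠ 0 → cd a = d i) ∧
    (∀ J J', (∀ i, i ∉ A → σ i = i → J i = J' i) → u J = u J') ∧
    j ≤ ∑ i ∈ A, d i + (univ.filter fun i => σ i ≠ i).card ∧
    ∀ J, t J = (∏ i ∈ A, Sum.elim (ν i) (fun _ => 0) (J i)) *
      (∏ i with i < σ i, Matrix.fromBlocks 0 0 0 T.Q (J i) (J (σ i))) * u J}

/-- (GHT) from `T` to the total cohomology -/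
def S_ght : Prop := ∀ (n p s m c j : ℕ) (T : HS n) (cd : Fin s → ℕ),
  (∀ (k l : ℕ), k ≤ p → ∀ W : Submodule ℚ ((Fin k → Fin n) → ℚ), T.IsSub W →
    (∀ a : ℤ, (k : ℤ) - 2 * l + 1 < |a| → ∀ w ∈ cspan W, act T.x w = (a : ℂ) • w → w = 0) →
    W ≤ T.ins k l) →
  ∀ W : Submodule ℚ ((Fin m → Fin s ⊕ Fin n) → ℚ),
  (∀ w ∈ cspan W, act (T.xS s) w ∈ cspan W) →
  (∀ w ∈ W, ∀ J, w J ≠ 0 → ∑ i, Sum.elim cd (fun _ => 1) (J i) = c ∧
    (univ.filter fun i => (J i).isRight = true).card ≤ p) →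
  (∀ a : ℤ, (c : ℤ) - j < |a| → ∀ w ∈ cspan W, act (T.xS s) w = (a : ℂ) • w → w = 0) →
  W ≤ T.coniv cd m j

end

end Pool.Agent.W544.PG
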