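import Pool.Agent.W544.PG.Defs

/-!
# Hodge groups of level two Hodge structures (definitions and statements of the parts, II)
-/

open Matrix Finset Module

namespace Pool.Agent.W544.PG

noncomputable section

/-- a rational matrix as a complex matrix -/
def mC {n : ℕ} (P : Matrix (Fin n) (Fin n) ℚ) : Matrix (Fin n) (Fin n) ℂ :=
  P.map (fun q : ℚ => (q : ℂ))

/-- A polarised rational Hodge structure of level two on `ℚ^n`, twisted to weight zero: the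
intersection form `Q` and the Hodge operator `x`, which is `1`, `0`, `-1` on the pieces of type
`(1,-1)`, `(0,0)`, `(-1,1)`. -/
structure HS (n : ℕ) where
  /-- the polarisation (up to sign) -/
  Q : Matrix (Fin n) (Fin n) ℚ
  symm : Qᵀ = Q
  /-- the Hodge operator -/
  x : Matrix (Fin n) (Fin n) ℂ
  cube : x * x * x = x
  real : x.map (starRingEnd ℂ) = -x
  skew : xᵀ * mC Q + mC Q * x = 0
  pos : ∀ v : Fin n → ℂ, v ≠ 0 → 0 < (star v ⬝ᵥ ((mC Q * ((2 : ℂ) • (x * x) - 1)) *ᵥ v)).re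

variable {n : ℕ} (T : HS n)

/-- the hermitian form -/
def HS.H : Matrix (Fin n) (Fin n) ℂ := mC T.Q * ((2 : ℂ) • (T.x * T.x) - 1)

/-- `End_Hdg T = ℚ` -/
def HS.Scalar : Prop := ∀ P : Matrix (Fin n) (Fin n) ℚ, mC P * T.x = T.x * mC P →
  ∃ c : ℚ, P = c • (1 : Matrix (Fin n) (Fin n) ℚ)

/-- value of a rational form on complex vectors -/
def ev {n k : ℕ} (t : (Fin k → Fin n) → ℚ) (v : Fin k → Fin n → ℂ) : ℂ :=
  ∑ I : Fin k → Fin n, (t I : ℂ) * ∏ j, v j (I j)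

/-- A rational `k`-linear form on `T` is a Hodge class (of type `(0,0)`). -/
def HS.IsHodge {k : ℕ} (t : (Fin k → Fin n) → ℚ) : Prop :=
  ∀ (v : Fin k → Fin n → ℂ) (a : Fin k → ℤ), (∀ j, T.x *ᵥ v j = (a j : ℂ) • v j) →
    ∑ j, a j ≠ 0 → ev t v = 0

/-- `y` kills the form `t`. -/
def Kil {n k : ℕ} (y : Matrix (Fin n) (Fin n) ℂ) (t : (Fin k → Fin n) → ℚ) : Prop :=
  ∀ J : Fin k → Fin n, ∑ j, ∑ l, y l (J j) * (t (Function.update J j l) : ℂ) = 0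

/-- the Lie algebra of the Hodge group -/
def HS.hT : Submodule ℂ (Matrix (Fin n) (Fin n) ℂ) where
  carrier := {y | yᵀ * mC T.Q + mC T.Q * y = 0 ∧
    ∀ (k : ℕ) (t : (Fin k → Fin n) → ℚ), T.IsHodge t → Kil y t}
  zero_mem' := ⟨by simp, fun k t _ J => by simp⟩
  add_mem' := by
    rintro a b ⟨ha, ha'⟩ ⟨hb, hb'⟩
    refine ⟨?_, fun k t ht J => ?_⟩
    · rw [transpose_add, add_mul, mul_add,
        show aᵀ * mC T.Q + bᵀ * mC T.Q + (mC T.Q * a + mC T.Q * b) =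
          (aᵀ * mC T.Q + mC T.Q * a) + (bᵀ * mC T.Q + mC T.Q * b) by abel, ha, hb, add_zero]
    · have h1 := ha' k t ht J
      have h2 := hb' k t ht J
      simp only [Matrix.add_apply, add_mul, Finset.sum_add_distrib, h1, h2, add_zero]
  smul_mem' := by
    rintro c a ⟨ha, ha'⟩
    refine ⟨?_, fun k t ht J => ?_⟩
    · rw [transpose_smul, smul_mul_assoc, mul_smul_comm, ← smul_add, ha, smul_zero]
    · have h1 := ha' k t ht J
      simp only [Matrix.smul_apply, smul_eq_mul, mul_assoc, ← Finset.mul_sum, h1, mul_zero]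

/-- (HK) -/
def S_hk : Prop := ∀ (n k : ℕ) (T : HS n) (t : (Fin k → Fin n) → ℚ), T.IsHodge t ↔ Kil T.x t

/-- (LIE) -/
def S_lie : Prop := ∀ (n k : ℕ) (t : (Fin k → Fin n) → ℚ) (a b : Matrix (Fin n) (Fin n) ℂ),
  Kil a t → Kil b t → Kil (a * b - b * a) t

/-- (STAR) -/
def S_star : Prop := ∀ (n : ℕ) (T : HS n), ∀ y ∈ T.hT,
  -(((2 : ℂ) • (T.x * T.x) - 1) * y.map (starRingEnd ℂ) * ((2 : ℂ) • (T.x * T.x) - 1)) ∈ T.hT

/-- (GAL) -/
def S_gal : Prop := ∀ (n : ℕ) (T : HS n) (σ : ℂ ≃+* ℂ), T.x.map σ ∈ T.hT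

/-- (DESC) -/
def S_desc : Prop := ∀ (n : ℕ) (T : HS n), T.Scalar → ∀ C : Matrix (Fin n) (Fin n) ℂ,
  (∀ σ : ℂ ≃+* ℂ, C * T.x.map σ = T.x.map σ * C) →
  ∃ c : ℂ, C = c • (1 : Matrix (Fin n) (Fin n) ℂ)

/-- (COORD) -/
def S_coord : Prop := ∀ (n p q : ℕ) (T : HS n), (T.x * T.x).trace = 2 * p → n = 2 * p + q →
  ∃ g : Matrix (Fin n) (I p q) ℂ, gᵀ * mC T.Q * g = B0 p q ∧ gᴴ * T.H * g = 1 ∧
    g * (gᴴ * T.H) = 1 ∧ T.x * g = g * x0 p q

/-- (MAINT) the Lie algebra of the Hodge group is `so(T)`. -/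
def S_mainT : Prop := ∀ (n p q : ℕ) (T : HS n), T.Scalar → (T.x * T.x).trace = 2 * p →
  n = 2 * p + q → 0 < p → (p = 1 ∨ 2 * p ^ 2 * (p ^ 2 + 1) < (q - 2 * p) * (q + p)) →
  ∀ Z : Matrix (Fin n) (Fin n) ℂ, Zᵀ * mC T.Q + mC T.Q * Z = 0 → Z ∈ T.hT

end

end Pool.Agent.W544.PG
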