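import Pool.Agent.W544.PG.Core
import Pool.Agent.W544.PG.Defs2

/-!
# The Hodge group of a level two Hodge structure (assembly)
-/

open Matrix Finset Module

namespace Pool.Agent.W544.PG

noncomputable section

variable {n : ℕ} (T : HS n)

/-- the Weil operator -/
def HS.C : Matrix (Fin n) (Fin n) ℂ := (2 : ℂ) • (T.x * T.x) - 1

theorem mC_T (P : Matrix (Fin n) (Fin n) ℚ) : (mC P)ᵀ = mC Pᵀ := rfl

theorem mC_conj (P : Matrix (Fin n) (Fin n) ℚ) : (mC P).map (starRingEnd ℂ) = mC P := by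
  ext i j
  simp [mC]

theorem mC_H (P : Matrix (Fin n) (Fin n) ℚ) : (mC P)ᴴ = mC Pᵀ := by
  ext i j
  simp [mC]

theorem H_eq_map (A : Matrix (Fin n) (Fin n) ℂ) : Aᴴ = (A.map (starRingEnd ℂ))ᵀ := by
  ext i j
  simp

theorem C_sq : T.C * T.C = 1 := by
  have h4 : (T.x * T.x) * (T.x * T.x) = T.x * T.x := by
    rw [← mul_assoc, T.cube]
  unfold HS.C
  rw [sub_mul, mul_sub, smul_mul_assoc, mul_smul_comm, h4, smul_smul, one_mul, mul_one]
  module

theorem xx_conj : (T.x * T.x).map (starRingEnd ℂ) = T.x * T.x := by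
  rw [Matrix.map_mul, T.real, neg_mul_neg]

theorem C_conj : T.C.map (starRingEnd ℂ) = T.C := by
  have h := xx_conj T
  unfold HS.C
  ext i j
  have h1 := congrFun (congrFun h i) j
  simp only [Matrix.map_apply, Matrix.sub_apply, Matrix.smul_apply, smul_eq_mul, map_sub,
    map_mul, Matrix.one_apply] at h1 ⊢
  rw [h1]
  split_ifs <;> simp [Complex.conj_ofNat]

theorem xx_Q : (T.x * T.x)ᵀ * mC T.Q = mC T.Q * (T.x * T.x) := by
  have h : T.xᵀ * mC T.Q = -(mC T.Q * T.x) := eq_neg_of_add_eq_zero_left T.skew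
  rw [transpose_mul, mul_assoc, h, mul_neg, ← mul_assoc, h, neg_mul, neg_neg, mul_assoc]

theorem C_Q : T.Cᵀ * mC T.Q = mC T.Q * T.C := by
  unfold HS.C
  rw [transpose_sub, transpose_smul, transpose_one, sub_mul, smul_mul_assoc, xx_Q, mul_sub,
    mul_smul_comm, one_mul, mul_one]

theorem H_def : T.H = mC T.Q * T.C := rfl

theorem H_herm : T.Hᴴ = T.H := by
  rw [H_def, conjTranspose_mul, mC_H, T.symm, H_eq_map, C_conj, C_Q]

theorem mem_hT (y : Matrix (Fin n) (Fin n) ℂ) : y ∈ T.hT ↔ (yᵀ * mC T.Q + mC T.Q * y = 0 ∧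
    ∀ (k : ℕ) (t : (Fin k → Fin n) → ℚ), T.IsHodge t → Kil y t) := Iff.rfl

/-- `hT` is closed under brackets. -/
theorem hT_lie (hlie : S_lie) {a b : Matrix (Fin n) (Fin n) ℂ} (ha : a ∈ T.hT) (hb : b ∈ T.hT) :
    a * b - b * a ∈ T.hT := by
  rw [mem_hT] at ha hb ⊢
  refine ⟨?_, fun k t ht => hlie n k t a b (ha.2 k t ht) (hb.2 k t ht)⟩
  have h1 : aᵀ * mC T.Q = -(mC T.Q * a) := eq_neg_of_add_eq_zero_left ha.1
  have h2 : bᵀ * mC T.Q = -(mC T.Q * b) := eq_neg_of_add_eq_zero_left hb.1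
  rw [transpose_sub, transpose_mul, transpose_mul, sub_mul, mul_assoc, mul_assoc, h1, h2,
    mul_neg, mul_neg, ← mul_assoc, ← mul_assoc, h1, h2, mul_sub]
  simp only [neg_mul, neg_neg, mul_assoc]
  abel

/-! ### Change of coordinates -/

section coord
variable {m k : Type} [Fintype m] [DecidableEq m] [Fintype k] [DecidableEq k]
  {g : Matrix k m ℂ} {g' : Matrix m k ℂ}

theorem cc_back (e2 : g * g' = 1) (w : Matrix k k ℂ) : g * (g' * w * g) * g' = w := by
  calc g * (g' * w * g) * g' = (g * g') * w * (g * g') := by simp only [Matrix.mul_assoc]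
    _ = w := by rw [e2, Matrix.one_mul, Matrix.mul_one]

theorem cc_fwd (e1 : g' * g = 1) (y : Matrix m m ℂ) : g' * (g * y * g') * g = y := by
  calc g' * (g * y * g') * g = (g' * g) * y * (g' * g) := by simp only [Matrix.mul_assoc]
    _ = y := by rw [e1, Matrix.one_mul, Matrix.mul_one]

theorem cc_mul (e1 : g' * g = 1) (a b : Matrix m m ℂ) :
    g * a * g' * (g * b * g') = g * (a * b) * g' := by
  calc g * a * g' * (g * b * g') = g * a * (g' * g) * b * g' := by simp only [Matrix.mul_assoc]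
    _ = g * (a * b) * g' := by rw [e1, Matrix.mul_one, Matrix.mul_assoc g a b]

theorem cc_mul' (e2 : g * g' = 1) (a b : Matrix k k ℂ) :
    g' * a * g * (g' * b * g) = g' * (a * b) * g := cc_mul e2 a b

/-- skewness, from `k` to `m` -/
theorem cc_skew (e2 : g * g' = 1) (Q Z : Matrix k k ℂ) (h : Zᵀ * Q + Q * Z = 0) :
    (g' * Z * g)ᵀ * (gᵀ * Q * g) + (gᵀ * Q * g) * (g' * Z * g) = 0 := by
  have t2 : g'ᵀ * gᵀ = 1 := by rw [← transpose_mul, e2, transpose_one]
  have h1 : (g' * Z * g)ᵀ * (gᵀ * Q * g) = gᵀ * (Zᵀ * Q) * g := by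
    rw [transpose_mul, transpose_mul]
    calc gᵀ * (Zᵀ * g'ᵀ) * (gᵀ * Q * g) = gᵀ * Zᵀ * (g'ᵀ * gᵀ) * Q * g := by
          simp only [Matrix.mul_assoc]
      _ = gᵀ * (Zᵀ * Q) * g := by rw [t2, Matrix.mul_one, Matrix.mul_assoc gᵀ]
  have h2 : (gᵀ * Q * g) * (g' * Z * g) = gᵀ * (Q * Z) * g := by
    calc (gᵀ * Q * g) * (g' * Z * g) = gᵀ * Q * (g * g') * Z * g := by
          simp only [Matrix.mul_assoc]
      _ = gᵀ * (Q * Z) * g := by rw [e2, Matrix.mul_one, Matrix.mul_assoc gᵀ]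
  rw [h1, h2, ← Matrix.add_mul, ← Matrix.mul_add, h, Matrix.mul_zero, Matrix.zero_mul]

theorem cc_skew' (e1 : g' * g = 1) (e2 : g * g' = 1) (Q : Matrix k k ℂ) (y : Matrix m m ℂ)
    (h : (g * y * g')ᵀ * Q + Q * (g * y * g') = 0) :
    yᵀ * (gᵀ * Q * g) + (gᵀ * Q * g) * y = 0 := by
  have h1 := cc_skew e2 Q (g * y * g') h
  rwa [cc_fwd e1] at h1

end coord

/-- adjoints in the coordinates -/
theorem cc_star {p q : ℕ} {g : Matrix (Fin n) (I p q) ℂ} (e2 : g * (gᴴ * T.H) = 1)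
    (e1 : gᴴ * T.H * g = 1)
    (y : Matrix (I p q) (I p q) ℂ) (w : Matrix (Fin n) (Fin n) ℂ)
    (hw : w = g * y * (gᴴ * T.H)) (hsk : wᵀ * mC T.Q + mC T.Q * w = 0) :
    g * yᴴ * (gᴴ * T.H) = -(T.C * w.map (starRingEnd ℂ) * T.C) := by
  have h1 : wᵀ * mC T.Q = -(mC T.Q * w) := eq_neg_of_add_eq_zero_left hsk
  have h2 : wᴴ * mC T.Q = -(mC T.Q * w.map (starRingEnd ℂ)) := by
    have h3 := congrArg (fun M : Matrix (Fin n) (Fin n) ℂ => M.map (starRingEnd ℂ)) h1
    simp only [Matrix.map_mul, mC_conj] at h3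
    rw [H_eq_map]
    have h4 : (w.map (starRingEnd ℂ))ᵀ = wᵀ.map (starRingEnd ℂ) := rfl
    rw [h4, h3]
    ext i j
    simp [Matrix.mul_apply, mC]
  have h3 : T.H * -(T.C * w.map (starRingEnd ℂ) * T.C) = wᴴ * T.H := by
    rw [H_def, ← mul_assoc, h2]
    calc mC T.Q * T.C * -(T.C * w.map (starRingEnd ℂ) * T.C)
        = -(mC T.Q * (T.C * T.C) * w.map (starRingEnd ℂ) * T.C) := by
          simp only [mul_neg, mul_assoc]
      _ = -(mC T.Q * w.map (starRingEnd ℂ)) * T.C := by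
          rw [C_sq, mul_one, neg_mul]
  have h4 : y = gᴴ * T.H * w * g := by
    rw [hw, cc_fwd e1]
  have h5 : yᴴ = gᴴ * wᴴ * (T.H * g) := by
    rw [h4]
    simp only [conjTranspose_mul, conjTranspose_conjTranspose, H_herm, Matrix.mul_assoc]
  have h6 : ∀ M : Matrix (Fin n) (Fin n) ℂ, g * (gᴴ * (T.H * M)) = M := by
    intro M
    calc g * (gᴴ * (T.H * M)) = g * (gᴴ * T.H) * M := by simp only [Matrix.mul_assoc]
      _ = M := by rw [e2, Matrix.one_mul]
  calc g * yᴴ * (gᴴ * T.H) = g * (gᴴ * ((wᴴ * T.H) * (g * (gᴴ * T.H)))) := by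
        rw [h5]; simp only [Matrix.mul_assoc]
    _ = g * (gᴴ * (wᴴ * T.H)) := by rw [e2, Matrix.mul_one]
    _ = -(T.C * w.map (starRingEnd ℂ) * T.C) := by rw [← h3, h6]

theorem x_map_cube (σ : ℂ ≃+* ℂ) :
    T.x.map σ * T.x.map σ * T.x.map σ = T.x.map σ := by
  have h := congrArg (fun M : Matrix (Fin n) (Fin n) ℂ => M.map σ) T.cube
  simpa only [Matrix.map_mul] using h

theorem x_map_tr (σ : ℂ ≃+* ℂ) {p : ℕ} (htr : (T.x * T.x).trace = 2 * p) :
    (T.x.map σ * T.x.map σ).trace = 2 * p := by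
  rw [← Matrix.map_mul]
  have h6 : ((T.x * T.x).map σ).trace = σ ((T.x * T.x).trace) := by
    rw [Matrix.trace, Matrix.trace, map_sum]
    rfl
  rw [h6, htr, map_mul, map_natCast, map_ofNat]

/-- the coordinate map -/
def cL {p q : ℕ} (g : Matrix (Fin n) (I p q) ℂ) (g' : Matrix (I p q) (Fin n) ℂ) :
    Matrix (I p q) (I p q) ℂ →ₗ[ℂ] Matrix (Fin n) (Fin n) ℂ where
  toFun y := g * y * g'
  map_add' a b := by rw [Matrix.mul_add, Matrix.add_mul]
  map_smul' c a := by rw [Matrix.mul_smul, Matrix.smul_mul, RingHom.id_apply]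

theorem mem_comap {p q : ℕ} (g : Matrix (Fin n) (I p q) ℂ) (g' : Matrix (I p q) (Fin n) ℂ)
    (y : Matrix (I p q) (I p q) ℂ) : y ∈ T.hT.comap (cL g g') ↔ g * y * g' ∈ T.hT := Iff.rfl

theorem comm_coord {p q : ℕ} {g : Matrix (Fin n) (I p q) ℂ} {g' : Matrix (I p q) (Fin n) ℂ}
    (e2 : g * g' = 1) (C : Matrix (I p q) (I p q) ℂ)
    (w : Matrix (Fin n) (Fin n) ℂ) (h : C * (g' * w * g) = (g' * w * g) * C) :
    (g * C * g') * w = w * (g * C * g') := by
  have h1 : (g * C * g') * w = g * (C * (g' * w * g)) * g' := by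
    calc (g * C * g') * w = (g * C * g') * w * (g * g') := by rw [e2, Matrix.mul_one]
      _ = _ := by simp only [Matrix.mul_assoc]
  have h2 : w * (g * C * g') = g * ((g' * w * g) * C) * g' := by
    calc w * (g * C * g') = (g * g') * w * (g * C * g') := by rw [e2, Matrix.one_mul]
      _ = _ := by simp only [Matrix.mul_assoc]
  rw [h1, h2, h]

theorem mainT (hcore : S_core) (hlie : S_lie) (hstar : S_star) (hgal : S_gal) (hdesc : S_desc)
    (hcoord : S_coord) : S_mainT := by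
  intro n p q T hsc htr hn hp hcond Z hZ
  obtain ⟨g, g1, g2, g3, g4⟩ := hcoord n p q T htr hn
  obtain ⟨g', hg'⟩ : ∃ g' : Matrix (I p q) (Fin n) ℂ, g' = gᴴ * T.H := ⟨_, rfl⟩
  have e1 : g' * g = 1 := by rw [hg']; exact g2
  have e2 : g * g' = 1 := by rw [hg']; exact g3
  have hx0 : x0 p q ∈ T.hT.comap (cL g g') := by
    rw [mem_comap, ← g4, Matrix.mul_assoc, e2, Matrix.mul_one]
    have h1 := hgal n T (RingEquiv.refl ℂ)
    have h2 : T.x.map (RingEquiv.refl ℂ) = T.x := by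
      ext i j
      simp
    rwa [h2] at h1
  have hskew : ∀ X ∈ T.hT.comap (cL g g'), Xᵀ * B0 p q + B0 p q * X = 0 := by
    intro y hy
    rw [mem_comap, mem_hT] at hy
    rw [← g1]
    exact cc_skew' e1 e2 _ y hy.1
  have hstar' : ∀ X ∈ T.hT.comap (cL g g'), Xᴴ ∈ T.hT.comap (cL g g') := by
    intro y hy
    rw [mem_comap] at hy ⊢
    have h1 := hstar n T _ hy
    have h2 := cc_star T g3 g2 y (g * y * g') (by rw [hg']) ((mem_hT T _).1 hy).1
    rw [← hg'] at h2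
    rw [h2]
    exact h1
  have hlie' : ∀ X ∈ T.hT.comap (cL g g'), ∀ Y ∈ T.hT.comap (cL g g'),
      X * Y - Y * X ∈ T.hT.comap (cL g g') := by
    intro a ha b hb
    rw [mem_comap] at ha hb ⊢
    have h1 := hT_lie T hlie ha hb
    rw [cc_mul e1, cc_mul e1] at h1
    rw [Matrix.mul_sub, Matrix.sub_mul]
    exact h1
  have hcom : ∀ C, (∀ y ∈ T.hT.comap (cL g g'), y * y * y = y → (y * y).trace = 2 * p →
      C * y = y * C) → ∃ c : ℂ, C = c • (1 : Matrix (I p q) (I p q) ℂ) := by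
    intro C hC
    have h1 : ∀ σ : ℂ ≃+* ℂ, g * C * g' * T.x.map σ = T.x.map σ * (g * C * g') := by
      intro σ
      apply comm_coord e2
      apply hC
      · rw [mem_comap, cc_back e2]
        exact hgal n T σ
      · rw [cc_mul' e2, cc_mul' e2, x_map_cube]
      · rw [cc_mul' e2, Matrix.mul_assoc, Matrix.trace_mul_comm, Matrix.mul_assoc, e2,
          Matrix.mul_one]
        exact x_map_tr T σ htr
    obtain ⟨c, hc⟩ := hdesc n T hsc _ h1
    refine ⟨c, ?_⟩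
    rw [← cc_fwd e1 C, hc, Matrix.mul_smul, Matrix.smul_mul, Matrix.mul_one, e1]
  have key := hcore p q (T.hT.comap (cL g g')) hp hcond hskew hstar' hlie' hx0 hcom
    (g' * Z * g) (by
      rw [← g1]
      exact cc_skew e2 _ Z hZ)
  rw [mem_comap, cc_back e2] at key
  exact key

end

end Pool.Agent.W544.PG
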