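import Mathlib

/-!
# Hodge groups of level two Hodge structures (definitions and statements of the parts, I)

Everything here is linear algebra over the complex numbers.
-/

open Matrix Finset Module

namespace Pool.Agent.W544.PG

noncomputable section

/-! ### Star-closed algebras of matrices -/

section star
variable {ι : Type} [Fintype ι] [DecidableEq ι]

/-- `S` is a unital algebra of matrices closed under the adjoint. -/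
def IsStar (S : Submodule ℂ (Matrix ι ι ℂ)) : Prop :=
  1 ∈ S ∧ (∀ a ∈ S, ∀ b ∈ S, a * b ∈ S) ∧ ∀ a ∈ S, aᴴ ∈ S

/-- the commutant -/
def com (S : Set (Matrix ι ι ℂ)) : Submodule ℂ (Matrix ι ι ℂ) where
  carrier := {a | ∀ s ∈ S, a * s = s * a}
  zero_mem' := by intro s _; simp
  add_mem' := by
    intro a b ha hb s hs
    rw [add_mul, mul_add, ha s hs, hb s hs]
  smul_mem' := by
    intro c a ha s hs
    rw [smul_mul_assoc, mul_smul_comm, ha s hs]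

/-- `e` is an orthogonal projection. -/
def Proj (e : Matrix ι ι ℂ) : Prop := e * e = e ∧ eᴴ = e

/-- The centre of `S` contains only the projections `0` and `1`. -/
def Factor (S : Submodule ℂ (Matrix ι ι ℂ)) : Prop :=
  ∀ e ∈ S, e ∈ com (S : Set (Matrix ι ι ℂ)) → Proj e → e = 0 ∨ e = 1

end star

/-- (EXP) conditional expectation -/
def S_exp : Prop := ∀ (ι : Type) [Fintype ι] [DecidableEq ι] (S : Submodule ℂ (Matrix ι ι ℂ)),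
  IsStar S → ∃ E : Matrix ι ι ℂ →ₗ[ℂ] Matrix ι ι ℂ, (∀ X, E X ∈ S) ∧ (∀ X ∈ S, E X = X) ∧
    (∀ X, ∀ s ∈ S, (E X * s).trace = (X * s).trace) ∧
    (∀ a ∈ S, ∀ X, E (a * X) = a * E X) ∧ (∀ a ∈ S, ∀ X, E (X * a) = E X * a)

/-- (DC) double commutant -/
def S_dc : Prop := ∀ (ι : Type) [Fintype ι] [DecidableEq ι] (S : Submodule ℂ (Matrix ι ι ℂ)),
  IsStar S → ∀ X, X ∈ com ((com (S : Set (Matrix ι ι ℂ)) : Submodule ℂ (Matrix ι ι ℂ)) :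
    Set (Matrix ι ι ℂ)) → X ∈ S

/-- (SPAN) a star-closed algebra is spanned by projections -/
def S_span : Prop := ∀ (ι : Type) [Fintype ι] [DecidableEq ι] (S : Submodule ℂ (Matrix ι ι ℂ)),
  IsStar S → S ≤ Submodule.span ℂ {e | e ∈ S ∧ Proj e}

/-- (SIMP) a star-closed algebra with trivial centre is simple -/
def S_simp : Prop := ∀ (ι : Type) [Fintype ι] [DecidableEq ι] (S J : Submodule ℂ (Matrix ι ι ℂ)),
  IsStar S → Factor S → J ≤ S → J ≠ ⊥ → (∀ a ∈ S, ∀ y ∈ J, a * y ∈ J ∧ y * a ∈ J) → J = S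

/-! ### Graded Lie algebras of skew operators -/

/-- the index set of the basis of `ℂ^p ⊕ ℂ^q ⊕ ℂ^p` -/
abbrev I (p q : ℕ) : Type := Fin p ⊕ (Fin q ⊕ Fin p)

/-- degree `0` operators -/
def big0 {p q : ℕ} (X : Matrix (Fin p) (Fin p) ℂ × Matrix (Fin q) (Fin q) ℂ) :
    Matrix (I p q) (I p q) ℂ :=
  fromBlocks X.1 0 0 (fromBlocks X.2 0 0 (-X.1ᵀ))

/-- degree `1` operators -/
def big1 {p q : ℕ} (F : Matrix (Fin p) (Fin q) ℂ) : Matrix (I p q) (I p q) ℂ :=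
  fromBlocks 0 (fromCols F 0) 0 (fromBlocks 0 (-Fᵀ) 0 0)

/-- degree `2` operators -/
def big2 {p q : ℕ} (Y : Matrix (Fin p) (Fin p) ℂ) : Matrix (I p q) (I p q) ℂ :=
  fromBlocks 0 (fromCols 0 Y) 0 0

/-- the grading element -/
def x0 (p q : ℕ) : Matrix (I p q) (I p q) ℂ := big0 (1, 0)

/-- the symmetric bilinear form -/
def B0 (p q : ℕ) : Matrix (I p q) (I p q) ℂ :=
  fromBlocks 0 (fromCols 0 1) (fromRows 0 1) (fromBlocks 1 0 0 0)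

/-- A graded Lie algebra of skew operators for `B0`, closed under adjoints, given by its parts of
degree `0`, `1`, `2` (the parts of degree `-1`, `-2` are the adjoints). -/
structure Gr (p q : ℕ) where
  /-- degree zero: pairs of the action on `V_1` and the action on `V_0` -/
  h0 : Submodule ℂ (Matrix (Fin p) (Fin p) ℂ × Matrix (Fin q) (Fin q) ℂ)
  /-- degree one: the action from `V_0` to `V_1` -/
  h1 : Submodule ℂ (Matrix (Fin p) (Fin q) ℂ)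
  /-- degree two: the action from `V_(-1)` to `V_1` -/
  h2 : Submodule ℂ (Matrix (Fin p) (Fin p) ℂ)
  skew0 : ∀ X ∈ h0, X.2ᵀ = -X.2
  skew2 : ∀ Y ∈ h2, Yᵀ = -Y
  star0 : ∀ X ∈ h0, ((X.1ᴴ, X.2ᴴ) : Matrix (Fin p) (Fin p) ℂ × Matrix (Fin q) (Fin q) ℂ) ∈ h0
  one : ((1, 0) : Matrix (Fin p) (Fin p) ℂ × Matrix (Fin q) (Fin q) ℂ) ∈ h0
  b00 : ∀ X ∈ h0, ∀ X' ∈ h0, ((X.1 * X'.1 - X'.1 * X.1, X.2 * X'.2 - X'.2 * X.2) :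
    Matrix (Fin p) (Fin p) ℂ × Matrix (Fin q) (Fin q) ℂ) ∈ h0
  b01 : ∀ X ∈ h0, ∀ F ∈ h1, X.1 * F - F * X.2 ∈ h1
  b02 : ∀ X ∈ h0, ∀ Y ∈ h2, X.1 * Y + Y * X.1ᵀ ∈ h2
  b11 : ∀ F ∈ h1, ∀ F' ∈ h1, F' * Fᵀ - F * F'ᵀ ∈ h2
  b1s : ∀ F ∈ h1, ∀ F' ∈ h1, ((F * F'ᴴ, (F'ᴴ * F)ᵀ - F'ᴴ * F) :
    Matrix (Fin p) (Fin p) ℂ × Matrix (Fin q) (Fin q) ℂ) ∈ h0
  b2s : ∀ Y ∈ h2, ∀ F ∈ h1, Y * (Fᴴ)ᵀ ∈ h1
  b22 : ∀ Y ∈ h2, ∀ Y' ∈ h2, ((Y * Y'ᴴ, 0) :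
    Matrix (Fin p) (Fin p) ℂ × Matrix (Fin q) (Fin q) ℂ) ∈ h0

variable {p q : ℕ} (G : Gr p q)

/-- all homogeneous operators -/
def Gr.ops : Set (Matrix (I p q) (I p q) ℂ) :=
  {y | (∃ X ∈ G.h0, y = big0 X) ∨ (∃ F ∈ G.h1, y = big1 F ∨ y = (big1 F)ᴴ) ∨
    ∃ Y ∈ G.h2, y = big2 Y ∨ y = (big2 Y)ᴴ}

/-- the Lie algebra -/
def Gr.alg : Submodule ℂ (Matrix (I p q) (I p q) ℂ) := Submodule.span ℂ G.ops

/-- only scalars commute with the Lie algebra -/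
def Gr.Irr : Prop := ∀ C ∈ com G.ops, ∃ c : ℂ, C = c • (1 : Matrix (I p q) (I p q) ℂ)

/-- `V_1` is irreducible under the degree zero part. -/
def Gr.IrrA : Prop := ∀ W : Submodule ℂ (Fin p → ℂ), (∀ X ∈ G.h0, ∀ w ∈ W, X.1 *ᵥ w ∈ W) →
  W = ⊥ ∨ W = ⊤

/-- no vector of `V_0` is killed by the degree one part -/
def Gr.KerB : Prop := ∀ u : Fin q → ℂ, (∀ F ∈ G.h1, F *ᵥ u = 0) → u = 0

/-- the action on `V_0` of the elements of degree zero which act as zero on `V_1` -/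
def Gr.kk : Submodule ℂ (Matrix (Fin q) (Fin q) ℂ) :=
  G.h0.comap (LinearMap.inr ℂ (Matrix (Fin p) (Fin p) ℂ) (Matrix (Fin q) (Fin q) ℂ))

/-- Properties of the algebra generated by `kk`. -/
structure Gr.Adm (A : Submodule ℂ (Matrix (Fin q) (Fin q) ℂ)) : Prop where
  star : IsStar A
  tr : ∀ a ∈ A, aᵀ ∈ A
  mod : ∀ F ∈ G.h1, ∀ a ∈ A, F * a ∈ G.h1
  nor : ∀ X ∈ G.h0, ∀ a ∈ A, X.2 * a - a * X.2 ∈ A
  kle : G.kk ≤ A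

/-- (IRR) -/
def S_irr : Prop := ∀ (p q : ℕ) (G : Gr p q), 0 < p → G.Irr → G.IrrA ∧ G.KerB

/-- (CAS) the Casimir inequality -/
def S_cas : Prop := ∀ (p q : ℕ) (G : Gr p q), 0 < p → G.Irr →
  q * (finrank ℂ G.h0 + 2 * finrank ℂ G.h1 + 2 * finrank ℂ G.h2) + (2 * p + q) ≤
    (2 * p + q) * (finrank ℂ G.h0 + finrank ℂ G.h1)

/-- (DIM) -/
def S_dim : Prop := ∀ (p q : ℕ) (G : Gr p q), G.KerB →
  finrank ℂ G.h0 ≤ p ^ 2 + finrank ℂ G.kk ∧ q ≤ p * finrank ℂ G.h1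

/-- (ADJ) -/
def S_adj : Prop := ∀ (p q : ℕ) (G : Gr p q), ∃ A, G.Adm A

/-- (CEN1) -/
def S_cen1 : Prop := ∀ (p q : ℕ) (G : Gr p q) (A : Submodule ℂ (Matrix (Fin q) (Fin q) ℂ)),
  G.Adm A → G.IrrA → G.KerB → ∀ e ∈ A, e ∈ com (A : Set (Matrix (Fin q) (Fin q) ℂ)) → Proj e →
  eᵀ = e → e = 0 ∨ e = 1

/-- (CEN2) -/
def S_cen2 : Prop := ∀ (p q : ℕ) (G : Gr p q) (A : Submodule ℂ (Matrix (Fin q) (Fin q) ℂ)),
  G.Adm A → G.IrrA → G.KerB → 2 ≤ finrank ℂ G.kk → Factor A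

/-- (LG) -/
def S_lg : Prop := ∀ (p q : ℕ) (G : Gr p q) (A : Submodule ℂ (Matrix (Fin q) (Fin q) ℂ)),
  G.Adm A → Factor A → 4 ≤ finrank ℂ G.kk → ∀ F ∈ G.h1, ∀ F' ∈ G.h1, F'ᴴ * F ∈ A

/-- operators of degree `1` and `-1` -/
def Gr.ops1 : Set (Matrix (I p q) (I p q) ℂ) := {y | ∃ F ∈ G.h1, y = big1 F ∨ y = (big1 F)ᴴ}

/-- (COM1) -/
def S_com1 : Prop := ∀ (p q : ℕ) (G : Gr p q), 0 < p → 0 < q → G.IrrA → G.KerB →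
  ∀ s ∈ com G.ops1, s * x0 p q = x0 p q * s

/-- (NOR) -/
def S_nor : Prop := ∀ (p q : ℕ) (G : Gr p q), G.Irr →
  IsStar (com G.ops1) ∧ Factor (com G.ops1) ∧
  (∀ y ∈ G.alg, ∀ s ∈ com G.ops1, y * s - s * y ∈ com G.ops1) ∧
  ∀ s ∈ com G.ops1, B0 p q * sᵀ * B0 p q ∈ com G.ops1

/-- (DER) -/
def S_der : Prop := ∀ (ι : Type) [Fintype ι] [DecidableEq ι] (S : Submodule ℂ (Matrix ι ι ℂ))
  (B x y : Matrix ι ι ℂ) (p : ℕ), IsStar S → Factor S → B * B = 1 → Bᵀ = B → Bᴴ = B →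
  (∀ s ∈ S, B * sᵀ * B ∈ S) → 0 < p → p ^ 2 < Fintype.card ι → Fintype.card ι ≠ 4 * p →
  x * x * x = x → y * y * y = y → (x * x).trace = 2 * p → (y * y).trace = 2 * p →
  B * xᵀ * B = -x → B * yᵀ * B = -y →
  x ∈ com (S : Set (Matrix ι ι ℂ)) → (∀ s ∈ S, y * s - s * y ∈ S) →
  y ∈ com (S : Set (Matrix ι ι ℂ))

/-- (EXT) -/
def S_ext : Prop := ∀ (p q : ℕ) (G : Gr p q) (A : Submodule ℂ (Matrix (Fin q) (Fin q) ℂ)),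
  0 < p → 0 < q → G.Adm A → G.IrrA → G.KerB → (∀ F ∈ G.h1, ∀ F' ∈ G.h1, F'ᴴ * F ∈ A) →
  ∀ c ∈ com (A : Set (Matrix (Fin q) (Fin q) ℂ)), ∃ (c₁ c₂ : Matrix (Fin p) (Fin p) ℂ),
    (fromBlocks c₁ 0 0 (fromBlocks c 0 0 c₂) : Matrix (I p q) (I p q) ℂ) ∈ com G.ops1

/-- (TOP) -/
def S_top : Prop := ∀ (p q : ℕ) (G : Gr p q), 0 < p → G.IrrA → G.KerB →
  (p = 1 ∨ 0 < q ∧ ∀ F ∈ G.h1, ∀ a : Matrix (Fin q) (Fin q) ℂ, F * a ∈ G.h1) → G.h1 = ⊤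

/-- (FIN) -/
def S_fin : Prop := ∀ (p q : ℕ) (G : Gr p q), 0 < p → (0 < q ∨ p = 1) → G.h1 = ⊤ →
  ∀ Z : Matrix (I p q) (I p q) ℂ, Zᵀ * B0 p q + B0 p q * Z = 0 → Z ∈ G.alg

/-- (GRD) -/
def S_grd : Prop := ∀ (p q : ℕ) (h : Submodule ℂ (Matrix (I p q) (I p q) ℂ)),
  (∀ X ∈ h, Xᵀ * B0 p q + B0 p q * X = 0) → (∀ X ∈ h, Xᴴ ∈ h) →
  (∀ X ∈ h, ∀ Y ∈ h, X * Y - Y * X ∈ h) → x0 p q ∈ h → ∃ G : Gr p q, G.alg = h

/-- (CORE) the main theorem on Lie algebras -/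
def S_core : Prop := ∀ (p q : ℕ) (h : Submodule ℂ (Matrix (I p q) (I p q) ℂ)),
  0 < p → (p = 1 ∨ 2 * p ^ 2 * (p ^ 2 + 1) < (q - 2 * p) * (q + p)) →
  (∀ X ∈ h, Xᵀ * B0 p q + B0 p q * X = 0) → (∀ X ∈ h, Xᴴ ∈ h) →
  (∀ X ∈ h, ∀ Y ∈ h, X * Y - Y * X ∈ h) → x0 p q ∈ h →
  (∀ C, (∀ y ∈ h, y * y * y = y → (y * y).trace = 2 * p → C * y = y * C) →
    ∃ c : ℂ, C = c • (1 : Matrix (I p q) (I p q) ℂ)) →
  ∀ Z : Matrix (I p q) (I p q) ℂ, Zᵀ * B0 p q + B0 p q * Z = 0 → Z ∈ h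

end

end Pool.Agent.W544.PG
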