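import Pool.Agent.W544.PG.Core
import Pool.Agent.W544.PG.MainT
import Pool.Agent.W202.PG.Exp
import Pool.Agent.W409.PG.DC
import Pool.Agent.W368.PG.Span
import Pool.Agent.W101.PG.Simp
import Pool.Agent.W216.PG.IRR
import Pool.Agent.W308.PG.Cas
import Pool.Agent.W417.PG.Dim
import Pool.Agent.W116.PG.ADJ
import Pool.Agent.W338.PG.CEN
import Pool.Agent.W507.PG.Lg
import Pool.Agent.W82.PG.CommOne
import Pool.Agent.W417.PG.Nor
import Pool.Agent.W701.PG.Der
import Pool.Agent.W570.PG.EXT
import Pool.Agent.W85.PG.Fin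
import Pool.Agent.W216.PG.GRD
import Pool.Agent.W101.PG.Hk
import Pool.Agent.W199.PG.Star
import Pool.Agent.W131.PG.Gal
import Pool.Agent.W655.PG.Desc
import Pool.Agent.W927.PG.Coord

/-!
# The unconditional theorem on the Hodge Lie algebra
-/

open Matrix Finset Module

namespace Pool.Agent.W544.PG

/-- The theorem on graded Lie algebras. -/
theorem coreF : S_core :=
  core W202.PG.exp (W409.PG.dc W202.PG.exp) W368.PG.span (W101.PG.simp W202.PG.exp)
    W216.PG.irr W308.PG.cas W417.PG.dim W116.PG.adj W338.PG.cen1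
    (fun _ h => W338.PG.cen2 h) W507.PG.lg W82.PG.com1 W417.PG.nor W701.PG.der W570.PG.ext
    W85.PG.top W85.PG.fin W216.PG.GRD.grd

/-- Every Hodge tensor is killed by `so(T)`. -/
theorem mainTF : S_mainT :=
  mainT coreF W101.PG.lie W199.PG.star' (W131.PG.gal W101.PG.hk) W655.PG.desc W927.PG.coord

end Pool.Agent.W544.PG
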