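import Pool.Agent.W544.PG.AH
import Pool.Agent.W571.PG.SUB
import Pool.Agent.W589.PG.Sim
import Pool.Agent.W756.PG.GOU
import Pool.Agent.W366.PG.KIL
import Pool.Agent.W577.PG.Typ
import Pool.Agent.W922.PG.Nrm
import Pool.Agent.W382.PG.RIG
import Pool.Agent.W585.PG.THT
import Pool.Agent.W696.PG.DE2
import Pool.Agent.W138.PG.Dia
import Pool.Agent.W410.PG.FF2
import Pool.Agent.W318.PG.HC2

/-!
# Products of surfaces: the Hodge Lie algebra and algebraic classes
-/

open Matrix Finset Module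

namespace Pool.Agent.W544.PG

noncomputable section

variable {n r : ℕ} {T T' : HS n} {c : Fin n → Fin r} {p q : Fin r → ℕ}

theorem thtF : S_tht := W585.PG.tht W366.PG.KIL.kil W577.PG.typ W922.PG.nrm W382.PG.Rig.rig

/-- The Hodge Lie algebra contains (hence is) the sum of the `so(T_i)`. -/
theorem mainPF (hB : T.Big c p q) (Z : Matrix (Fin n) (Fin n) ℂ)
    (hZ : Zᵀ * mC T.Q + mC T.Q * Z = 0) (hZc : BD c Z) : Z ∈ T.hT :=
  mainP W571.PG.sub W589.PG.Sim.sim W756.PG.gou thtF W696.PG.de2 W138.PG.dia hB Z hZ hZc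

/-- Hodge classes on products of the surfaces -/
theorem hcF (hB : T.Big c p q) {s m : ℕ} (d : Fin s → Fin r) (a : Fin m → Fin r)
    (t : (Fin m → Fin s ⊕ Fin n) → ℚ) (ht : T.IsHodgeS t)
    (hta : ∀ J, t J ≠ 0 → ∀ j, Sum.elim d c (J j) = a j)
    (htr : ∀ J, t J ≠ 0 → ∀ i, (univ.filter fun j => ∃ b, J j = Sum.inr b ∧ c b = i).card <
      2 * p i + q i) : t ∈ T.algP c d a := by
  refine W318.PG.hc2 n r s T c d hB.bQ (fun k t ht hk =>
    W410.PG.FF2.ff2 n r k T c hB.bQ t (fun Z hZ hZc =>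
      ((mem_hT T Z).1 (mainPF hB Z hZ hZc)).2 k t ht) hk) m a t ht hta fun J hJ i => ?_
  rw [hB.rk i]
  exact htr J hJ i

end

end Pool.Agent.W544.PG
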