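import Pool.Agent.W544.PG.MainP2

/-!
# The Hodge Lie algebra of a sum of level two Hodge structures (end)
-/

open Matrix Finset Module

namespace Pool.Agent.W544.PG

noncomputable section

variable {n r : ℕ} {T : HS n} {c : Fin n → Fin r} {p q : Fin r → ℕ}

/-- restriction to the blocks in orthonormal coordinates -/
def phi {m : Fin r → ℕ} (e : ∀ i, Fin (m i) → Fin n)
    (g g' : ∀ i, Matrix (Fin (m i)) (Fin (m i)) ℂ) :
    Matrix (Fin n) (Fin n) ℂ →ₗ[ℂ] (∀ i : Fin r, Matrix (Fin (m i)) (Fin (m i)) ℂ) where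
  toFun y i := g' i * y.submatrix (e i) (e i) * g i
  map_add' a b := by
    funext i
    rw [Matrix.submatrix_add]
    simp only [Pi.add_apply, Matrix.mul_add, Matrix.add_mul]
  map_smul' a b := by
    funext i
    rw [Matrix.submatrix_smul]
    simp only [Pi.smul_apply, Matrix.mul_smul, Matrix.smul_mul, RingHom.id_apply]

theorem mainP (hsub : S_sub) (hsim : S_sim) (hgou : S_sim → S_gou) (htht : S_tht) (hde2 : S_de2)
    (hdia : S_dia) (hB : T.Big c p q) (Z : Matrix (Fin n) (Fin n) ℂ)
    (hZ : Zᵀ * mC T.Q + mC T.Q * Z = 0) (hZc : BD c Z) : Z ∈ T.hT := by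
  have hbd : ∀ y ∈ T.hT, BD c y := hdia n r T c hB.bQ hB.bx
  choose e T' b using fun i => exists_blk hsub hB i
  have hdet : ∀ i, (mC (T' i).Q).det ≠ 0 := by
    intro i h
    apply W74.PG.det_ne (T' i)
    have h1 : (mC (T' i).Q).det = (((T' i).Q.det : ℚ) : ℂ) := by
      have h2 := (Rat.castHom ℂ).map_det (T' i).Q
      exact h2.symm
    rw [h1] at h
    exact_mod_cast h
  have horth : ∀ i, ∃ g : Matrix (Fin (2 * p i + q i)) (Fin (2 * p i + q i)) ℂ,
      gᵀ * mC (T' i).Q * g = 1 := fun i => W557.PG.orth _ (by rw [mC_T, (T' i).symm]) (hdet i)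
  choose g hg using horth
  obtain ⟨g', hg'⟩ : ∃ g' : ∀ i, Matrix (Fin (2 * p i + q i)) (Fin (2 * p i + q i)) ℂ,
      g' = fun i => (g i)ᵀ * mC (T' i).Q := ⟨_, rfl⟩
  have e1 : ∀ i, g' i * g i = 1 := fun i => by rw [hg']; exact hg i
  have e2 : ∀ i, g i * g' i = 1 := fun i => mul_eq_one_comm.1 (e1 i)
  -- skewness in the new coordinates
  have sk1 : ∀ i (y : Matrix (Fin (2 * p i + q i)) (Fin (2 * p i + q i)) ℂ),
      yᵀ * mC (T' i).Q + mC (T' i).Q * y = 0 → (g' i * y * g i)ᵀ = -(g' i * y * g i) := by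
    intro i y hy
    have h1 := cc_skew (e2 i) (mC (T' i).Q) y hy
    rw [hg i, Matrix.mul_one, Matrix.one_mul] at h1
    exact eq_neg_of_add_eq_zero_left h1
  have sk2 : ∀ i (y : Matrix (Fin (2 * p i + q i)) (Fin (2 * p i + q i)) ℂ),
      yᵀ = -y → (g i * y * g' i)ᵀ * mC (T' i).Q + mC (T' i).Q * (g i * y * g' i) = 0 := by
    intro i y hy
    have h1 : (g i * y * g' i)ᵀ * mC (T' i).Q = -(mC (T' i).Q * (g i * y * g' i)) := by
      have t1 : (g i)ᵀ * (g' i)ᵀ = 1 := by rw [← Matrix.transpose_mul, e1, Matrix.transpose_one]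
      have t2 : (g' i)ᵀ * (g i)ᵀ = 1 := by rw [← Matrix.transpose_mul, e2, Matrix.transpose_one]
      have t3 : (g i)ᵀ * mC (T' i).Q = g' i := by rw [hg']
      have t4 : mC (T' i).Q * g i = (g' i)ᵀ := by
        calc mC (T' i).Q * g i = (g' i)ᵀ * (g i)ᵀ * (mC (T' i).Q * g i) := by
              rw [t2, Matrix.one_mul]
          _ = (g' i)ᵀ * ((g i)ᵀ * mC (T' i).Q * g i) := by simp only [Matrix.mul_assoc]
          _ = (g' i)ᵀ := by rw [hg i, Matrix.mul_one]
      rw [Matrix.transpose_mul, Matrix.transpose_mul, hy]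
      calc (g' i)ᵀ * (-y * (g i)ᵀ) * mC (T' i).Q = -((g' i)ᵀ * y * ((g i)ᵀ * mC (T' i).Q)) := by
            simp only [Matrix.mul_assoc, Matrix.neg_mul, Matrix.mul_neg]
        _ = -((g' i)ᵀ * y * g' i) := by rw [t3]
        _ = -(mC (T' i).Q * (g i * y * g' i)) := by
            rw [← t4]
            simp only [Matrix.mul_assoc]
    rw [h1, neg_add_cancel]
  obtain ⟨h, hh⟩ : ∃ h, h = T.hT.map (phi e g g') := ⟨_, rfl⟩
  have mem : ∀ y ∈ T.hT, phi e g g' y ∈ h := fun y hy => by
    rw [hh]; exact ⟨y, hy, rfl⟩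
  have A1 : ∀ y ∈ h, ∀ i, (y i)ᵀ = -y i := by
    rw [hh]
    rintro _ ⟨y, hy, rfl⟩ i
    exact sk1 i _ ((b i).skew hB ((mem_hT T y).1 hy).1)
  have A2 : ∀ y ∈ h, ∀ z ∈ h, (fun i => br (y i) (z i)) ∈ h := by
    rw [hh]
    rintro _ ⟨y, hy, rfl⟩ _ ⟨z, hz, rfl⟩
    refine ⟨y * z - z * y, hT_lie T W101.PG.lie hy hz, ?_⟩
    funext i
    change g' i * (y * z - z * y).submatrix (e i) (e i) * g i =
      g' i * y.submatrix (e i) (e i) * g i * (g' i * z.submatrix (e i) (e i) * g i) -
      g' i * z.submatrix (e i) (e i) * g i * (g' i * y.submatrix (e i) (e i) * g i)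
    rw [cc_mul' (e2 i), cc_mul' (e2 i), ← (b i).en.sub_mul (hbd z hz),
      ← (b i).en.sub_mul (hbd y hy), ← Matrix.sub_mul, ← Matrix.mul_sub]
    rfl
  have A3 : ∀ (i : Fin r) (Z : Matrix (Fin (2 * p i + q i)) (Fin (2 * p i + q i)) ℂ),
      Zᵀ = -Z → ∃ y ∈ h, y i = Z := by
    intro i Z hZ
    obtain ⟨y, hy, hyZ⟩ := (b i).surj hdia hB _ (sk2 i Z hZ)
    refine ⟨_, mem y hy, ?_⟩
    change g' i * y.submatrix (e i) (e i) * g i = Z
    rw [hyZ]
    exact cc_fwd (e1 i) Z
  have hm : ∀ i, 3 ≤ 2 * p i + q i ∧ 2 * p i + q i ≠ 4 ∧ (p i = 1 ∨ 2 * p i + q i ≠ 8) := by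
    intro i
    rcases hB.num i with h | ⟨h0, h⟩
    · omega
    · have hlt : 2 * p i < q i := by
        by_contra h'
        rw [Nat.sub_eq_zero_of_le (not_lt.1 h'), zero_mul] at h
        omega
      omega
  have A4 : ∀ i j, i ≠ j → ∃ y ∈ h, y i = 0 ∧ y j ≠ 0 := by
    intro i j hij
    by_contra hcon
    push Not at hcon
    obtain ⟨θ, hθ⟩ := exists_theta h (LinearMap.proj (R := ℂ)
      (φ := fun i : Fin r => Matrix (Fin (2 * p i + q i)) (Fin (2 * p i + q i)) ℂ) i)
      (LinearMap.proj (R := ℂ)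
      (φ := fun i : Fin r => Matrix (Fin (2 * p i + q i)) (Fin (2 * p i + q i)) ℂ) j) hcon
    replace hθ : ∀ y ∈ h, θ (y i) = y j := hθ
    have hbr : ∀ y z, yᵀ = -y → zᵀ = -z → θ (br y z) = br (θ y) (θ z) := by
      intro y z hy hz
      obtain ⟨Y, hY, rfl⟩ := A3 i y hy
      obtain ⟨W, hW, rfl⟩ := A3 i z hz
      have h1 := hθ _ (A2 Y hY W hW)
      rw [hθ Y hY, hθ W hW]
      exact h1
    have hinj : ∀ y, yᵀ = -y → θ y = 0 → y = 0 := by
      intro y hy hy0
      by_contra hne
      have hall : ∀ Z : Matrix (Fin (2 * p i + q i)) (Fin (2 * p i + q i)) ℂ, Zᵀ = -Z →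
          θ Z = 0 := by
        intro Z hZ
        let J : Submodule ℂ (Matrix (Fin (2 * p i + q i)) (Fin (2 * p i + q i)) ℂ) :=
          { carrier := {y | yᵀ = -y ∧ θ y = 0}
            zero_mem' := by simp
            add_mem' := by
              rintro a b ⟨ha, ha'⟩ ⟨hb, hb'⟩
              refine ⟨?_, ?_⟩
              · rw [Matrix.transpose_add, ha, hb]; abel
              · rw [map_add, ha', hb', add_zero]
            smul_mem' := by
              rintro z a ⟨ha, ha'⟩
              refine ⟨?_, ?_⟩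
              · rw [Matrix.transpose_smul, ha, smul_neg]
              · rw [map_smul, ha', smul_zero] }
        have h1 : Z ∈ J := by
          apply hsim _ (hm i).1 (hm i).2.1 J (fun y hy => hy.1) _ _ Z hZ
          · intro Z hZ y hy
            refine ⟨?_, ?_⟩
            · unfold br
              rw [Matrix.transpose_sub, Matrix.transpose_mul, Matrix.transpose_mul, hy.1, hZ]
              simp only [Matrix.neg_mul, Matrix.mul_neg, neg_neg]
              abel
            · rw [hbr Z y hZ hy.1, hy.2]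
              unfold br
              rw [Matrix.mul_zero, Matrix.zero_mul, sub_zero]
          · intro hJ
            apply hne
            have : y ∈ J := ⟨hy, hy0⟩
            rw [hJ] at this
            exact (Submodule.mem_bot ℂ).1 this
        exact h1.2
      have hj3 := (hm j).1
      obtain ⟨i0, i1, hi⟩ : ∃ i0 i1 : Fin (2 * p j + q j), i0 ≠ i1 :=
        ⟨⟨0, by omega⟩, ⟨1, by omega⟩, by simp [Fin.ext_iff]⟩
      obtain ⟨W, hW, hWj⟩ := A3 j (Matrix.single i0 i1 1 - Matrix.single i1 i0 1) (by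
          rw [Matrix.transpose_sub, Matrix.transpose_single, Matrix.transpose_single, neg_sub])
      have h2 := hθ W hW
      rw [hall _ (A1 W hW i), hWj] at h2
      have h3 := congrFun (congrFun h2 i0) i1
      simp [Matrix.single, hi, hi.symm] at h3
    have hiso : IsoSo θ := by
      refine ⟨?_, hinj, ?_, hbr⟩
      · intro y hy
        obtain ⟨Y, hY, rfl⟩ := A3 i y hy
        rw [hθ Y hY]
        exact A1 Y hY j
      · intro z hz
        obtain ⟨Y, hY, rfl⟩ := A3 j z hz
        exact ⟨Y i, A1 Y hY i, hθ Y hY⟩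
    have hgx : ∀ σ : ℂ ≃+* ℂ, T.x.map σ ∈ T.hT := fun σ => W131.PG.gal W101.PG.hk n T σ
    have hθx : ∀ σ : ℂ ≃+* ℂ, θ (g' i * (T.x.map σ).submatrix (e i) (e i) * g i) =
        g' j * (T.x.map σ).submatrix (e j) (e j) * g j := fun σ => hθ _ (mem _ (hgx σ))
    have hx : ∀ i, g' i * (T.x.map (RingEquiv.refl ℂ)).submatrix (e i) (e i) * g i =
        g' i * (T' i).x * g i := by
      intro i
      rw [(b i).x]
      have h2 : T.x.map (RingEquiv.refl ℂ) = T.x := by
        ext i j
        simp
      rw [h2]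
    have hcube : ∀ i, g' i * (T' i).x * g i * (g' i * (T' i).x * g i) * (g' i * (T' i).x * g i) =
        g' i * (T' i).x * g i := by
      intro i
      rw [cc_mul' (e2 i), cc_mul' (e2 i), (T' i).cube]
    obtain ⟨A, hA0, hA⟩ := htht (2 * p i + q i) (2 * p j + q j) (p i) (hm i).1 (hm j).1
      (hm i).2.2 θ hiso (g' i * (T' i).x * g i) (sk1 i _ (T' i).skew) (hcube i) (by
        rw [cc_mul' (e2 i), Matrix.mul_assoc, Matrix.trace_mul_comm, Matrix.mul_assoc, e2,
          Matrix.mul_one]
        exact (b i).trace hB) (by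
        rw [← hx i, hθx, hx j, hcube j])
    obtain ⟨C, hC⟩ : ∃ C, C = sel (e j) * g j * A * g' i * (sel (e i))ᵀ := ⟨_, rfl⟩
    have hcomm : ∀ σ : ℂ ≃+* ℂ, C * T.x.map σ = T.x.map σ * C := by
      intro σ
      have hbx : BD c (T.x.map σ) := hB.bx.map (map_zero _)
      have h1 := hA _ (sk1 i _ ((b i).skew hB ((mem_hT T _).1 (hgx σ)).1))
      rw [hθx σ] at h1
      have h2 : C * T.x.map σ = sel (e j) * g j *
          (A * (g' i * (T.x.map σ).submatrix (e i) (e i) * g i)) * g' i * (sel (e i))ᵀ := by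
        rw [hC, Matrix.mul_assoc, (b i).en.selT_mul hbx]
        calc sel (e j) * g j * A * g' i * ((T.x.map σ).submatrix (e i) (e i) * (sel (e i))ᵀ)
            = sel (e j) * g j * A * g' i * (T.x.map σ).submatrix (e i) (e i) * (g i * g' i) *
              (sel (e i))ᵀ := by
              rw [e2, Matrix.mul_one]; simp only [Matrix.mul_assoc]
          _ = _ := by simp only [Matrix.mul_assoc]
      have h3 : T.x.map σ * C = sel (e j) * g j *
          ((g' j * (T.x.map σ).submatrix (e j) (e j) * g j) * A) * g' i * (sel (e i))ᵀ := by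
        rw [hC]
        calc T.x.map σ * (sel (e j) * g j * A * g' i * (sel (e i))ᵀ)
            = (T.x.map σ * sel (e j)) * (g j * A * g' i * (sel (e i))ᵀ) := by
              simp only [Matrix.mul_assoc]
          _ = sel (e j) * (T.x.map σ).submatrix (e j) (e j) * (g j * A * g' i * (sel (e i))ᵀ) := by
              rw [(b j).en.mul_sel hbx]
          _ = sel (e j) * (g j * g' j) * (T.x.map σ).submatrix (e j) (e j) *
              (g j * A * g' i * (sel (e i))ᵀ) := by
              rw [e2, Matrix.mul_one]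
          _ = _ := by simp only [Matrix.mul_assoc]
      rw [h2, h3, h1]
    have hC1 : ∀ a a', a ≠ a' → C a a' = 0 := by
      have h1 := hde2 n T C hcomm
      intro a a' haa'
      have h2 : ∀ D ∈ Submodule.span ℂ
          {D | ∃ P : Matrix (Fin n) (Fin n) ℚ, D = mC P ∧ mC P * T.x = T.x * mC P},
          D a a' = 0 := by
        intro D hD
        induction hD using Submodule.span_induction with
        | mem D h =>
          obtain ⟨P, rfl, hP⟩ := h
          obtain ⟨d, hd⟩ := hB.endo P hP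
          rw [hd, mC, Matrix.map_apply, Matrix.diagonal_apply_ne _ haa']
          simp
        | zero => simp
        | add x y _ _ hx hy => rw [Matrix.add_apply, hx, hy, add_zero]
        | smul z x _ hx => rw [Matrix.smul_apply, hx, smul_zero]
      exact h2 C h1
    have hC2 : C = 0 := by
      ext a a'
      by_cases haa' : a = a'
      · subst haa'
        rw [hC, Matrix.zero_apply]
        by_cases hai : c a = i
        · have h1 : ∀ l, (sel (e j) * g j * A * g' i) a l = 0 := by
            intro l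
            rw [Matrix.mul_assoc, Matrix.mul_assoc, Matrix.mul_apply]
            refine Finset.sum_eq_zero fun l' _ => ?_
            have h2 : sel (e j) a l' = 0 := by
              rw [sel, Matrix.of_apply, if_neg]
              intro h
              apply hij
              rw [← hai, ← h, (b j).en.col]
            rw [h2, zero_mul]
          rw [Matrix.mul_apply]
          refine Finset.sum_eq_zero fun l _ => ?_
          rw [h1, zero_mul]
        · rw [Matrix.mul_apply]
          refine Finset.sum_eq_zero fun l _ => ?_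
          have h2 : (sel (e i))ᵀ l a = 0 := by
            rw [Matrix.transpose_apply, sel, Matrix.of_apply, if_neg]
            intro h
            apply hai
            rw [← h, (b i).en.col]
          rw [h2, mul_zero]
      · exact hC1 a a' haa'
    apply hA0
    have h4 : A = g' j * ((sel (e j))ᵀ * C * sel (e i)) * g i := by
      rw [hC]
      calc A = (g' j * g j) * A * (g' i * g i) := by rw [e1, e1, Matrix.one_mul, Matrix.mul_one]
        _ = g' j * (((sel (e j))ᵀ * sel (e j)) * g j * A * g' i * ((sel (e i))ᵀ * sel (e i))) *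
            g i := by
            rw [sel_T_sel _ (b j).en.inj, sel_T_sel _ (b i).en.inj, Matrix.one_mul,
              Matrix.mul_one]
            simp only [Matrix.mul_assoc]
        _ = _ := by simp only [Matrix.mul_assoc]
    rw [h4, hC2, Matrix.mul_zero, Matrix.zero_mul, Matrix.mul_zero, Matrix.zero_mul]
  have key := hgou hsim r (fun i => 2 * p i + q i) (fun i => ⟨(hm i).1, (hm i).2.1⟩) h A1 A2 A3 A4
    (phi e g g' Z) (fun i => sk1 i _ ((b i).skew hB hZ))
  rw [hh] at key
  obtain ⟨y, hy, hyZ⟩ := key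
  have hfin : y = Z := by
    refine ext_of_sub (fun i => (b i).en) (hbd y hy) hZc fun i => ?_
    have h1 := congrFun hyZ i
    change g' i * y.submatrix (e i) (e i) * g i = g' i * Z.submatrix (e i) (e i) * g i at h1
    rw [← cc_back (e2 i) (y.submatrix (e i) (e i)), h1, cc_back (e2 i)]
  rw [← hfin]
  exact hy

end

end Pool.Agent.W544.PG
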