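import Pool.Agent.W544.PG.Tate
import Pool.Agent.W378.TP.PRM
import Pool.Agent.W402.TP.CRD
import Pool.Agent.W460.TP.Blk
import Pool.Agent.W216.TP.DK
import Pool.Agent.W216.TP.HCX
import Pool.Agent.W125.TP.HCC
import Pool.Agent.W21.TP.HCK
import Pool.Agent.W723.TP.TBD
import Pool.Agent.W160.TP.TSL
import Pool.Agent.W240.TP.TAL

/-!
# Tate classes on products of surfaces and the Mumford-Tate conjecture
-/

open Matrix Finset Module

namespace Pool.Agent.W544.PG

noncomputable section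

variable {K : Type} [Field K] {Γ : Type} [Group Γ] [TopologicalSpace Γ] {n r s : ℕ}
  {T : GR K Γ n} {c : Fin n → Fin r} {p q : Fin r → ℕ}

theorem blkF : S_blk := W460.TP.blk (one W378.TP.prm W402.TP.crd)

theorem hckF : S_hck := W21.TP.hck W216.TP.mk (W125.TP.HCC.hcc W216.TP.dk W216.TP.hcx)

/-- The Lie algebra of the image of Galois is the sum of the `so(T_i)`. -/
theorem LC_iff (hT : T.Big c p q) (Z : Matrix (Fin n) (Fin n) ℂ) :
    Z ∈ T.LC ↔ Zᵀ * T.Q.map T.ι + T.Q.map T.ι * Z = 0 ∧ BD c Z := by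
  have hL := W723.TP.tbd K Γ n r T c hT.bQ hT.bρ hT.red.det
  constructor
  · intro hZ
    exact ⟨LC_skew (T := T) (fun y hy => (hL y hy).2) Z hZ,
      LC_bd (T := T) (fun y hy => (hL y hy).1) Z hZ⟩
  · rintro ⟨hZ, hZc⟩
    exact mainTate blkF W216.TP.dk W723.TP.tbd W723.TP.tcm hT Z hZ hZc

/-- a form killed by the Lie algebra is killed by its complexification -/
theorem act_LC {κ : Type} [Fintype κ] [DecidableEq κ] {m : ℕ}
    (f : Matrix (Fin n) (Fin n) ℂ →ₗ[ℂ] Matrix κ κ ℂ) (t : (Fin m → κ) → ℂ)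
    (h : ∀ y ∈ T.L, act (f (y.map T.ι)) t = 0) : ∀ y ∈ T.LC, act (f y) t = 0 := by
  intro y hy
  unfold GR.LC at hy
  induction hy using Submodule.span_induction with
  | mem y h' =>
    obtain ⟨z, hz, rfl⟩ := h'
    exact h z hz
  | zero => rw [map_zero]; funext J; simp [act]
  | add a b _ _ ha hb =>
    rw [map_add]
    funext J
    have h1 := congrFun ha J
    have h2 := congrFun hb J
    simp only [act, Matrix.add_apply, add_mul, Finset.sum_add_distrib, Pi.zero_apply] at h1 h2 ⊢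
    rw [h1, h2, add_zero]
  | smul z a _ ha =>
    rw [map_smul]
    funext J
    have h1 := congrFun ha J
    simp only [act, Matrix.smul_apply, smul_eq_mul, mul_assoc, ← Finset.mul_sum,
      Pi.zero_apply] at h1 ⊢
    rw [h1, mul_zero]

/-- the embedding of a matrix as a block -/
def blkR (s : ℕ) : Matrix (Fin n) (Fin n) ℂ →ₗ[ℂ] Matrix (Fin s ⊕ Fin n) (Fin s ⊕ Fin n) ℂ where
  toFun y := fromBlocks 0 0 0 y
  map_add' a b := by rw [Matrix.fromBlocks_add]; simp
  map_smul' z a := by rw [Matrix.fromBlocks_smul]; simp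

/-- **Tate classes on products of surfaces.** -/
theorem tateF (hT : T.Big c p q) {m : ℕ} (d : Fin s → Fin r) (a : Fin m → Fin r)
    (t : (Fin m → Fin s ⊕ Fin n) → K)
    (hta : ∀ J, t J ≠ 0 → ∀ j, Sum.elim d c (J j) = a j)
    (htr : ∀ J, t J ≠ 0 → ∀ i, (univ.filter fun j => ∃ b, J j = Sum.inr b ∧ c b = i).card <
      2 * p i + q i) : IsTate (T.ρS s) t ↔ t ∈ algK T.Q c d a := by
  constructor
  · intro ht
    obtain ⟨u, hub, huQ, -⟩ := id hT.red
    refine hckF K T.ι n r s m c d a T.Q u hT.bQ hub huQ t (fun Z hZ hZc => ?_) hta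
      (fun J hJ i => by rw [hT.rk i]; exact htr J hJ i)
    have h1 := (W160.TP.TSL.tsl K Γ n s m T t).1 ht
    have h2 := act_LC (T := T) (blkR s) (fun J => T.ι (t J)) (fun y hy => by
      have h3 := h1 y hy
      funext J
      have h4 := congrArg T.ι (congrFun h3 J)
      rw [Pi.zero_apply, map_zero] at h4
      rw [Pi.zero_apply, ← h4]
      unfold act actK
      rw [map_sum]
      refine Finset.sum_congr rfl fun j _ => ?_
      rw [map_sum]
      refine Finset.sum_congr rfl fun l _ => ?_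
      rw [map_mul]
      congr 1
      change (fromBlocks 0 0 0 (y.map T.ι) : Matrix (Fin s ⊕ Fin n) (Fin s ⊕ Fin n) ℂ) l (J j) = _
      rcases l with l | l <;> rcases J j with x | x <;> simp)
    exact h2 Z ((LC_iff hT Z).2 ⟨hZ, hZc⟩)
  · intro ht
    exact W240.TP.tal K Γ n r s m T c d a hT.bQ hT.bρ t ht

/-- **The Mumford-Tate conjecture.** -/
theorem mtF (hT : T.Big c p q) (B : HS n) (hB : B.Big c p q)
    (hQ : T.Q = B.Q.map fun z : ℚ => (z : K)) (Z : Matrix (Fin n) (Fin n) ℂ) :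
    Z ∈ T.LC ↔ Z ∈ B.hT := by
  have h1 : T.Q.map T.ι = mC B.Q := by
    rw [hQ]
    ext a b
    simp [mC]
  rw [LC_iff hT, h1]
  constructor
  · rintro ⟨h2, h3⟩
    exact mainPF hB Z h2 h3
  · intro h
    exact ⟨((mem_hT B Z).1 h).1, W138.PG.dia n r B c hB.bQ hB.bx Z h⟩

end

end Pool.Agent.W544.PG
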