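import Pool.Agent.W544.PG.Defs4

/-!
# The generalized Hodge conjecture for products of several surfaces (statements of the parts, V)
-/

open Matrix Finset Module

namespace Pool.Agent.W544.PG

noncomputable section

/-- The `j`-th variable of the form `s` lives in the block `a j`. -/
def Supp {n r k : ℕ} {R : Type} [Zero R] (c : Fin n → Fin r) (a : Fin k → Fin r)
    (s : (Fin k → Fin n) → R) : Prop := ∀ J, s J ≠ 0 → ∀ j, c (J j) = a j

/-- the number of slots of colour `i` -/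
def ns {r k : ℕ} (a : Fin k → Fin r) (i : Fin r) : ℕ := (univ.filter fun j => a j = i).card

/-- (G2P) -/
def S_g2p : Prop := ∀ (n r k : ℕ) (c : Fin n → Fin r) (a : Fin k → Fin r) (p : Fin r → ℕ)
  (X : Matrix (Fin n) (Fin n) ℂ), Xᵀ = -X → X * X * X = X → BD c X →
  (∀ i, ∑ b with c b = i, (X * X) b b = 2 * (p i : ℂ)) →
  (∀ i, ns a i ≤ p i ∧ 2 * ns a i < (univ.filter fun b => c b = i).card ∨ ns a i = 0) →
  ∀ M : Submodule ℂ ((Fin k → Fin n) → ℂ), (∀ s ∈ M, Supp c a s) →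
  (∀ Z : Matrix (Fin n) (Fin n) ℂ, Zᵀ = -Z → BD c Z → ∀ s ∈ M, act Z s ∈ M) →
  (∀ s ∈ M, Trl s) → M ≠ ⊥ → ∃ s ∈ M, s ≠ 0 ∧ act X s = (k : ℂ) • s

/-- forms (in orthonormal coordinates) in the span of products of at least `l` pairings of slots of
equal colour with arbitrary forms of the other variables -/
def insC2 {n r k : ℕ} (c : Fin n → Fin r) (a : Fin k → Fin r) (l : ℕ) :
    Submodule ℂ ((Fin k → Fin n) → ℂ) :=
  Submodule.span ℂ {s | ∃ (σ : Fin k → Fin k) (u : (Fin k → Fin n) → ℂ), (∀ j, σ (σ j) = j) ∧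
    (∀ j, a (σ j) = a j) ∧ 2 * l ≤ (univ.filter fun j => σ j ≠ j).card ∧
    (∀ J J', (∀ j, σ j = j → J j = J' j) → u J = u J') ∧
    ∀ J, s J = (∏ j with j < σ j, if J j = J (σ j) ∧ c (J j) = a j then 1 else 0) * u J}

/-- (G1P) -/
def S_g1p : Prop := ∀ (n r k l : ℕ) (c : Fin n → Fin r) (a : Fin k → Fin r) (p : Fin r → ℕ)
  (X : Matrix (Fin n) (Fin n) ℂ), Xᵀ = -X → X * X * X = X → BD c X →
  (∀ i, ∑ b with c b = i, (X * X) b b = 2 * (p i : ℂ)) →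
  (∀ i, ns a i ≤ p i ∧ 2 * ns a i < (univ.filter fun b => c b = i).card ∨ ns a i = 0) →
  ∀ M : Submodule ℂ ((Fin k → Fin n) → ℂ), (∀ s ∈ M, Supp c a s) →
  (∀ Z : Matrix (Fin n) (Fin n) ℂ, Zᵀ = -Z → BD c Z → ∀ s ∈ M, act Z s ∈ M) →
  (∀ e : ℤ, (k : ℤ) - 2 * l + 1 < |e| → ∀ s ∈ M, act X s = (e : ℂ) • s → s = 0) →
  M ≤ insC2 c a l

/-- the rational version of `insC2` -/
def HS.ins2 {n : ℕ} (T : HS n) {r k : ℕ} (c : Fin n → Fin r) (a : Fin k → Fin r) (l : ℕ) :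
    Submodule ℚ ((Fin k → Fin n) → ℚ) :=
  Submodule.span ℚ {s | ∃ (σ : Fin k → Fin k) (u : (Fin k → Fin n) → ℚ), (∀ j, σ (σ j) = j) ∧
    (∀ j, a (σ j) = a j) ∧ 2 * l ≤ (univ.filter fun j => σ j ≠ j).card ∧
    (∀ J J', (∀ j, σ j = j → J j = J' j) → u J = u J') ∧
    ∀ J, s J = (∏ j with j < σ j, if c (J j) = a j then T.Q (J j) (J (σ j)) else 0) * u J}

/-- (GQP) from orthonormal coordinates to `T` -/
def S_gqp : Prop := ∀ (n r k l : ℕ) (T : HS n) (c : Fin n → Fin r) (a : Fin k → Fin r)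
  (p q : Fin r → ℕ), BD c T.Q → BD c T.x →
  (∀ i, ∑ b with c b = i, (T.x * T.x) b b = 2 * (p i : ℂ)) →
  (∀ i, (univ.filter fun b => c b = i).card = 2 * p i + q i ∧ 0 < q i) →
  (∀ i, ns a i ≤ p i) →
  ∀ W : Submodule ℚ ((Fin k → Fin n) → ℚ), (∀ w ∈ W, Supp c a w) →
  (∀ Z : Matrix (Fin n) (Fin n) ℂ, Zᵀ * mC T.Q + mC T.Q * Z = 0 → BD c Z →
    ∀ w ∈ cspan W, act Z w ∈ cspan W) →
  (∀ e : ℤ, (k : ℤ) - 2 * l + 1 < |e| → ∀ w ∈ cspan W, act T.x w = (e : ℂ) • w → w = 0) →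
  W ≤ T.ins2 c a l

/-- The part of the cohomology of the product of the surfaces `S_(a 1), ..., S_(a m)` given by
products of: algebraic classes on the factors in `A` (of codimensions `e`), transcendental parts of
diagonals (codimension two) on pairs of equal factors, and an arbitrary class `u` on the other
factors; the total codimension of the algebraic part is at least `j`.  These classes are supported
in codimension `j`.  (`cd b` is the codimension of the `b`-th algebraic class, `d b` its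
surface.) -/
def HS.coniv2 {n : ℕ} (T : HS n) {r s m : ℕ} (c : Fin n → Fin r) (d : Fin s → Fin r)
    (cd : Fin s → ℕ) (a : Fin m → Fin r) (j : ℕ) :
    Submodule ℚ ((Fin m → Fin s ⊕ Fin n) → ℚ) :=
  Submodule.span ℚ {t | ∃ (A : Finset (Fin m)) (σ : Fin m → Fin m) (e : Fin m → ℕ)
    (ν : Fin m → Fin s → ℚ) (u : (Fin m → Fin s ⊕ Fin n) → ℚ), (∀ i, σ (σ i) = i) ∧
    (∀ i, a (σ i) = a i) ∧ (∀ i ∈ A, σ i = i) ∧ (∀ i b, ν i b ≠ 0 → cd b = e i ∧ d b = a i) ∧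
    (∀ J J', (∀ i, i ∉ A → σ i = i → J i = J' i) → u J = u J') ∧
    j ≤ ∑ i ∈ A, e i + (univ.filter fun i => σ i ≠ i).card ∧
    ∀ J, t J = (∏ i ∈ A, Sum.elim (ν i) (fun _ => 0) (J i)) *
      (∏ i with i < σ i,
        if Sum.elim d c (J i) = a i then Matrix.fromBlocks 0 0 0 T.Q (J i) (J (σ i)) else 0) *
      u J}

/-- (GHTP) from `T` to the total cohomology -/
def S_ghtp : Prop := ∀ (n r s m k j : ℕ) (T : HS n) (c : Fin n → Fin r) (d : Fin s → Fin r)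
  (cd : Fin s → ℕ) (a : Fin m → Fin r) (p : Fin r → ℕ),
  (∀ (k' l : ℕ) (a' : Fin k' → Fin r), (∀ i, ns a' i ≤ p i) →
    ∀ W : Submodule ℚ ((Fin k' → Fin n) → ℚ), (∀ w ∈ W, Supp c a' w) → T.IsSub W →
    (∀ e : ℤ, (k' : ℤ) - 2 * l + 1 < |e| → ∀ w ∈ cspan W, act T.x w = (e : ℂ) • w → w = 0) →
    W ≤ T.ins2 c a' l) →
  ∀ W : Submodule ℚ ((Fin m → Fin s ⊕ Fin n) → ℚ),
  (∀ w ∈ cspan W, act (T.xS s) w ∈ cspan W) →
  (∀ w ∈ W, ∀ J, w J ≠ 0 → (∀ i, Sum.elim d c (J i) = a i) ∧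
    ∑ i, Sum.elim cd (fun _ => 1) (J i) = k ∧
    ∀ i, (univ.filter fun j => ∃ b, J j = Sum.inr b ∧ c b = i).card ≤ p i) →
  (∀ e : ℤ, (k : ℤ) - j < |e| → ∀ w ∈ cspan W, act (T.xS s) w = (e : ℂ) • w → w = 0) →
  W ≤ T.coniv2 c d cd a j

end

end Pool.Agent.W544.PG
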