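import Pool.Agent.W544.PG.Final2
import Pool.Agent.W320.PG.G2P
import Pool.Agent.W108.PG.G1P
import Pool.Agent.W976.PG.Gqp
import Pool.Agent.W352.PG.GHTP
import Pool.Agent.W101.PG.G0P

/-!
# The generalized Hodge conjecture for products of surfaces (assembly)
-/

open Matrix Finset Module

namespace Pool.Agent.W544.PG

noncomputable section

variable {n r : ℕ} {T : HS n} {c : Fin n → Fin r} {p q : Fin r → ℕ}

theorem Big_q (hB : T.Big c p q) (i : Fin r) : 0 < q i := by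
  rcases hB.num i with h | ⟨h0, h⟩
  · exact h.2.1
  · by_contra hq
    have : q i = 0 := by omega
    rw [this, Nat.zero_sub, Nat.zero_mul] at h
    omega

/-- The generalized Hodge conjecture. -/
theorem ghcF (hB : T.Big c p q) {s m k j : ℕ} (d : Fin s → Fin r) (cd : Fin s → ℕ)
    (a : Fin m → Fin r) (W : Submodule ℚ ((Fin m → Fin s ⊕ Fin n) → ℚ))
    (hsub : ∀ w ∈ cspan W, act (T.xS s) w ∈ cspan W)
    (hdeg : ∀ w ∈ W, InDeg c d cd a k w)
    (hp : ∀ w ∈ W, ∀ J, w J ≠ 0 → ∀ i,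
      (univ.filter fun j => ∃ b, J j = Sum.inr b ∧ c b = i).card ≤ p i)
    (hlev : ∀ e : ℤ, (k : ℤ) - j < |e| →
      ∀ w ∈ cspan W, act (T.xS s) w = (e : ℂ) • w → w = 0) :
    W ≤ T.coniv2 c d cd a j := by
  refine W352.PG.Ghtp.ghtp n r s m k j T c d cd a p ?_ W hsub ?_ hlev
  · intro k' l a' ha' W' hW' hW'sub hW'lev
    refine W976.PG.gqp (W108.PG.g1p W320.PG.g2p) n r k' l T c a' p q hB.bQ hB.bx hB.tr
      (fun i => ⟨hB.rk i, Big_q hB i⟩) ha' W' hW' ?_ hW'lev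
    intro Z hZ hZc w hw
    exact W101.PG.g0p n k' T W' hW'sub Z (mainPF hB Z hZ hZc) w hw
  · intro w hw J hJ
    exact ⟨(hdeg w hw J hJ).1, (hdeg w hw J hJ).2, hp w hw J hJ⟩

end

end Pool.Agent.W544.PG
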