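import Pool.Agent.W544.PG.MainP3
import Pool.Agent.W918.PG.Ah2
import Pool.Agent.W409.PG.AHT
import Pool.Agent.W435.PG.SQR

/-!
# Absolute Hodge classes on products of surfaces (assembly)
-/

open Matrix Finset Module

namespace Pool.Agent.W544.PG

noncomputable section

variable {n r : ℕ} {T T' : HS n} {c : Fin n → Fin r} {p q : Fin r → ℕ}

theorem det_mC (M : Matrix (Fin n) (Fin n) ℚ) : (mC M).det = ((M.det : ℚ) : ℂ) :=
  (RingHom.map_det (Rat.castHom ℂ) M).symm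

theorem bl_mapR {R : Type} [Field R] (c : Fin n → Fin r) (i : Fin r) (f : R →+* ℂ)
    (A : Matrix (Fin n) (Fin n) R) : bl c i (A.map f) = (bl c i A).map f := by
  ext a b
  unfold bl
  simp only [Matrix.of_apply, Matrix.map_apply]
  split_ifs <;> simp

theorem bl_T (c : Fin n → Fin r) (i : Fin r) (A : Matrix (Fin n) (Fin n) ℂ) :
    bl c i Aᵀ = (bl c i A)ᵀ := by
  ext a b
  unfold bl
  simp only [Matrix.of_apply, Matrix.transpose_apply]
  by_cases ha : c a = i <;> by_cases hb : c b = i <;> by_cases hab : a = b <;>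
    simp [ha, hb, hab, eq_comm]

theorem bl_mC (c : Fin n → Fin r) (i : Fin r) (A : Matrix (Fin n) (Fin n) ℚ) :
    bl c i (mC A) = mC (bl c i A) := by
  ext a b
  unfold bl mC
  simp only [Matrix.of_apply, Matrix.map_apply]
  split_ifs <;> simp

theorem bl_det_ne (hb : BD c T.Q) (i : Fin r) : (bl c i T.Q).det ≠ 0 := by
  have h1 : (mC T.Q).det ≠ 0 := by
    rw [det_mC]
    exact_mod_cast W74.PG.det_ne T
  have hu : IsUnit (mC T.Q).det := isUnit_iff_ne_zero.2 h1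
  have h2 := W918.PG.bl_mul (BD.mC hb) (W918.PG.bd_inv (BD.mC hb) hu) i
  rw [Matrix.mul_nonsing_inv _ hu, W918.PG.bl_one] at h2
  have h3 := congrArg Matrix.det h2
  rw [Matrix.det_one, Matrix.det_mul, bl_mC, det_mC] at h3
  intro h
  rw [h] at h3
  simp at h3

/-- the square of the determinant of a block of an isometry -/
theorem det_sq (hb : BD c T.Q) (hb' : BD c T'.Q) (P : Matrix (Fin n) (Fin n) ℂ) (hP : BD c P)
    (hPQ : Pᵀ * mC T'.Q * P = mC T.Q) (i : Fin r) :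
    (bl c i P).det ^ 2 = (((bl c i T.Q).det / (bl c i T'.Q).det : ℚ) : ℂ) := by
  have h1 : (bl c i (Pᵀ * mC T'.Q * P)).det = (bl c i (mC T.Q)).det := by rw [hPQ]
  rw [W918.PG.bl_mul (W918.PG.bd_mul hP.transpose (BD.mC hb')) hP,
    W918.PG.bl_mul hP.transpose (BD.mC hb'), bl_T, Matrix.det_mul, Matrix.det_mul,
    Matrix.det_transpose, bl_mC, bl_mC, det_mC, det_mC] at h1
  have h2 : (((bl c i T'.Q).det : ℚ) : ℂ) ≠ 0 := by exact_mod_cast bl_det_ne hb' i
  rw [Rat.cast_div, eq_div_iff h2, ← h1]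
  ring

/-- one tensor power of `T`, complex coefficients -/
theorem ah_C (hso : S_so2) (hmain : ∀ Z : Matrix (Fin n) (Fin n) ℂ,
    Zᵀ * mC T.Q + mC T.Q * Z = 0 → BD c Z → Z ∈ T.hT) (hb : BD c T.Q) (hb' : BD c T'.Q)
    (hx' : BD c T'.x) (P : Matrix (Fin n) (Fin n) ℂ) (hP : BD c P)
    (hPQ : Pᵀ * mC T'.Q * P = mC T.Q) (hdet : ∀ i, ∃ e : ℚ, (bl c i P).det = (e : ℂ))
    (k : ℕ) (t : (Fin k → Fin n) → ℚ) (ht : T.IsHodge t) :
    ∃ t' : (Fin k → Fin n) → ℚ, T'.IsHodge t' ∧ pull P (cx t') = cx t := by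
  obtain ⟨t', h1, h2⟩ := W918.PG.ah2 hso n r k c T.Q T'.Q T.symm T'.symm hb hb'
    (W74.PG.det_ne T) (W74.PG.det_ne T') P hP hPQ hdet t
    (fun Z hZ hZc => ((mem_hT T Z).1 (hmain Z hZ hZc)).2 k t ht)
  exact ⟨t', (W101.PG.hk n k T' t').2 (h1 T'.x T'.skew hx'), h2⟩

/-- the comparison with coefficients in a field which embeds into the complex numbers -/
theorem ah_R (hso : S_so2) (hmain : ∀ Z : Matrix (Fin n) (Fin n) ℂ,
    Zᵀ * mC T.Q + mC T.Q * Z = 0 → BD c Z → Z ∈ T.hT) (hb : BD c T.Q) (hb' : BD c T'.Q)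
    (hx' : BD c T'.x) (e : Fin r → ℚ)
    (he : ∀ i, e i ^ 2 = (bl c i T.Q).det / (bl c i T'.Q).det)
    {R : Type} [Field R] [CharZero R] (f : R →+* ℂ)
    (P : Matrix (Fin n) (Fin n) R) (hP : BD c P)
    (hPQ : Pᵀ * T'.Q.map (fun z : ℚ => (z : R)) * P = T.Q.map (fun z : ℚ => (z : R)))
    (k : ℕ) (t : (Fin k → Fin n) → ℚ) (ht : T.IsHodge t) :
    ∃ t' : (Fin k → Fin n) → ℚ, T'.IsHodge t' ∧
      pull P (fun J => (t' J : R)) = fun J => (t J : R) := by
  have hQ : ∀ M : Matrix (Fin n) (Fin n) ℚ, (M.map (fun z : ℚ => (z : R))).map f = mC M := by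
    intro M
    ext a b
    simp [mC]
  have hPc : BD c (P.map f) := hP.map (map_zero f)
  have h1 : (P.map f)ᵀ * mC T'.Q * P.map f = mC T.Q := by
    have := congrArg (fun M : Matrix (Fin n) (Fin n) R => M.map f) hPQ
    simp only [Matrix.map_mul, hQ] at this
    exact this
  have hdet : ∀ i, ∃ z : ℚ, (bl c i (P.map f)).det = (z : ℂ) := by
    intro i
    have h2 := det_sq hb hb' (P.map f) hPc h1 i
    rw [← he i, Rat.cast_pow] at h2
    rcases sq_eq_sq_iff_eq_or_eq_neg.1 h2 with h | h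
    · exact ⟨e i, h⟩
    · exact ⟨-e i, by rw [h, Rat.cast_neg]⟩
  obtain ⟨t', h3, h4⟩ := ah_C hso hmain hb hb' hx' (P.map f) hPc h1 hdet k t ht
  refine ⟨t', h3, ?_⟩
  have h5 := W557.PG.pull_map f P (fun J => (t' J : R))
  funext J
  apply f.injective
  have h6 := congrFun h5 J
  rw [h6]
  have h7 : (fun J => f ((t' J : R))) = cx t' := by
    funext J
    simp [cx]
  rw [h7, h4]
  simp [cx]

/-- the determinants of the blocks of the comparison are rational up to sign -/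
theorem exists_e (hb : BD c T.Q) (hb' : BD c T'.Q)
    (E : ∀ (l : ℕ) [Fact l.Prime], Matrix (Fin n) (Fin n) ℚ_[l])
    (hE : ∀ (l : ℕ) [Fact l.Prime], BD c (E l))
    (hEQ : ∀ (l : ℕ) [Fact l.Prime], (E l)ᵀ * T'.Q.map (fun z : ℚ => (z : ℚ_[l])) * E l =
      T.Q.map (fun z : ℚ => (z : ℚ_[l]))) :
    ∃ e : Fin r → ℚ, ∀ i, e i ^ 2 = (bl c i T.Q).det / (bl c i T'.Q).det := by
  have h : ∀ i, ∃ e : ℚ, e ^ 2 = (bl c i T.Q).det / (bl c i T'.Q).det := by
    intro i
    apply W435.PG.sqr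
    intro l hl
    obtain ⟨f⟩ := W435.PG.emb l
    refine ⟨(bl c i (E l)).det, ?_⟩
    apply f.injective
    have hQ : ∀ M : Matrix (Fin n) (Fin n) ℚ, (M.map (fun z : ℚ => (z : ℚ_[l]))).map f = mC M := by
      intro M
      ext a b
      simp [mC]
    have h1 : ((E l).map f)ᵀ * mC T'.Q * (E l).map f = mC T.Q := by
      have := congrArg (fun M : Matrix (Fin n) (Fin n) ℚ_[l] => M.map f) (hEQ l)
      simp only [Matrix.map_mul, hQ] at this
      exact this
    have h2 := det_sq hb hb' ((E l).map f) ((hE l).map (map_zero f)) h1 i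
    rw [bl_mapR] at h2
    have h3 : ((bl c i (E l)).map f).det = f (bl c i (E l)).det :=
      (RingHom.map_det f (bl c i (E l))).symm
    rw [h3] at h2
    rw [map_pow, h2]
    simp
  choose e he using h
  exact ⟨e, he⟩

/-- A class `t` in the total cohomology of the `m`-fold products lies in
`H^(2k)(S_(a 1) x ... x S_(a m))`. -/
def InDeg {n r s m : ℕ} (c : Fin n → Fin r) (d : Fin s → Fin r) (cd : Fin s → ℕ)
    (a : Fin m → Fin r) (k : ℕ) (t : (Fin m → Fin s ⊕ Fin n) → ℚ) : Prop :=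
  ∀ J, t J ≠ 0 → (∀ j, Sum.elim d c (J j) = a j) ∧ ∑ j, Sum.elim cd (fun _ => 1) (J j) = k

/-- the degree and the surfaces are preserved by the comparison -/
theorem inDeg_of_pull {s m : ℕ} {R : Type} [Field R] [CharZero R]
    (d : Fin s → Fin r) (cd : Fin s → ℕ) (a : Fin m → Fin r) (k : ℕ)
    (P P' : Matrix (Fin n) (Fin n) R) (hP' : BD c P') (h1 : P * P' = 1)
    (t t' : (Fin m → Fin s ⊕ Fin n) → ℚ) (ht : InDeg c d cd a k t)
    (h : pull (fromBlocks 1 0 0 P) (fun J => (t' J : R)) = fun J => (t J : R)) :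
    InDeg c d cd a k t' := by
  have h2 : (fun J => (t' J : R)) = pull (fromBlocks 1 0 0 P') (fun J => (t J : R)) := by
    rw [← h, ← W557.PG.pull_mul, Matrix.fromBlocks_multiply]
    simp only [Matrix.mul_zero, Matrix.zero_mul, Matrix.mul_one, add_zero, zero_add, h1,
      Matrix.fromBlocks_one, W557.PG.pull_one]
  intro J hJ
  have h3 : pull (fromBlocks 1 0 0 P') (fun J => (t J : R)) J ≠ 0 := by
    rw [← h2]
    change (t' J : R) ≠ 0
    exact_mod_cast hJ
  unfold pull at h3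
  obtain ⟨K, _, hK⟩ := Finset.exists_ne_zero_of_sum_ne_zero h3
  have hK1 : t K ≠ 0 := by
    intro h0
    apply hK
    simp [h0]
  have hK2 : ∀ j, fromBlocks (1 : Matrix (Fin s) (Fin s) R) 0 0 P' (K j) (J j) ≠ 0 := by
    intro j h0
    apply hK
    rw [Finset.prod_eq_zero (Finset.mem_univ j) h0, zero_mul]
  have hK3 : ∀ j, Sum.elim d c (K j) = Sum.elim d c (J j) ∧
      Sum.elim cd (fun _ => 1) (K j) = Sum.elim cd (fun _ => 1) (J j) := by
    intro j
    have := hK2 j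
    rcases hk : K j with x | x <;> rcases hj : J j with y | y <;> rw [hk, hj] at this
    · rw [Matrix.fromBlocks_apply₁₁, Matrix.one_apply] at this
      have hxy : x = y := by
        by_contra hxy
        rw [if_neg hxy] at this
        exact this rfl
      rw [hxy]
      exact ⟨rfl, rfl⟩
    · rw [Matrix.fromBlocks_apply₁₂] at this
      exact absurd rfl this
    · rw [Matrix.fromBlocks_apply₂₁] at this
      exact absurd rfl this
    · rw [Matrix.fromBlocks_apply₂₂] at this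
      refine ⟨?_, rfl⟩
      by_contra hxy
      exact this (hP' x y hxy)
  obtain ⟨h4, h5⟩ := ht K hK1
  refine ⟨fun j => by rw [← (hK3 j).1]; exact h4 j, ?_⟩
  rw [← h5]
  exact Finset.sum_congr rfl fun j _ => (hK3 j).2.symm

/-- the inverse of the comparison is block-diagonal -/
theorem exists_inv {R : Type} [Field R] [CharZero R] (hb : BD c T.Q)
    (hb' : BD c T'.Q) (P : Matrix (Fin n) (Fin n) R) (hP : BD c P)
    (hPQ : Pᵀ * T'.Q.map (fun z : ℚ => (z : R)) * P = T.Q.map (fun z : ℚ => (z : R))) :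
    ∃ P' : Matrix (Fin n) (Fin n) R, BD c P' ∧ P * P' = 1 := by
  have hu : IsUnit T.Q.det := isUnit_iff_ne_zero.2 (W74.PG.det_ne T)
  have hQi : T.Q⁻¹ * T.Q = 1 := Matrix.nonsing_inv_mul _ hu
  have hQb : BD c T.Q⁻¹ := by
    have h1 : BD c (mC T.Q)⁻¹ := W918.PG.bd_inv (BD.mC hb) (by
      rw [det_mC]
      exact isUnit_iff_ne_zero.2 (by exact_mod_cast W74.PG.det_ne T))
    have h2 : (mC T.Q)⁻¹ = mC T.Q⁻¹ := by
      apply Matrix.inv_eq_left_inv
      have h3 : mC T.Q⁻¹ * mC T.Q = mC (T.Q⁻¹ * T.Q) := by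
        ext a b
        simp [mC, Matrix.mul_apply]
      rw [h3, hQi]
      ext a b
      by_cases hab : a = b <;> simp [mC, Matrix.one_apply, hab]
    intro a b hab
    have h4 := h1 a b hab
    rw [h2] at h4
    simpa [mC] using h4
  have hmul : ∀ A B : Matrix (Fin n) (Fin n) R, BD c A → BD c B → BD c (A * B) := by
    intro A B hA hB a b h
    rw [Matrix.mul_apply]
    refine Finset.sum_eq_zero fun l _ => ?_
    by_cases hl : c a = c l
    · rw [hB l b (by rw [← hl]; exact h), mul_zero]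
    · rw [hA a l hl, zero_mul]
  refine ⟨T.Q⁻¹.map (fun z : ℚ => (z : R)) * (Pᵀ * T'.Q.map (fun z : ℚ => (z : R))), ?_, ?_⟩
  · exact hmul _ _ (hQb.map (by simp)) (hmul _ _ hP.transpose (hb'.map (by simp)))
  · rw [mul_eq_one_comm, Matrix.mul_assoc, hPQ]
    ext a b
    have h5 := congrFun (congrFun hQi a) b
    rw [Matrix.mul_apply] at h5 ⊢
    simp only [Matrix.map_apply]
    have h6 := congrArg (fun z : ℚ => (z : R)) h5
    simp only [Rat.cast_sum, Rat.cast_mul] at h6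
    rw [h6]
    by_cases hab : a = b <;> simp [Matrix.one_apply, hab]

/-- **Absolute Hodge classes.** -/
theorem ah_main (hso : S_so2) (hmain : ∀ Z : Matrix (Fin n) (Fin n) ℂ,
    Zᵀ * mC T.Q + mC T.Q * Z = 0 → BD c Z → Z ∈ T.hT) (hb : BD c T.Q) (hb' : BD c T'.Q)
    (hx' : BD c T'.x)
    (σ : ℂ ≃+* ℂ) (D : Matrix (Fin n) (Fin n) ℂ) (hD : BD c D)
    (hDQ : Dᵀ * mC T'.Q * D = mC T.Q)
    (E : ∀ (l : ℕ) [Fact l.Prime], Matrix (Fin n) (Fin n) ℚ_[l])
    (hE : ∀ (l : ℕ) [Fact l.Prime], BD c (E l))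
    (hEQ : ∀ (l : ℕ) [Fact l.Prime], (E l)ᵀ * T'.Q.map (fun z : ℚ => (z : ℚ_[l])) * E l =
      T.Q.map (fun z : ℚ => (z : ℚ_[l])))
    {s m k : ℕ} (d : Fin s → Fin r) (cd : Fin s → ℕ) (a : Fin m → Fin r)
    (t : (Fin m → Fin s ⊕ Fin n) → ℚ) (ht : T.IsHodgeS t) (htd : InDeg c d cd a k t) :
    (∃ t' : (Fin m → Fin s ⊕ Fin n) → ℚ, T'.IsHodgeS t' ∧ InDeg c d cd a k t' ∧
      ∀ v : Fin m → Fin s ⊕ Fin n → ℂ,
        evG t' (fun j => fromBlocks 1 0 0 D *ᵥ (σ ∘ v j)) = σ (evG t v)) ∧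
    ∀ (l : ℕ) [Fact l.Prime], ∃ t' : (Fin m → Fin s ⊕ Fin n) → ℚ, T'.IsHodgeS t' ∧
      InDeg c d cd a k t' ∧
      pull (fromBlocks 1 0 0 (E l)) (fun J => (t' J : ℚ_[l])) = fun J => (t J : ℚ_[l]) := by
  obtain ⟨e, he⟩ := exists_e (T := T) (T' := T') hb hb' E hE hEQ
  constructor
  · obtain ⟨t', h1, h2⟩ := W409.PG.aht n s m T T' ℂ D (fun k t ht =>
      ah_R hso hmain hb hb' hx' e he (RingHom.id ℂ) D hD hDQ k t ht) t ht
    obtain ⟨P', hP', hPP⟩ := exists_inv (T := T) (T' := T') hb hb' D hD hDQ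
    refine ⟨t', h1, inDeg_of_pull d cd a k D P' hP' hPP t t' htd h2, fun v => ?_⟩
    -- evaluation
    have h3 : ∀ J, pull (fromBlocks 1 0 0 D) (fun J => (t' J : ℂ)) J = (t J : ℂ) :=
      fun J => congrFun h2 J
    unfold evG
    rw [map_sum]
    have h4 : ∀ J : Fin m → Fin s ⊕ Fin n, σ ((t J : ℂ) * ∏ j, v j (J j)) =
        ∑ K : Fin m → Fin s ⊕ Fin n, (t' K : ℂ) *
          ∏ j, (fromBlocks (1 : Matrix (Fin s) (Fin s) ℂ) 0 0 D (K j) (J j) * σ (v j (J j))) := by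
      intro J
      rw [map_mul, map_ratCast, ← h3 J, pull, Finset.sum_mul, map_prod]
      refine Finset.sum_congr rfl fun K _ => ?_
      rw [Finset.prod_mul_distrib]
      ring
    rw [Finset.sum_congr rfl fun J _ => h4 J, Finset.sum_comm]
    refine Finset.sum_congr rfl fun K _ => ?_
    rw [← Finset.mul_sum]
    congr 1
    simp only [Matrix.mulVec, dotProduct, Function.comp]
    rw [Finset.prod_univ_sum]
    refine Finset.sum_bij' (fun J _ => J) (fun J _ => J) ?_ ?_ ?_ ?_ ?_ <;> simp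
  · intro l hl
    obtain ⟨f⟩ := W435.PG.emb l
    obtain ⟨t', h1, h2⟩ := W409.PG.aht n s m T T' ℚ_[l] (E l) (fun k t ht =>
      ah_R hso hmain hb hb' hx' e he f (E l) (hE l) (hEQ l) k t ht) t ht
    obtain ⟨P', hP', hPP⟩ := exists_inv (T := T) (T' := T') hb hb' (E l) (hE l) (hEQ l)
    exact ⟨t', h1, inDeg_of_pull d cd a k (E l) P' hP' hPP t t' htd h2, h2⟩

end

end Pool.Agent.W544.PG
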