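import Pool.Agent.W544.PG.Final2

/-!
# The comparison data of the absolute Hodge conjecture
-/

open Matrix Finset Module

namespace Pool.Agent.W544.PG

noncomputable section

/-- The comparison data between the transcendental cohomology `T = ⊕ T_i` of surfaces `S_i` and
the transcendental cohomology `T'` of their conjugates under `σ`, in rational bases adapted to
the decompositions (`c` says to which surface a basis vector belongs): `D` is the matrix of the
`σ`-semilinear de Rham comparison and `E l` the matrix of the `l`-adic one; both respect the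
surfaces and the intersection forms. -/
structure Comparison {n r : ℕ} (T T' : HS n) (c : Fin n → Fin r) where
  bQ : BD c T'.Q
  bx : BD c T'.x
  /-- the de Rham comparison -/
  D : Matrix (Fin n) (Fin n) ℂ
  bD : BD c D
  isoD : Dᵀ * mC T'.Q * D = mC T.Q
  /-- the `l`-adic comparisons -/
  E : ∀ (l : ℕ) [Fact l.Prime], Matrix (Fin n) (Fin n) ℚ_[l]
  bE : ∀ (l : ℕ) [Fact l.Prime], BD c (E l)
  isoE : ∀ (l : ℕ) [Fact l.Prime], (E l)ᵀ * T'.Q.map (fun z : ℚ => (z : ℚ_[l])) * E l =
    T.Q.map (fun z : ℚ => (z : ℚ_[l]))

end

end Pool.Agent.W544.PG
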