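import Pool.Agent.W544.PG.Defs

/-!
# The main theorem on Lie algebras (assembly)
-/

open Matrix Finset Module

namespace Pool.Agent.W544.PG

theorem num (p q d0 a b κ : ℕ) (hth : 2 * p ^ 2 * (p ^ 2 + 1) < (q - 2 * p) * (q + p))
    (hcas : q * (d0 + 2 * a + 2 * b) + (2 * p + q) ≤ (2 * p + q) * (d0 + a))
    (hd : d0 ≤ p ^ 2 + κ) (hq : q ≤ p * a) : 4 ≤ κ := by
  by_contra hκ
  have hκ' : κ ≤ 3 := by omega
  have hlt : 2 * p < q := by
    by_contra h
    rw [Nat.sub_eq_zero_of_le (not_lt.1 h), zero_mul] at hth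
    omega
  obtain ⟨r, rfl⟩ := Nat.exists_eq_add_of_lt hlt
  have hs : 2 * p + r + 1 - 2 * p = r + 1 := by omega
  rw [hs] at hth
  have h1 : (r + 1) * a + (2 * p + (2 * p + r + 1)) ≤ 2 * p * d0 := by nlinarith
  have h2 : 2 * p * d0 ≤ 2 * p * (p ^ 2 + 3) := by
    apply Nat.mul_le_mul_left
    omega
  have h3 : (r + 1) * (2 * p + r + 1) ≤ (r + 1) * (p * a) := Nat.mul_le_mul_left _ hq
  nlinarith

theorem B0_sq (p q : ℕ) : B0 p q * B0 p q = 1 := by
  unfold B0
  ext i j
  rcases i with i | i | i <;> rcases j with j | j | j <;>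
    simp [Matrix.mul_apply, Fintype.sum_sum_type, fromBlocks, fromCols, fromRows,
      Matrix.one_apply]

theorem B0_T (p q : ℕ) : (B0 p q)ᵀ = B0 p q := by
  unfold B0
  ext i j
  rcases i with i | i | i <;> rcases j with j | j | j <;>
    simp [fromBlocks, fromCols, fromRows, Matrix.one_apply, eq_comm]

theorem B0_H (p q : ℕ) : (B0 p q)ᴴ = B0 p q := by
  unfold B0
  ext i j
  rcases i with i | i | i <;> rcases j with j | j | j <;>
    simp [fromBlocks, fromCols, fromRows, Matrix.one_apply, eq_comm] <;>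
    split_ifs <;> simp_all

theorem x0_eq (p q : ℕ) : x0 p q = Matrix.diagonal
    (Sum.elim (fun _ => (1 : ℂ)) (Sum.elim (fun _ => 0) (fun _ => -1))) := by
  unfold x0 big0
  ext i j
  rcases i with i | i | i <;> rcases j with j | j | j <;>
    simp [fromBlocks, Matrix.one_apply, Matrix.diagonal_apply, eq_comm] <;>
    split_ifs <;> simp_all

theorem x0_cube (p q : ℕ) : x0 p q * x0 p q * x0 p q = x0 p q := by
  rw [x0_eq, Matrix.diagonal_mul_diagonal, Matrix.diagonal_mul_diagonal]
  congr 1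
  funext i
  rcases i with i | i | i <;> simp

theorem x0_tr (p q : ℕ) : (x0 p q * x0 p q).trace = 2 * p := by
  rw [x0_eq, Matrix.diagonal_mul_diagonal, Matrix.trace_diagonal, Fintype.sum_sum_type,
    Fintype.sum_sum_type]
  simp
  ring

theorem x0_skew (p q : ℕ) : (x0 p q)ᵀ * B0 p q + B0 p q * x0 p q = 0 := by
  rw [x0_eq, Matrix.diagonal_transpose]
  ext i j
  rw [Matrix.add_apply, Matrix.diagonal_mul, Matrix.mul_diagonal]
  rcases i with i | i | i <;> rcases j with j | j | j <;>
    simp [B0, fromBlocks, fromCols, fromRows]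

theorem skew_conj {p q : ℕ} {y : Matrix (I p q) (I p q) ℂ}
    (h : yᵀ * B0 p q + B0 p q * y = 0) : B0 p q * yᵀ * B0 p q = -y := by
  have h1 : yᵀ * B0 p q = -(B0 p q * y) := eq_neg_of_add_eq_zero_left h
  rw [mul_assoc, h1, mul_neg, ← mul_assoc, B0_sq, one_mul]

theorem com_span {ι : Type} [Fintype ι] [DecidableEq ι] {S : Set (Matrix ι ι ℂ)}
    {C : Matrix ι ι ℂ} (hC : C ∈ com S) {y : Matrix ι ι ℂ} (hy : y ∈ Submodule.span ℂ S) :
    C * y = y * C := by
  induction hy using Submodule.span_induction with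
  | mem y h => exact hC y h
  | zero => simp
  | add a b _ _ ha hb => rw [mul_add, add_mul, ha, hb]
  | smul c a _ ha => rw [mul_smul_comm, smul_mul_assoc, ha]

theorem core (hexp : S_exp) (hdc : S_dc) (hspan : S_span) (hsimp : S_simp) (hirr : S_irr)
    (hcas : S_cas) (hdim : S_dim) (hadj : S_adj) (hcen1 : S_cen1)
    (hcen2 : S_cen1 → S_span → S_cen2) (hlg : S_exp → S_dc → S_span → S_simp → S_lg)
    (hcom1 : S_com1) (hnor : S_nor) (hder : S_exp → S_dc → S_span → S_der) (hext : S_ext)
    (htop : S_top) (hfin : S_fin) (hgrd : S_grd) : S_core := by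
  intro p q h hp hcond hskew hstar hlie hx0 hcom Z hZ
  obtain ⟨G, hG⟩ := hgrd p q h hskew hstar hlie hx0
  have hIrr : G.Irr := by
    intro C hC
    refine hcom C fun y hy _ _ => ?_
    rw [← hG] at hy
    exact com_span hC hy
  obtain ⟨hA, hB⟩ := hirr p q G hp hIrr
  have hkey : G.h1 = ⊤ := by
    rcases hcond with h1 | hth
    · exact htop p q G hp hA hB (Or.inl h1)
    · have hlt : 2 * p < q := by
        by_contra h
        rw [Nat.sub_eq_zero_of_le (not_lt.1 h), zero_mul] at hth
        omega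
      have hq : 0 < q := by omega
      have hd := hdim p q G hB
      have hk : 4 ≤ finrank ℂ G.kk :=
        num p q _ _ _ _ hth (hcas p q G hp hIrr) hd.1 hd.2
      obtain ⟨A, hAdm⟩ := hadj p q G
      have hF := hcen2 hcen1 hspan p q G A hAdm hA hB (by omega)
      have hN := hlg hexp hdc hspan hsimp p q G A hAdm hF hk
      obtain ⟨n1, n2, n3, n4⟩ := hnor p q G hIrr
      have hcard : Fintype.card (I p q) = 2 * p + q := by
        simp [I]
        ring
      have hsq : p ^ 2 < q := by
        obtain ⟨r, rfl⟩ := Nat.exists_eq_add_of_lt hlt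
        have hs : 2 * p + r + 1 - 2 * p = r + 1 := by omega
        rw [hs] at hth
        by_contra hcon
        have h5 : 2 * p + r + 1 ≤ p ^ 2 := not_lt.1 hcon
        nlinarith
      have hS : ∀ s ∈ com G.ops1, ∃ c : ℂ, s = c • (1 : Matrix (I p q) (I p q) ℂ) := by
        intro s hs
        refine hcom s fun y hy hy3 htr => ?_
        have hy' : y ∈ G.alg := by rw [hG]; exact hy
        have h6 := hder hexp hdc hspan (I p q) (com G.ops1) (B0 p q) (x0 p q) y p n1 n2
          (B0_sq p q) (B0_T p q) (B0_H p q) n4 hp (by rw [hcard]; omega) (by rw [hcard]; omega)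
          (x0_cube p q) hy3 (x0_tr p q) htr (skew_conj (x0_skew p q)) (skew_conj (hskew y hy))
          (fun s hs => (hcom1 p q G hp hq hA hB s hs).symm) (n3 y hy')
        exact (h6 s hs).symm
      have hcA : ∀ c ∈ com (A : Set (Matrix (Fin q) (Fin q) ℂ)),
          ∃ z : ℂ, c = z • (1 : Matrix (Fin q) (Fin q) ℂ) := by
        intro c hc
        obtain ⟨c₁, c₂, hcc⟩ := hext p q G A hp hq hAdm hA hB hN c hc
        obtain ⟨z, hz⟩ := hS _ hcc
        refine ⟨z, ?_⟩
        ext i j
        have h7 := congrFun (congrFun hz (Sum.inr (Sum.inl i))) (Sum.inr (Sum.inl j))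
        simpa [Matrix.one_apply] using h7
      refine htop p q G hp hA hB (Or.inr ⟨hq, fun F hF a => hAdm.mod F hF a ?_⟩)
      refine hdc (Fin q) A hAdm.star a ?_
      intro c hc
      obtain ⟨z, rfl⟩ := hcA c hc
      simp
  rw [← hG]
  refine hfin p q G hp ?_ hkey Z hZ
  rcases hcond with h1 | hth
  · exact Or.inr h1
  · left
    by_contra h0
    have : q = 0 := by omega
    subst this
    simp at hth

end Pool.Agent.W544.PG
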