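import Pool.Agent.W544.PG.Final
import Pool.Agent.W544.PG.Defs8

/-!
# The theorem on Lie algebras under a weaker hypothesis on the commutant
-/

open Matrix Finset Module

namespace Pool.Agent.W544.PG

theorem x0_H (p q : ℕ) : (x0 p q)ᴴ = x0 p q := by
  rw [x0_eq, Matrix.diagonal_conjTranspose]
  congr 1
  funext i
  rcases i with i | i | i <;> simp

theorem x0_trace (p q : ℕ) : (x0 p q).trace = 0 := by
  rw [x0_eq, Matrix.trace_diagonal, Fintype.sum_sum_type, Fintype.sum_sum_type]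
  simp

/-- (CORE2) only the commutant of the whole Lie algebra is assumed to be trivial. -/
theorem core2 (hprm : S_prm) (p q : ℕ) (h : Submodule ℂ (Matrix (I p q) (I p q) ℂ))
    (hp : 0 < p) (hcond : p = 1 ∨ 2 * p ^ 2 * (p ^ 2 + 1) < (q - 2 * p) * (q + p))
    (hcop : Nat.Coprime p q)
    (hskew : ∀ X ∈ h, Xᵀ * B0 p q + B0 p q * X = 0) (hstar : ∀ X ∈ h, Xᴴ ∈ h)
    (hlie : ∀ X ∈ h, ∀ Y ∈ h, X * Y - Y * X ∈ h) (hx0 : x0 p q ∈ h)
    (hcom : ∀ C, (∀ y ∈ h, C * y = y * C) → ∃ c : ℂ, C = c • (1 : Matrix (I p q) (I p q) ℂ))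
    (Z : Matrix (I p q) (I p q) ℂ) (hZ : Zᵀ * B0 p q + B0 p q * Z = 0) : Z ∈ h := by
  obtain ⟨G, hG⟩ := W216.PG.GRD.grd p q h hskew hstar hlie hx0
  have hIrr : G.Irr := by
    intro C hC
    refine hcom C fun y hy => ?_
    rw [← hG] at hy
    exact com_span hC hy
  obtain ⟨hA, hB⟩ := W216.PG.irr p q G hp hIrr
  have hkey : G.h1 = ⊤ := by
    rcases hcond with h1 | hth
    · exact W85.PG.top p q G hp hA hB (Or.inl h1)
    · have hlt : 2 * p < q := by
        by_contra h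
        rw [Nat.sub_eq_zero_of_le (not_lt.1 h), zero_mul] at hth
        omega
      have hq : 0 < q := by omega
      have hd := W417.PG.dim p q G hB
      have hk : 4 ≤ finrank ℂ G.kk :=
        num p q _ _ _ _ hth (W308.PG.cas p q G hp hIrr) hd.1 hd.2
      obtain ⟨A, hAdm⟩ := W116.PG.adj p q G
      have hF := W338.PG.cen2 W368.PG.span p q G A hAdm hA hB (by omega)
      have hN := W507.PG.lg W202.PG.exp (W409.PG.dc W202.PG.exp) W368.PG.span
        (W101.PG.simp W202.PG.exp) p q G A hAdm hF hk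
      obtain ⟨n1, n2, n3, n4⟩ := W417.PG.nor p q G hIrr
      have hcard : Fintype.card (I p q) = 2 * p + q := by
        simp [I]
        ring
      have hS : ∀ s ∈ com G.ops1, ∃ c : ℂ, s = c • (1 : Matrix (I p q) (I p q) ℂ) :=
        hprm (I p q) (com G.ops1) (x0 p q) p q n1 n2 hcop (x0_cube p q) (x0_H p q)
          (x0_trace p q) (x0_tr p q) hcard
          (fun s hs => (W82.PG.com1 p q G hp hq hA hB s hs).symm)
      have hcA : ∀ c ∈ com (A : Set (Matrix (Fin q) (Fin q) ℂ)),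
          ∃ z : ℂ, c = z • (1 : Matrix (Fin q) (Fin q) ℂ) := by
        intro c hc
        obtain ⟨c₁, c₂, hcc⟩ := W570.PG.ext p q G A hp hq hAdm hA hB hN c hc
        obtain ⟨z, hz⟩ := hS _ hcc
        refine ⟨z, ?_⟩
        ext i j
        have h7 := congrFun (congrFun hz (Sum.inr (Sum.inl i))) (Sum.inr (Sum.inl j))
        simpa [Matrix.one_apply] using h7
      refine W85.PG.top p q G hp hA hB (Or.inr ⟨hq, fun F hF a => hAdm.mod F hF a ?_⟩)
      refine W409.PG.dc W202.PG.exp (Fin q) A hAdm.star a ?_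
      intro c hc
      obtain ⟨z, rfl⟩ := hcA c hc
      simp
  rw [← hG]
  refine W85.PG.fin p q G hp ?_ hkey Z hZ
  rcases hcond with h1 | hth
  · exact Or.inr h1
  · left
    by_contra h0
    have : q = 0 := by omega
    subst this
    simp at hth

/-- (ONE) -/
theorem one (hprm : S_prm) (hcrd : S_crd) : S_one := by
  intro n p q h x hp hcond hcop hn hsk hst hli hx hxH hx3 htr hcom Z hZ
  have hxT : xᵀ = -x := hsk x hx
  obtain ⟨g, g1, g2, g3, g4⟩ := hcrd n p q x hxT hxH hx3 htr hn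
  have mem : ∀ y : Matrix (I p q) (I p q) ℂ, y ∈ h.comap (cL g gᴴ) ↔ g * y * gᴴ ∈ h :=
    fun y => Iff.rfl
  have g1' : gᵀ * (1 : Matrix (Fin n) (Fin n) ℂ) * g = B0 p q := by rw [Matrix.mul_one, g1]
  have hskew : ∀ X ∈ h.comap (cL g gᴴ), Xᵀ * B0 p q + B0 p q * X = 0 := by
    intro y hy
    rw [mem] at hy
    rw [← g1']
    refine cc_skew' g2 g3 _ y ?_
    rw [hsk _ hy, Matrix.mul_one, Matrix.one_mul, neg_add_cancel]
  have hstar : ∀ X ∈ h.comap (cL g gᴴ), Xᴴ ∈ h.comap (cL g gᴴ) := by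
    intro y hy
    rw [mem] at hy ⊢
    have h1 := hst _ hy
    rw [Matrix.conjTranspose_mul, Matrix.conjTranspose_mul, Matrix.conjTranspose_conjTranspose,
      ← Matrix.mul_assoc] at h1
    exact h1
  have hlie : ∀ X ∈ h.comap (cL g gᴴ), ∀ Y ∈ h.comap (cL g gᴴ),
      X * Y - Y * X ∈ h.comap (cL g gᴴ) := by
    intro a ha b hb
    rw [mem] at ha hb ⊢
    have h1 := hli _ ha _ hb
    rw [cc_mul g2, cc_mul g2] at h1
    rw [Matrix.mul_sub, Matrix.sub_mul]
    exact h1
  have hx0 : x0 p q ∈ h.comap (cL g gᴴ) := by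
    rw [mem, ← g4, Matrix.mul_assoc, g3, Matrix.mul_one]
    exact hx
  have hcom' : ∀ C, (∀ y ∈ h.comap (cL g gᴴ), C * y = y * C) →
      ∃ c : ℂ, C = c • (1 : Matrix (I p q) (I p q) ℂ) := by
    intro C hC
    obtain ⟨z, hz⟩ := hcom (g * C * gᴴ) fun y hy => by
      apply comm_coord g3
      apply hC
      rw [mem, cc_back g3]
      exact hy
    refine ⟨z, ?_⟩
    rw [← cc_fwd g2 C, hz, Matrix.mul_smul, Matrix.smul_mul, Matrix.mul_one, g2]
  have key := core2 hprm p q (h.comap (cL g gᴴ)) hp hcond hcop hskew hstar hlie hx0 hcom'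
    (gᴴ * Z * g) (by
      rw [← g1']
      refine cc_skew g3 _ Z ?_
      rw [hZ, Matrix.mul_one, Matrix.one_mul, neg_add_cancel])
  rw [mem, cc_back g3] at key
  exact key

end Pool.Agent.W544.PG
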