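import Pool.Agent.W544.PG.Defs4

/-!
# Products of surfaces with an abelian variety (definitions and statements of the parts, VI)
-/

open Matrix Finset Module

namespace Pool.Agent.W544.PG

noncomputable section

/-- A polarised rational Hodge structure of level one on `ℚ^w` (`H^1` of an abelian variety),
twisted to weight zero: the Riemann form `E` and the Hodge operator `y`, which is `1/2`, `-1/2` on
the two pieces. -/
structure HW (w : ℕ) where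
  /-- the polarisation (up to sign) -/
  E : Matrix (Fin w) (Fin w) ℚ
  alt : Eᵀ = -E
  /-- the Hodge operator -/
  y : Matrix (Fin w) (Fin w) ℂ
  sq : (4 : ℂ) • (y * y) = 1
  real : y.map (starRingEnd ℂ) = -y
  skew : yᵀ * mC E + mC E * y = 0
  pos : ∀ v : Fin w → ℂ, v ≠ 0 →
    0 < (star v ⬝ᵥ ((mC E * ((2 * Complex.I) • y)) *ᵥ v)).re

/-- A rational `l`-linear form on `H^1` of the abelian variety is a Hodge class. -/
def HW.IsHodge {w l : ℕ} (W : HW w) (β : (Fin l → Fin w) → ℚ) : Prop :=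
  ∀ (v : Fin l → Fin w → ℂ) (b : Fin l → ℤ), (∀ i, (2 : ℂ) • (W.y *ᵥ v i) = (b i : ℂ) • v i) →
    ∑ i, b i ≠ 0 → ev β v = 0

/-- A class on the product of `m` surfaces and an abelian variety `A` (a rational form with `m`
variables in the total cohomology of the surfaces and `l` variables in `H^1(A)`) is a Hodge
class. -/
def IsHodgeX {n w s m l : ℕ} (T : HS n) (W : HW w)
    (t : (Fin m → Fin s ⊕ Fin n) → (Fin l → Fin w) → ℚ) : Prop :=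
  ∀ (u : Fin m → Fin s ⊕ Fin n → ℂ) (v : Fin l → Fin w → ℂ) (a : Fin m → ℤ) (b : Fin l → ℤ),
    (∀ j, T.xS s *ᵥ u j = (a j : ℂ) • u j) →
    (∀ i, (2 : ℂ) • (W.y *ᵥ v i) = (b i : ℂ) • v i) →
    2 * ∑ j, a j + ∑ i, b i ≠ 0 →
    ∑ J, ∑ L, (t J L : ℂ) * ((∏ j, u j (J j)) * ∏ i, v i (L i)) = 0

/-- the forms killed by `X` define a Lie algebra -/
def hX {κ : Type} [Fintype κ] [DecidableEq κ] (X : Matrix κ κ ℂ) :
    Submodule ℂ (Matrix κ κ ℂ) where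
  carrier := {Y | ∀ (k : ℕ) (t : (Fin k → κ) → ℚ), act X (cx t) = 0 → act Y (cx t) = 0}
  zero_mem' := by
    intro k t _
    funext J
    simp [act]
  add_mem' := by
    intro a b ha hb k t ht
    have h1 := ha k t ht
    have h2 := hb k t ht
    funext J
    have h3 := congrFun h1 J
    have h4 := congrFun h2 J
    simp only [act, Matrix.add_apply, add_mul, Finset.sum_add_distrib, Pi.zero_apply] at h3 h4 ⊢
    rw [h3, h4, add_zero]
  smul_mem' := by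
    intro z a ha k t ht
    have h1 := ha k t ht
    funext J
    have h3 := congrFun h1 J
    simp only [act, Matrix.smul_apply, smul_eq_mul, mul_assoc, ← Finset.mul_sum,
      Pi.zero_apply] at h3 ⊢
    rw [h3, mul_zero]

/-- (XLG) -/
def S_xlg : Prop := ∀ (κ : Type) [Fintype κ] [DecidableEq κ] (X : Matrix κ κ ℂ),
  (∀ Y ∈ hX X, ∀ Y' ∈ hX X, Y * Y' - Y' * Y ∈ hX X) ∧ ∀ σ : ℂ ≃+* ℂ, X.map σ ∈ hX X

/-- eigenvalues of the Hodge operator -/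
def ei : Fin 5 → ℂ := ![1, -1, 0, 1 / 2, -1 / 2]

/-- eigenvalues of the Weil operator -/
def ga : Fin 5 → ℂ := ![-1, -1, 1, Complex.I, -Complex.I]

/-- (XST) -/
def S_xst : Prop := ∀ (κ : Type) [Fintype κ] [DecidableEq κ] (X G G' : Matrix κ κ ℂ)
  (P : Fin 5 → Matrix κ κ ℂ), ∑ i, P i = 1 → (∀ i, X * P i = ei i • P i) →
  (∀ i, G * P i = ga i • P i) → G * G' = 1 → G' * G = 1 →
  ∀ Y ∈ hX X, G' * Y.map (starRingEnd ℂ) * G ∈ hX X

/-- the total Hodge operator on `(ℚ^s ⊕ T) ⊕ H^1(A)` -/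
def xT {n w : ℕ} (T : HS n) (W : HW w) (s : ℕ) :
    Matrix ((Fin s ⊕ Fin n) ⊕ Fin w) ((Fin s ⊕ Fin n) ⊕ Fin w) ℂ :=
  fromBlocks (T.xS s) 0 0 W.y

/-- (XDI) -/
def S_xdi : Prop := ∀ (n r w s : ℕ) (T : HS n) (W : HW w) (c : Fin n → Fin r), BD c T.Q →
  BD c T.x → ∀ Y ∈ hX (xT T W s), ∃ (Z : Matrix (Fin n) (Fin n) ℂ) (V : Matrix (Fin w) (Fin w) ℂ),
    Y = fromBlocks (fromBlocks 0 0 0 Z) 0 0 V ∧ BD c Z ∧ Zᵀ * mC T.Q + mC T.Q * Z = 0

/-- (EG2) -/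
def S_eg2 : Prop := ∀ (n r : ℕ) (T : HS n) (c : Fin n → Fin r) (i : Fin r) (p : ℕ), BD c T.Q →
  BD c T.x → ∑ a with c a = i, (T.x * T.x) a a = 2 * (p : ℂ) → 2 ≤ p →
  ∃ Z : Matrix (Fin n) (Fin n) ℂ, Z ≠ 0 ∧ Zᵀ * mC T.Q + mC T.Q * Z = 0 ∧
    (∀ a b, Z a b ≠ 0 → c a = i ∧ c b = i) ∧ T.x * Z - Z * T.x = (2 : ℂ) • Z

/-- (SEP) -/
def S_sep : Prop := ∀ (n w s m l : ℕ) (T : HS n) (W : HW w)
  (t : (Fin m → Fin s ⊕ Fin n) → (Fin l → Fin w) → ℚ), IsHodgeX T W t →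
  (l = 0 ∨ fromBlocks (T.xS s) 0 0 0 ∈ hX (xT T W s)) →
  (∀ L, T.IsHodgeS fun J => t J L) ∧ ∀ J, W.IsHodge (t J)

/-- (TEN) -/
def S_ten : Prop := ∀ (X Y : Type) [Fintype X] [Fintype Y] (U : Submodule ℚ (X → ℚ))
  (B : Submodule ℚ (Y → ℚ)) (t : X → Y → ℚ), (∀ y, (fun x => t x y) ∈ U) → (∀ x, t x ∈ B) →
  t ∈ Submodule.span ℚ {f : X → Y → ℚ | ∃ α ∈ U, ∃ β ∈ B, f = fun x y => α x * β y}

/-- (CNV) -/
def S_cnv : Prop := ∀ (n r w s m l : ℕ) (T : HS n) (W : HW w) (c : Fin n → Fin r)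
  (d : Fin s → Fin r) (a : Fin m → Fin r), BD c T.Q → BD c T.x →
  (∀ t ∈ T.algP c d a, T.IsHodgeS t) ∧
  ∀ (α : (Fin m → Fin s ⊕ Fin n) → ℚ) (β : (Fin l → Fin w) → ℚ), T.IsHodgeS α → W.IsHodge β →
    IsHodgeX T W fun J L => α J * β L

end

end Pool.Agent.W544.PG
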