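import Pool.Agent.W544.PG.Key
import Pool.Agent.W368.PG.XLG
import Pool.Agent.W612.PG.Xst
import Pool.Agent.W883.PG.Xdi
import Pool.Agent.W637.PG.EG2
import Pool.Agent.W143.PG.Sep
import Pool.Agent.W748.PG5.TEN
import Pool.Agent.W374.PG.Cnv

/-!
# Hodge classes on products of surfaces and an abelian variety
-/

open Matrix Finset Module

namespace Pool.Agent.W544.PG

noncomputable section

variable {n r w s m l : ℕ} {T : HS n} {c : Fin n → Fin r} {p q : Fin r → ℕ}

theorem keyF (hB : T.Big c p q) (hp2 : ∀ i, 2 ≤ p i) (W : HW w) (s : ℕ) :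
    fromBlocks (T.xS s) 0 0 0 ∈ hX (xT T W s) :=
  key W368.PG.xlg W612.PG.xst W883.PG.xdi W637.PG.eg2 hB hp2 W s

/-- A form in `l` variables is alternating. -/
def IsAlt {w l : ℕ} (β : (Fin l → Fin w) → ℚ) : Prop :=
  ∀ (π : Equiv.Perm (Fin l)) (L : Fin l → Fin w),
    β (L ∘ π) = ((Equiv.Perm.sign π : ℤ) : ℚ) * β L

/-- Sums of products of algebraic classes on the product of the surfaces `S_(a 1), ..., S_(a m)`
(`HS.algP`) and of Hodge classes in `H^l(A)` (alternating `l`-linear forms on `H^1`). -/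
def HS.algX (T : HS n) (W : HW w) (c : Fin n → Fin r) (d : Fin s → Fin r) (a : Fin m → Fin r)
    (l : ℕ) : Submodule ℚ ((Fin m → Fin s ⊕ Fin n) → (Fin l → Fin w) → ℚ) :=
  Submodule.span ℚ {f | ∃ α ∈ T.algP c d a, ∃ β : (Fin l → Fin w) → ℚ, W.IsHodge β ∧ IsAlt β ∧
    f = fun J L => α J * β L}

/-- Hodge alternating forms -/
def HW.hodge (W : HW w) (l : ℕ) : Submodule ℚ ((Fin l → Fin w) → ℚ) where
  carrier := {β | W.IsHodge β ∧ IsAlt β}
  zero_mem' := by
    refine ⟨fun v b _ _ => ?_, fun π L => ?_⟩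
    · simp [ev]
    · simp
  add_mem' := by
    rintro β γ ⟨h1, h2⟩ ⟨h3, h4⟩
    refine ⟨fun v b hv hb => ?_, fun π L => ?_⟩
    · have h5 := h1 v b hv hb
      have h6 := h3 v b hv hb
      unfold ev at h5 h6 ⊢
      simp only [Pi.add_apply, Rat.cast_add, add_mul, Finset.sum_add_distrib]
      rw [h5, h6, add_zero]
    · rw [Pi.add_apply, Pi.add_apply, h2, h4, mul_add]
  smul_mem' := by
    rintro z β ⟨h1, h2⟩
    refine ⟨fun v b hv hb => ?_, fun π L => ?_⟩
    · have h5 := h1 v b hv hb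
      unfold ev at h5 ⊢
      simp only [Pi.smul_apply, smul_eq_mul, Rat.cast_mul, mul_assoc, ← Finset.mul_sum]
      rw [h5, mul_zero]
    · rw [Pi.smul_apply, Pi.smul_apply, h2, smul_eq_mul, smul_eq_mul]
      ring

/-- **Hodge classes on `S_(a 1) × ... × S_(a m) × A`.** -/
theorem hcA (hB : T.Big c p q) (W : HW w) (hpl : l = 0 ∨ ∀ i, 2 ≤ p i) (d : Fin s → Fin r)
    (a : Fin m → Fin r) (t : (Fin m → Fin s ⊕ Fin n) → (Fin l → Fin w) → ℚ)
    (hta : ∀ J L, t J L ≠ 0 → ∀ j, Sum.elim d c (J j) = a j)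
    (htr : ∀ J L, t J L ≠ 0 → ∀ i, (univ.filter fun j => ∃ b, J j = Sum.inr b ∧ c b = i).card <
      2 * p i + q i) (halt : ∀ J, IsAlt (t J)) :
    IsHodgeX T W t ↔ t ∈ T.algX W c d a l := by
  constructor
  · intro ht
    have hsep := W143.PG.sep n w s m l T W t ht (by
      rcases hpl with h | h
      · exact Or.inl h
      · exact Or.inr (keyF hB h W s))
    have h1 := W748.PG5.ten _ _ (T.algP c d a) (W.hodge l) t
      (fun L => hcF hB d a _ (hsep.1 L) (fun J hJ => hta J L hJ) (fun J hJ => htr J L hJ))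
      (fun J => ⟨hsep.2 J, halt J⟩)
    have h2 : {f : (Fin m → Fin s ⊕ Fin n) → (Fin l → Fin w) → ℚ | ∃ α ∈ T.algP c d a,
        ∃ β ∈ W.hodge l, f = fun x y => α x * β y} =
        {f | ∃ α ∈ T.algP c d a, ∃ β : (Fin l → Fin w) → ℚ, W.IsHodge β ∧ IsAlt β ∧
          f = fun J L => α J * β L} := by
      ext f
      constructor
      · rintro ⟨α, hα, β, hβ, rfl⟩
        exact ⟨α, hα, β, hβ.1, hβ.2, rfl⟩
      · rintro ⟨α, hα, β, hβ1, hβ2, rfl⟩
        exact ⟨α, hα, β, ⟨hβ1, hβ2⟩, rfl⟩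
    unfold HS.algX
    rw [← h2]
    exact h1
  · intro ht
    clear hta htr halt
    have hcnv := W374.PG.cnv n r w s m l T W c d a hB.bQ hB.bx
    induction ht using Submodule.span_induction with
    | mem f h =>
      obtain ⟨α, hα, β, hβ, _, rfl⟩ := h
      exact hcnv.2 α β (hcnv.1 α hα) hβ
    | zero =>
      intro u v a b _ _ _
      simp
    | add f g _ _ hf hg =>
      intro u v a b h1 h2 h3
      have h4 := hf u v a b h1 h2 h3
      have h5 := hg u v a b h1 h2 h3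
      simp only [Pi.add_apply, Rat.cast_add, add_mul, Finset.sum_add_distrib]
      rw [h4, h5, add_zero]
    | smul z f _ hf =>
      intro u v a b h1 h2 h3
      have h4 := hf u v a b h1 h2 h3
      simp only [Pi.smul_apply, smul_eq_mul, Rat.cast_mul, mul_assoc, ← Finset.mul_sum] at h4 ⊢
      rw [h4, mul_zero]

end

end Pool.Agent.W544.PG
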