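import Pool.Agent.W544.PG.MainG
import Pool.Agent.W544.PG.Final2
import Pool.Agent.W544.PG.Defs6

/-!
# A product with an abelian variety: the Hodge Lie algebra
-/

open Matrix Finset Module

namespace Pool.Agent.W544.PG

noncomputable section

/-- simplicity in the coordinates of a Hodge structure -/
theorem simB {m : ℕ} (T' : HS m) (hm : 3 ≤ m) (hm4 : m ≠ 4)
    (J : Submodule ℂ (Matrix (Fin m) (Fin m) ℂ))
    (hJ : ∀ y ∈ J, yᵀ * mC T'.Q + mC T'.Q * y = 0)
    (hid : ∀ Z : Matrix (Fin m) (Fin m) ℂ, Zᵀ * mC T'.Q + mC T'.Q * Z = 0 →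
      ∀ y ∈ J, Z * y - y * Z ∈ J) (hne : ∃ y ∈ J, y ≠ 0) (Z : Matrix (Fin m) (Fin m) ℂ)
    (hZ : Zᵀ * mC T'.Q + mC T'.Q * Z = 0) : Z ∈ J := by
  have hdet : (mC T'.Q).det ≠ 0 := by
    rw [det_mC]
    exact_mod_cast W74.PG.det_ne T'
  obtain ⟨g, hg⟩ := W557.PG.orth (mC T'.Q) (by rw [mC_T, T'.symm]) hdet
  obtain ⟨g', hg'⟩ : ∃ g' : Matrix (Fin m) (Fin m) ℂ, g' = gᵀ * mC T'.Q := ⟨_, rfl⟩
  have e1 : g' * g = 1 := by rw [hg']; exact hg
  have e2 : g * g' = 1 := mul_eq_one_comm.1 e1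
  have sk1 : ∀ y : Matrix (Fin m) (Fin m) ℂ,
      yᵀ * mC T'.Q + mC T'.Q * y = 0 → (g' * y * g)ᵀ = -(g' * y * g) := by
    intro y hy
    have h1 := cc_skew e2 (mC T'.Q) y hy
    rw [hg, Matrix.mul_one, Matrix.one_mul] at h1
    exact eq_neg_of_add_eq_zero_left h1
  have sk2 : ∀ y : Matrix (Fin m) (Fin m) ℂ,
      yᵀ = -y → (g * y * g')ᵀ * mC T'.Q + mC T'.Q * (g * y * g') = 0 := by
    intro y hy
    have t2 : g'ᵀ * gᵀ = 1 := by rw [← Matrix.transpose_mul, e2, Matrix.transpose_one]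
    have t3 : gᵀ * mC T'.Q = g' := hg'.symm
    have t4 : mC T'.Q * g = g'ᵀ := by
      calc mC T'.Q * g = g'ᵀ * gᵀ * (mC T'.Q * g) := by
            rw [t2, Matrix.one_mul]
        _ = g'ᵀ * (gᵀ * mC T'.Q * g) := by simp only [Matrix.mul_assoc]
        _ = g'ᵀ := by rw [hg, Matrix.mul_one]
    rw [Matrix.transpose_mul, Matrix.transpose_mul, hy]
    have h1 : g'ᵀ * (-y * gᵀ) * mC T'.Q = -(mC T'.Q * (g * y * g')) := by
      calc g'ᵀ * (-y * gᵀ) * mC T'.Q = -(g'ᵀ * y * (gᵀ * mC T'.Q)) := by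
            simp only [Matrix.mul_assoc, Matrix.neg_mul, Matrix.mul_neg]
        _ = -(g'ᵀ * y * g') := by rw [t3]
        _ = -(mC T'.Q * (g * y * g')) := by
            rw [← t4]
            simp only [Matrix.mul_assoc]
    rw [h1, neg_add_cancel]
  let J' : Submodule ℂ (Matrix (Fin m) (Fin m) ℂ) :=
    { carrier := {y | g * y * g' ∈ J}
      zero_mem' := by simp
      add_mem' := by
        intro a b ha hb
        change g * (a + b) * g' ∈ J
        rw [Matrix.mul_add, Matrix.add_mul]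
        exact J.add_mem ha hb
      smul_mem' := by
        intro z a ha
        change g * (z • a) * g' ∈ J
        rw [Matrix.mul_smul, Matrix.smul_mul]
        exact J.smul_mem z ha }
  have hJ' : ∀ y, y ∈ J' ↔ g * y * g' ∈ J := fun y => Iff.rfl
  have h1 : g' * Z * g ∈ J' := by
    apply W589.PG.Sim.sim m hm hm4 J' _ _ _ _ (sk1 Z hZ)
    · intro y hy
      have := sk1 _ (hJ _ ((hJ' y).1 hy))
      rwa [cc_fwd e1] at this
    · intro Z' hZ' y hy
      rw [hJ'] at hy ⊢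
      have h2 := hid _ (sk2 Z' hZ') _ hy
      rw [cc_mul e1, cc_mul e1] at h2
      unfold br
      rw [Matrix.mul_sub, Matrix.sub_mul]
      exact h2
    · intro h0
      obtain ⟨y, hy, hy0⟩ := hne
      apply hy0
      have h2 : g' * y * g ∈ J' := by
        rw [hJ', cc_back e2]
        exact hy
      rw [h0, Submodule.mem_bot] at h2
      rw [← cc_back e2 y, h2, Matrix.mul_zero, Matrix.zero_mul]
  rw [hJ', cc_back e2] at h1
  exact h1

/-- an operator on `T`, extended by zero -/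
def NN {n : ℕ} (s w : ℕ) (Z : Matrix (Fin n) (Fin n) ℂ) (V : Matrix (Fin w) (Fin w) ℂ) :
    Matrix ((Fin s ⊕ Fin n) ⊕ Fin w) ((Fin s ⊕ Fin n) ⊕ Fin w) ℂ :=
  fromBlocks (fromBlocks 0 0 0 Z) 0 0 V

variable {n r w s : ℕ} {T : HS n} {W : HW w} {c : Fin n → Fin r} {p q : Fin r → ℕ}

theorem NN_mul (Z Z' : Matrix (Fin n) (Fin n) ℂ) (V V' : Matrix (Fin w) (Fin w) ℂ) :
    NN s w Z V * NN s w Z' V' = NN s w (Z * Z') (V * V') := by
  simp [NN, Matrix.fromBlocks_multiply]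

theorem NN_sub (Z Z' : Matrix (Fin n) (Fin n) ℂ) (V V' : Matrix (Fin w) (Fin w) ℂ) :
    NN s w Z V - NN s w Z' V' = NN s w (Z - Z') (V - V') := by
  ext i j
  rcases i with (i | i) | i <;> rcases j with (j | j) | j <;> simp [NN]

theorem NN_add (Z Z' : Matrix (Fin n) (Fin n) ℂ) (V V' : Matrix (Fin w) (Fin w) ℂ) :
    NN s w Z V + NN s w Z' V' = NN s w (Z + Z') (V + V') := by
  ext i j
  rcases i with (i | i) | i <;> rcases j with (j | j) | j <;> simp [NN]

theorem NN_smul (z : ℂ) (Z : Matrix (Fin n) (Fin n) ℂ) (V : Matrix (Fin w) (Fin w) ℂ) :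
    z • NN s w Z V = NN s w (z • Z) (z • V) := by
  ext i j
  rcases i with (i | i) | i <;> rcases j with (j | j) | j <;> simp [NN]

theorem NN_map (Z : Matrix (Fin n) (Fin n) ℂ) (V : Matrix (Fin w) (Fin w) ℂ) (f : ℂ → ℂ)
    (hf : f 0 = 0) : (NN s w Z V).map f = NN s w (Z.map f) (V.map f) := by
  ext i j
  rcases i with (i | i) | i <;> rcases j with (j | j) | j <;> simp [NN, hf]

theorem NN_inj {Z Z' : Matrix (Fin n) (Fin n) ℂ} {V V' : Matrix (Fin w) (Fin w) ℂ}
    (h : NN s w Z V = NN s w Z' V') : Z = Z' ∧ V = V' := by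
  unfold NN at h
  rw [Matrix.fromBlocks_inj, Matrix.fromBlocks_inj] at h
  exact ⟨h.1.2.2.2, h.2.2.2⟩

theorem xT_eq (T : HS n) (W : HW w) (s : ℕ) : xT T W s = NN s w T.x W.y := rfl

/-- the projection to `T` of the Hodge Lie algebra -/
def hP (T : HS n) (W : HW w) (s : ℕ) : Submodule ℂ (Matrix (Fin n) (Fin n) ℂ) where
  carrier := {Z | ∃ V, NN s w Z V ∈ hX (xT T W s)}
  zero_mem' := ⟨0, by
    have : NN s w (0 : Matrix (Fin n) (Fin n) ℂ) 0 = 0 := by
      ext i j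
      rcases i with (i | i) | i <;> rcases j with (j | j) | j <;> simp [NN]
    rw [this]
    exact (hX _).zero_mem⟩
  add_mem' := by
    rintro a b ⟨V, hV⟩ ⟨V', hV'⟩
    exact ⟨V + V', by rw [← NN_add]; exact (hX _).add_mem hV hV'⟩
  smul_mem' := by
    rintro z a ⟨V, hV⟩
    exact ⟨z • V, by rw [← NN_smul]; exact (hX _).smul_mem z hV⟩

/-- the projections on the eigenspaces -/
def PP (T : HS n) (W : HW w) (s : ℕ) :
    Fin 5 → Matrix ((Fin s ⊕ Fin n) ⊕ Fin w) ((Fin s ⊕ Fin n) ⊕ Fin w) ℂ :=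
  ![fromBlocks (fromBlocks 0 0 0 ((1 / 2 : ℂ) • (T.x * T.x + T.x))) 0 0 0,
    fromBlocks (fromBlocks 0 0 0 ((1 / 2 : ℂ) • (T.x * T.x - T.x))) 0 0 0,
    fromBlocks (fromBlocks 1 0 0 (1 - T.x * T.x)) 0 0 0,
    fromBlocks 0 0 0 ((1 / 2 : ℂ) • 1 + W.y),
    fromBlocks 0 0 0 ((1 / 2 : ℂ) • 1 - W.y)]

theorem fb_add {a b : Type} (A A' : Matrix a a ℂ) (D D' : Matrix b b ℂ) :
    fromBlocks A 0 0 D + fromBlocks A' 0 0 D' = fromBlocks (A + A') 0 0 (D + D') := by
  rw [Matrix.fromBlocks_add]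
  simp

theorem fb_mul {a b : Type} [Fintype a] [Fintype b] (A A' : Matrix a a ℂ) (D D' : Matrix b b ℂ) :
    fromBlocks A 0 0 D * fromBlocks A' 0 0 D' = fromBlocks (A * A') 0 0 (D * D') := by
  rw [Matrix.fromBlocks_multiply]
  simp

theorem fb_smul {a b : Type} (z : ℂ) (A : Matrix a a ℂ) (D : Matrix b b ℂ) :
    z • fromBlocks A 0 0 D = fromBlocks (z • A) 0 0 (z • D) := by
  rw [Matrix.fromBlocks_smul]
  simp

theorem PP_sum : ∑ i, PP T W s i = 1 := by
  rw [Fin.sum_univ_five]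
  simp only [PP, Matrix.cons_val_zero, Matrix.cons_val_one, Matrix.cons_val]
  rw [fb_add, fb_add, fb_add, fb_add, fb_add, fb_add, ← Matrix.fromBlocks_one,
    ← Matrix.fromBlocks_one]
  congr 1
  · simp only [zero_add, add_zero]
    congr 1
    module
  · module

theorem sq4 : W.y * W.y = (1 / 4 : ℂ) • (1 : Matrix (Fin w) (Fin w) ℂ) := by
  rw [← W.sq, smul_smul]
  norm_num

theorem PP_x (i : Fin 5) : xT T W s * PP T W s i = ei i • PP T W s i := by
  have hx : T.x * (T.x * T.x) = T.x := by rw [← mul_assoc, T.cube]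
  fin_cases i
  · change fromBlocks (fromBlocks 0 0 0 T.x) 0 0 W.y *
      fromBlocks (fromBlocks 0 0 0 ((1 / 2 : ℂ) • (T.x * T.x + T.x))) 0 0 0 =
      (1 : ℂ) • fromBlocks (fromBlocks 0 0 0 ((1 / 2 : ℂ) • (T.x * T.x + T.x))) 0 0 0
    rw [fb_mul, fb_mul, one_smul, Matrix.mul_zero, Matrix.mul_zero, Matrix.mul_smul,
      Matrix.mul_add, hx, add_comm]
  · change fromBlocks (fromBlocks 0 0 0 T.x) 0 0 W.y *
      fromBlocks (fromBlocks 0 0 0 ((1 / 2 : ℂ) • (T.x * T.x - T.x))) 0 0 0 =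
      (-1 : ℂ) • fromBlocks (fromBlocks 0 0 0 ((1 / 2 : ℂ) • (T.x * T.x - T.x))) 0 0 0
    rw [fb_mul, fb_mul, fb_smul, fb_smul, Matrix.mul_zero, Matrix.mul_zero, Matrix.mul_smul,
      Matrix.mul_sub, hx, smul_zero, smul_zero, smul_smul]
    congr 2
    module
  · change fromBlocks (fromBlocks 0 0 0 T.x) 0 0 W.y *
      fromBlocks (fromBlocks 1 0 0 (1 - T.x * T.x)) 0 0 0 =
      (0 : ℂ) • fromBlocks (fromBlocks 1 0 0 (1 - T.x * T.x)) 0 0 0
    rw [fb_mul, fb_mul, Matrix.mul_zero, Matrix.mul_sub, hx, zero_smul]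
    simp only [Matrix.mul_one, sub_self, Matrix.fromBlocks_zero, Matrix.zero_mul]
  · change fromBlocks (fromBlocks 0 0 0 T.x) 0 0 W.y *
      fromBlocks 0 0 0 ((1 / 2 : ℂ) • 1 + W.y) =
      (1 / 2 : ℂ) • fromBlocks 0 0 0 ((1 / 2 : ℂ) • 1 + W.y)
    rw [fb_mul, fb_smul, Matrix.mul_zero, smul_zero, Matrix.mul_add, sq4, Matrix.mul_smul,
      Matrix.mul_one]
    congr 1
    module
  · change fromBlocks (fromBlocks 0 0 0 T.x) 0 0 W.y *
      fromBlocks 0 0 0 ((1 / 2 : ℂ) • 1 - W.y) =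
      (-1 / 2 : ℂ) • fromBlocks 0 0 0 ((1 / 2 : ℂ) • 1 - W.y)
    rw [fb_mul, fb_smul, Matrix.mul_zero, smul_zero, Matrix.mul_sub, sq4, Matrix.mul_smul,
      Matrix.mul_one]
    congr 1
    module

/-- the Weil operator -/
def GG (T : HS n) (W : HW w) (s : ℕ) (z : ℂ) :
    Matrix ((Fin s ⊕ Fin n) ⊕ Fin w) ((Fin s ⊕ Fin n) ⊕ Fin w) ℂ :=
  fromBlocks (fromBlocks 1 0 0 (-T.C)) 0 0 (z • W.y)

theorem PP_G (i : Fin 5) : GG T W s (2 * Complex.I) * PP T W s i = ga i • PP T W s i := by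
  have hx : T.x * (T.x * T.x) = T.x := by rw [← mul_assoc, T.cube]
  have hx4 : T.x * T.x * (T.x * T.x) = T.x * T.x := by
    rw [← mul_assoc, T.cube]
  have hx3 : T.x * T.x * T.x = T.x := T.cube
  fin_cases i
  · change fromBlocks (fromBlocks 1 0 0 (-T.C)) 0 0 ((2 * Complex.I) • W.y) *
      fromBlocks (fromBlocks 0 0 0 ((1 / 2 : ℂ) • (T.x * T.x + T.x))) 0 0 0 =
      (-1 : ℂ) • fromBlocks (fromBlocks 0 0 0 ((1 / 2 : ℂ) • (T.x * T.x + T.x))) 0 0 0
    rw [fb_mul, fb_mul, fb_smul, fb_smul, Matrix.mul_zero, Matrix.mul_zero, smul_zero, smul_zero]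
    congr 2
    unfold HS.C
    rw [Matrix.mul_smul, Matrix.mul_add, Matrix.neg_mul, Matrix.neg_mul, Matrix.sub_mul,
      Matrix.sub_mul, Matrix.smul_mul, Matrix.smul_mul, hx4, hx3, Matrix.one_mul, Matrix.one_mul]
    module
  · change fromBlocks (fromBlocks 1 0 0 (-T.C)) 0 0 ((2 * Complex.I) • W.y) *
      fromBlocks (fromBlocks 0 0 0 ((1 / 2 : ℂ) • (T.x * T.x - T.x))) 0 0 0 =
      (-1 : ℂ) • fromBlocks (fromBlocks 0 0 0 ((1 / 2 : ℂ) • (T.x * T.x - T.x))) 0 0 0
    rw [fb_mul, fb_mul, fb_smul, fb_smul, Matrix.mul_zero, Matrix.mul_zero, smul_zero, smul_zero]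
    congr 2
    unfold HS.C
    rw [Matrix.mul_smul, Matrix.mul_sub, Matrix.neg_mul, Matrix.neg_mul, Matrix.sub_mul,
      Matrix.sub_mul, Matrix.smul_mul, Matrix.smul_mul, hx4, hx3, Matrix.one_mul, Matrix.one_mul]
    module
  · change fromBlocks (fromBlocks 1 0 0 (-T.C)) 0 0 ((2 * Complex.I) • W.y) *
      fromBlocks (fromBlocks 1 0 0 (1 - T.x * T.x)) 0 0 0 =
      (1 : ℂ) • fromBlocks (fromBlocks 1 0 0 (1 - T.x * T.x)) 0 0 0
    rw [fb_mul, fb_mul, one_smul, Matrix.mul_zero, Matrix.one_mul]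
    congr 2
    unfold HS.C
    rw [Matrix.mul_sub, Matrix.neg_mul, Matrix.neg_mul, Matrix.sub_mul,
      Matrix.sub_mul, Matrix.smul_mul, Matrix.smul_mul, hx4, Matrix.mul_one, Matrix.one_mul,
      Matrix.one_mul]
    module
  · change fromBlocks (fromBlocks 1 0 0 (-T.C)) 0 0 ((2 * Complex.I) • W.y) *
      fromBlocks 0 0 0 ((1 / 2 : ℂ) • 1 + W.y) =
      Complex.I • fromBlocks 0 0 0 ((1 / 2 : ℂ) • 1 + W.y)
    rw [fb_mul, fb_smul, Matrix.mul_zero, smul_zero, Matrix.mul_add, Matrix.smul_mul,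
      Matrix.smul_mul, sq4, Matrix.mul_smul, Matrix.mul_one]
    congr 1
    module
  · change fromBlocks (fromBlocks 1 0 0 (-T.C)) 0 0 ((2 * Complex.I) • W.y) *
      fromBlocks 0 0 0 ((1 / 2 : ℂ) • 1 - W.y) =
      (-Complex.I) • fromBlocks 0 0 0 ((1 / 2 : ℂ) • 1 - W.y)
    rw [fb_mul, fb_smul, Matrix.mul_zero, smul_zero, Matrix.mul_sub, Matrix.smul_mul,
      Matrix.smul_mul, sq4, Matrix.mul_smul, Matrix.mul_one]
    congr 1
    module

theorem GG_inv (z z' : ℂ) (h : z * z' = 4) : GG T W s z * GG T W s z' = 1 := by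
  unfold GG
  rw [fb_mul, fb_mul, Matrix.neg_mul, Matrix.mul_neg, neg_neg, C_sq, Matrix.one_mul,
    Matrix.smul_mul, Matrix.mul_smul, sq4, smul_smul, smul_smul, h]
  norm_num [Matrix.fromBlocks_one]

theorem sel_mul_T {k : ℕ} {e : Fin k → Fin n} {i : Fin r} (he : Enum c e i)
    (y : Matrix (Fin k) (Fin k) ℂ) {a b : Fin n} (h : (sel e * y * (sel e)ᵀ) a b ≠ 0) :
    c a = i ∧ c b = i := by
  rw [Matrix.mul_apply] at h
  obtain ⟨l, _, hl⟩ := Finset.exists_ne_zero_of_sum_ne_zero h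
  have h1 : e l = b := by
    by_contra h1
    apply hl
    rw [Matrix.transpose_apply, sel, Matrix.of_apply, if_neg h1, mul_zero]
  have h2 : (sel e * y) a l ≠ 0 := fun h0 => hl (by rw [h0, zero_mul])
  rw [Matrix.mul_apply] at h2
  obtain ⟨l', _, hl'⟩ := Finset.exists_ne_zero_of_sum_ne_zero h2
  have h3 : e l' = a := by
    by_contra h3
    apply hl'
    rw [sel, Matrix.of_apply, if_neg h3, zero_mul]
  exact ⟨by rw [← h3]; exact he.col _, by rw [← h1]; exact he.col _⟩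

theorem sel_BD {k : ℕ} {e : Fin k → Fin n} {i : Fin r} (he : Enum c e i)
    (y : Matrix (Fin k) (Fin k) ℂ) : BD c (sel e * y * (sel e)ᵀ) := by
  intro a b hab
  by_contra h
  obtain ⟨h1, h2⟩ := sel_mul_T he y h
  exact hab (by rw [h1, h2])

theorem Blk.sel_skew {i : Fin r} {k : ℕ} {e : Fin k → Fin n} {T' : HS k} (b : Blk T c i e T')
    (hB : T.Big c p q) {y : Matrix (Fin k) (Fin k) ℂ}
    (hy : yᵀ * mC T'.Q + mC T'.Q * y = 0) :
    (sel e * y * (sel e)ᵀ)ᵀ * mC T.Q + mC T.Q * (sel e * y * (sel e)ᵀ) = 0 := by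
  have hQ := BD.mC hB.bQ
  rw [Matrix.transpose_mul, Matrix.transpose_mul, Matrix.transpose_transpose]
  have h1 : sel e * (yᵀ * (sel e)ᵀ) * mC T.Q = sel e * (yᵀ * mC T'.Q) * (sel e)ᵀ := by
    rw [Matrix.mul_assoc, Matrix.mul_assoc yᵀ, b.en.selT_mul hQ, b.Q, mC_sub]
    simp only [Matrix.mul_assoc]
  have h2 : mC T.Q * (sel e * y * (sel e)ᵀ) = sel e * (mC T'.Q * y) * (sel e)ᵀ := by
    rw [← Matrix.mul_assoc, ← Matrix.mul_assoc, b.en.mul_sel hQ, b.Q, mC_sub]
    simp only [Matrix.mul_assoc]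
  rw [h1, h2, ← Matrix.add_mul, ← Matrix.mul_add, hy, Matrix.mul_zero, Matrix.zero_mul]

theorem sel_sum {k : Fin r → ℕ} {e : ∀ i, Fin (k i) → Fin n} (he : ∀ i, Enum c (e i) i) :
    ∑ i, sel (e i) * (sel (e i))ᵀ = 1 := by
  ext a b
  rw [Matrix.sum_apply]
  obtain ⟨j, hj⟩ := (he (c a)).surj a rfl
  rw [Finset.sum_eq_single (c a), Matrix.mul_apply, Finset.sum_eq_single j]
  · simp only [Matrix.transpose_apply, sel, Matrix.of_apply, hj, if_true, one_mul,
      Matrix.one_apply]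
  · intro j' _ hj'
    rw [sel, Matrix.of_apply, if_neg, zero_mul]
    intro h
    exact hj' ((he (c a)).inj (by rw [h, hj]))
  · simp
  · intro i _ hi
    rw [Matrix.mul_apply]
    refine Finset.sum_eq_zero fun l _ => ?_
    rw [sel, Matrix.of_apply, if_neg, zero_mul]
    intro h
    exact hi (by rw [← h, (he i).col])
  · simp

theorem sel_dec {k : Fin r → ℕ} {e : ∀ i, Fin (k i) → Fin n} (he : ∀ i, Enum c (e i) i)
    {A : Matrix (Fin n) (Fin n) ℂ} (hA : BD c A) :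
    A = ∑ i, sel (e i) * A.submatrix (e i) (e i) * (sel (e i))ᵀ := by
  conv_lhs => rw [← Matrix.mul_one A, ← sel_sum he, Matrix.mul_sum]
  refine Finset.sum_congr rfl fun i _ => ?_
  rw [← Matrix.mul_assoc, (he i).mul_sel hA]

theorem NN_sum {ι : Type} [Fintype ι] (f : ι → Matrix (Fin n) (Fin n) ℂ) :
    NN s w (∑ i, f i) 0 = ∑ i, NN s w (f i) 0 := by
  ext a b
  rw [Matrix.sum_apply]
  rcases a with (a | a) | a <;> rcases b with (b | b) | b <;> simp [NN, Matrix.sum_apply]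

theorem keyZ (hxlg : S_xlg) (hxst : S_xst) (hxdi : S_xdi) (heg2 : S_eg2) (hB : T.Big c p q)
    (hpl : w = 0 ∨ ∀ i, 2 ≤ p i) (W : HW w) (s : ℕ) (Z1 : Matrix (Fin n) (Fin n) ℂ)
    (hZ1 : Z1ᵀ * mC T.Q + mC T.Q * Z1 = 0) (hZ1c : BD c Z1) :
    NN s w Z1 0 ∈ hX (xT T W s) := by
  have hli0 := (hxlg _ (xT T W s)).1
  have hga0 := (hxlg _ (xT T W s)).2
  have hX0 : xT T W s ∈ hX (xT T W s) := fun k t ht => ht
  have hform : ∀ Y ∈ hX (xT T W s), ∃ (Z : Matrix (Fin n) (Fin n) ℂ)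
      (V : Matrix (Fin w) (Fin w) ℂ), Y = NN s w Z V ∧ BD c Z ∧
      Zᵀ * mC T.Q + mC T.Q * Z = 0 := hxdi n r w s T W c hB.bQ hB.bx
  -- the projection of the Lie algebra
  have hfull : ∀ Z : Matrix (Fin n) (Fin n) ℂ, Zᵀ * mC T.Q + mC T.Q * Z = 0 → BD c Z →
      Z ∈ hP T W s := by
    intro Z hZ hZc
    apply mainG W571.PG.sub W589.PG.Sim.sim W756.PG.gou thtF W696.PG.de2 _ _ _ _ _ hB Z hZ hZc
    · rintro y ⟨V, hV⟩
      obtain ⟨Z', V', h1, h2, h3⟩ := hform _ hV
      rw [(NN_inj h1).1]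
      exact h2
    · rintro y ⟨V, hV⟩
      obtain ⟨Z', V', h1, h2, h3⟩ := hform _ hV
      rw [(NN_inj h1).1]
      exact h3
    · rintro y ⟨V, hV⟩ z ⟨V', hV'⟩
      refine ⟨V * V' - V' * V, ?_⟩
      have := hli0 _ hV _ hV'
      rwa [NN_mul, NN_mul, NN_sub] at this
    · rintro y ⟨V, hV⟩
      have h := hxst _ (xT T W s) (GG T W s (2 * Complex.I)) (GG T W s (-(2 * Complex.I)))
        (PP T W s) PP_sum PP_x PP_G
        (GG_inv _ _ (by ring_nf; rw [Complex.I_sq]; norm_num))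
        (GG_inv _ _ (by ring_nf; rw [Complex.I_sq]; norm_num)) _ hV
      refine ⟨-((-(2 * Complex.I)) • W.y * V.map (starRingEnd ℂ) * ((2 * Complex.I) • W.y)), ?_⟩
      rw [NN_map _ _ _ (map_zero _)] at h
      have h2 := (hX (xT T W s)).neg_mem h
      have h3 : NN s w (-(T.C * y.map (starRingEnd ℂ) * T.C))
          (-((-(2 * Complex.I)) • W.y * V.map (starRingEnd ℂ) * ((2 * Complex.I) • W.y))) =
          -(GG T W s (-(2 * Complex.I)) *
            NN s w (y.map (starRingEnd ℂ)) (V.map (starRingEnd ℂ)) *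
            GG T W s (2 * Complex.I)) := by
        unfold NN GG
        rw [fb_mul, fb_mul, fb_mul, fb_mul]
        simp only [Matrix.mul_zero, Matrix.zero_mul, Matrix.neg_mul, Matrix.mul_neg, neg_neg,
          Matrix.fromBlocks_neg, neg_zero]
      rw [h3]
      exact h2
    · intro σ
      refine ⟨W.y.map σ, ?_⟩
      have := hga0 σ
      rwa [xT_eq, NN_map _ _ _ (map_zero _)] at this
  rcases hpl with hw0 | hp2
  · subst hw0
    obtain ⟨V, hV⟩ := hfull Z1 hZ1 hZ1c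
    have hV0 : V = 0 := by
      ext i
      exact i.elim0
    rwa [hV0] at hV
  choose e T' b using fun i => exists_blk W571.PG.sub hB i
  have hbr : ∀ Z Z' : Matrix (Fin n) (Fin n) ℂ, Z ∈ hP T W s → NN s w Z' 0 ∈ hX (xT T W s) →
      NN s w (Z * Z' - Z' * Z) 0 ∈ hX (xT T W s) := by
    rintro Z Z' ⟨V, hV⟩ hZ'
    have h1 := hli0 _ hV _ hZ'
    rwa [NN_mul, NN_mul, NN_sub, Matrix.mul_zero, Matrix.zero_mul, sub_zero] at h1
  have hm : ∀ i, 3 ≤ 2 * p i + q i ∧ 2 * p i + q i ≠ 4 := by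
    intro i
    rcases hB.num i with h | ⟨h0, h⟩
    · omega
    · have hlt : 2 * p i < q i := by
        by_contra h'
        rw [Nat.sub_eq_zero_of_le (not_lt.1 h'), zero_mul] at h
        omega
      omega
  have hblock : ∀ (i : Fin r) (y : Matrix (Fin (2 * p i + q i)) (Fin (2 * p i + q i)) ℂ),
      yᵀ * mC (T' i).Q + mC (T' i).Q * y = 0 →
      NN s w (sel (e i) * y * (sel (e i))ᵀ) 0 ∈ hX (xT T W s) := by
    intro i y hy
    let J : Submodule ℂ (Matrix (Fin (2 * p i + q i)) (Fin (2 * p i + q i)) ℂ) :=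
      { carrier := {y | yᵀ * mC (T' i).Q + mC (T' i).Q * y = 0 ∧
          NN s w (sel (e i) * y * (sel (e i))ᵀ) 0 ∈ hX (xT T W s)}
        zero_mem' := by
          refine ⟨by simp, ?_⟩
          have : NN s w (sel (e i) *
              (0 : Matrix (Fin (2 * p i + q i)) (Fin (2 * p i + q i)) ℂ) * (sel (e i))ᵀ)
              (0 : Matrix (Fin w) (Fin w) ℂ) = 0 := by
            rw [Matrix.mul_zero, Matrix.zero_mul]
            ext a b
            rcases a with (a | a) | a <;> rcases b with (b | b) | b <;> simp [NN]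
          rw [this]
          exact (hX _).zero_mem
        add_mem' := by
          rintro y z ⟨hy1, hy2⟩ ⟨hz1, hz2⟩
          refine ⟨?_, ?_⟩
          · rw [Matrix.transpose_add, Matrix.add_mul, Matrix.mul_add, add_add_add_comm, hy1, hz1,
              add_zero]
          · rw [Matrix.mul_add, Matrix.add_mul]
            have := (hX (xT T W s)).add_mem hy2 hz2
            rwa [NN_add, add_zero] at this
        smul_mem' := by
          rintro z y ⟨hy1, hy2⟩
          refine ⟨?_, ?_⟩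
          · rw [Matrix.transpose_smul, Matrix.smul_mul, Matrix.mul_smul, ← smul_add, hy1,
              smul_zero]
          · rw [Matrix.mul_smul, Matrix.smul_mul]
            have := (hX (xT T W s)).smul_mem z hy2
            rwa [NN_smul, smul_zero] at this }
    have hJmem : ∀ y, y ∈ J ↔ (yᵀ * mC (T' i).Q + mC (T' i).Q * y = 0 ∧
      NN s w (sel (e i) * y * (sel (e i))ᵀ) 0 ∈ hX (xT T W s)) := fun y => Iff.rfl
    have h1 := simB (T' i) (hm i).1 (hm i).2 J (fun y hy => hy.1) ?_ ?_ y hy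
    · exact h1.2
    · intro Z hZ y hy
      rw [hJmem] at hy ⊢
      refine ⟨?_, ?_⟩
      · have h2 : Zᵀ * mC (T' i).Q = -(mC (T' i).Q * Z) := eq_neg_of_add_eq_zero_left hZ
        have h3 : yᵀ * mC (T' i).Q = -(mC (T' i).Q * y) := eq_neg_of_add_eq_zero_left hy.1
        rw [Matrix.transpose_sub, Matrix.transpose_mul, Matrix.transpose_mul, Matrix.sub_mul,
          Matrix.mul_assoc, Matrix.mul_assoc, h2, h3, Matrix.mul_neg, Matrix.mul_neg,
          ← Matrix.mul_assoc, ← Matrix.mul_assoc, h2, h3, Matrix.mul_sub]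
        simp only [Matrix.neg_mul, neg_neg, Matrix.mul_assoc]
        abel
      · have h2 := hbr _ _ (hfull _ ((b i).sel_skew hB hZ) (sel_BD (b i).en Z)) hy.2
        have h3 : ∀ A B : Matrix (Fin (2 * p i + q i)) (Fin (2 * p i + q i)) ℂ,
            sel (e i) * A * (sel (e i))ᵀ * (sel (e i) * B * (sel (e i))ᵀ) =
            sel (e i) * (A * B) * (sel (e i))ᵀ := by
          intro A B
          calc sel (e i) * A * (sel (e i))ᵀ * (sel (e i) * B * (sel (e i))ᵀ) =
              sel (e i) * A * ((sel (e i))ᵀ * sel (e i)) * B * (sel (e i))ᵀ := by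
                simp only [Matrix.mul_assoc]
            _ = _ := by
                rw [sel_T_sel _ (b i).en.inj, Matrix.mul_one]
                simp only [Matrix.mul_assoc]
        rw [h3, h3, ← Matrix.sub_mul, ← Matrix.mul_sub] at h2
        exact h2
    · obtain ⟨Z0, hZ0, hZs, hZb, hZx⟩ := heg2 n r T c i (p i) hB.bQ hB.bx (hB.tr i) (hp2 i)
      have hZc : BD c Z0 := by
        intro a a' haa'
        by_contra h
        obtain ⟨h1, h2⟩ := hZb a a' h
        exact haa' (by rw [h1, h2])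
      obtain ⟨V, hV⟩ := hfull Z0 hZs hZc
      have h2 := hli0 _ hX0 _ hV
      rw [xT_eq, NN_mul, NN_mul, NN_sub, hZx] at h2
      have h3 := hli0 _ hX0 _ h2
      rw [xT_eq, NN_mul, NN_mul, NN_sub, Matrix.mul_smul, Matrix.smul_mul, ← smul_sub, hZx] at h3
      have h4 := hli0 _ hX0 _ h3
      rw [xT_eq, NN_mul, NN_mul, NN_sub, Matrix.mul_smul, Matrix.smul_mul, ← smul_sub,
        Matrix.mul_smul, Matrix.smul_mul, ← smul_sub, hZx] at h4
      have h5 := (hX (xT T W s)).sub_mem h4 h2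
      rw [xT_eq, NN_sub] at h5
      have h6 : W.y * (W.y * (W.y * V - V * W.y) - (W.y * V - V * W.y) * W.y) -
          (W.y * (W.y * V - V * W.y) - (W.y * V - V * W.y) * W.y) * W.y -
          (W.y * V - V * W.y) = 0 := by
        have e1 : ∀ M : Matrix (Fin w) (Fin w) ℂ, W.y * (W.y * M) = (1 / 4 : ℂ) • M := by
          intro M
          rw [← Matrix.mul_assoc, sq4, Matrix.smul_mul, Matrix.one_mul]
        simp only [Matrix.mul_sub, Matrix.sub_mul, Matrix.mul_assoc, e1, sq4, Matrix.mul_smul,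
          Matrix.smul_mul, Matrix.mul_one]
        module
      rw [h6] at h5
      have h7 : (2 : ℂ) • (2 : ℂ) • (2 : ℂ) • Z0 - (2 : ℂ) • Z0 = (6 : ℂ) • Z0 := by module
      rw [h7] at h5
      have h8 := (hX (xT T W s)).smul_mem (1 / 6 : ℂ) h5
      rw [NN_smul, smul_smul, smul_zero] at h8
      norm_num at h8
      refine ⟨Z0.submatrix (e i) (e i), ?_, ?_⟩
      · rw [hJmem]
        refine ⟨(b i).skew hB hZs, ?_⟩
        have h9 : sel (e i) * Z0.submatrix (e i) (e i) * (sel (e i))ᵀ = Z0 := by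
          rw [← (b i).en.mul_sel hZc, Matrix.mul_assoc]
          have h10 : ∀ a a', (Z0 * (sel (e i) * (sel (e i))ᵀ)) a a' = Z0 a a' := by
            intro a a'
            have h11 : Z0 a a' = (Z0 * (∑ i, sel (e i) * (sel (e i))ᵀ)) a a' := by
              rw [sel_sum (fun i => (b i).en), Matrix.mul_one]
            rw [h11, Matrix.mul_sum, Matrix.sum_apply, Finset.sum_eq_single i]
            · intro j _ hj
              rw [Matrix.mul_apply]
              refine Finset.sum_eq_zero fun l _ => ?_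
              by_cases hl : c l = i
              · have h12 : (sel (e j) * (sel (e j))ᵀ) l a' = 0 := by
                  rw [Matrix.mul_apply]
                  refine Finset.sum_eq_zero fun l' _ => ?_
                  rw [sel, Matrix.of_apply, if_neg, zero_mul]
                  intro h
                  exact hj (by rw [← hl, ← h, (b j).en.col])
                rw [h12, mul_zero]
              · have h12 : Z0 a l = 0 := by
                  by_contra h
                  exact hl (hZb a l h).2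
                rw [h12, zero_mul]
            · simp
          ext a a'
          exact h10 a a'
        rw [h9]
        exact h8
      · intro h0
        apply hZ0
        ext a a'
        by_contra h
        obtain ⟨h1, h2⟩ := hZb a a' h
        obtain ⟨j, rfl⟩ := (b i).en.surj a h1
        obtain ⟨j', rfl⟩ := (b i).en.surj a' h2
        exact h (congrFun (congrFun h0 j) j')
  rw [sel_dec (fun i => (b i).en) hZ1c, NN_sum]
  refine Submodule.sum_mem _ fun i _ => ?_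
  apply hblock
  exact (b i).skew hB hZ1

theorem key (hxlg : S_xlg) (hxst : S_xst) (hxdi : S_xdi) (heg2 : S_eg2) (hB : T.Big c p q)
    (hp2 : ∀ i, 2 ≤ p i) (W : HW w) (s : ℕ) :
    fromBlocks (T.xS s) 0 0 0 ∈ hX (xT T W s) :=
  keyZ hxlg hxst hxdi heg2 hB (Or.inr hp2) W s T.x T.skew hB.bx

end

end Pool.Agent.W544.PG
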