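import Pool.Agent.W544.PG.MainP

/-!
# The Hodge Lie algebra of a sum of level two Hodge structures (assembly)
-/

open Matrix Finset Module

namespace Pool.Agent.W544.PG

noncomputable section

/-- factorisation through a surjection -/
theorem exists_theta {V W W' : Type} [AddCommGroup V] [Module ℂ V] [AddCommGroup W] [Module ℂ W]
    [AddCommGroup W'] [Module ℂ W'] (h : Submodule ℂ V) (f : V →ₗ[ℂ] W) (f' : V →ₗ[ℂ] W')
    (hk : ∀ y ∈ h, f y = 0 → f' y = 0) : ∃ θ : W →ₗ[ℂ] W', ∀ y ∈ h, θ (f y) = f' y := by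
  obtain ⟨s, hs⟩ := LinearMap.exists_rightInverse_of_surjective
    ((f.domRestrict h).rangeRestrict) (LinearMap.range_rangeRestrict _)
  obtain ⟨θ, hθ⟩ := LinearMap.exists_extend ((f'.domRestrict h) ∘ₗ s)
  refine ⟨θ, fun y hy => ?_⟩
  have h1 : f y ∈ LinearMap.range (f.domRestrict h) := ⟨⟨y, hy⟩, rfl⟩
  have h2 := congrArg (fun g => g ⟨f y, h1⟩) hθ
  have h3 : θ (f y) = f' ((s ⟨f y, h1⟩ : h) : V) := h2
  have h4 := congrArg (fun g => (g ⟨f y, h1⟩ : W)) (congrArg (fun g => (Subtype.val ∘ g)) 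
    (congrArg DFunLike.coe hs))
  have h5 : f ((s ⟨f y, h1⟩ : h) : V) = f y := h4
  rw [h3]
  have h6 : f' (((s ⟨f y, h1⟩ : h) : V) - y) = 0 := by
    apply hk _ (h.sub_mem (s ⟨f y, h1⟩ : h).2 hy)
    rw [map_sub, h5, sub_self]
  rw [map_sub, sub_eq_zero] at h6
  exact h6

theorem map_sub_ee {n k : ℕ} (e : Fin k → Fin n) (A : Matrix (Fin n) (Fin n) ℂ) (f : ℂ → ℂ) :
    (A.map f).submatrix e e = (A.submatrix e e).map f := rfl

theorem mC_sub {n k : ℕ} (e : Fin k → Fin n) (A : Matrix (Fin n) (Fin n) ℚ) :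
    mC (A.submatrix e e) = (mC A).submatrix e e := rfl

/-- The restriction to a block. -/
structure Blk {n : ℕ} (T : HS n) {r : ℕ} (c : Fin n → Fin r) (i : Fin r) {k : ℕ}
    (e : Fin k → Fin n) (T' : HS k) : Prop where
  en : Enum c e i
  Q : T'.Q = T.Q.submatrix e e
  x : T'.x = T.x.submatrix e e

variable {n r : ℕ} {T : HS n} {c : Fin n → Fin r} {p q : Fin r → ℕ}

theorem exists_blk (hsub : S_sub) (hB : T.Big c p q) (i : Fin r) :
    ∃ (e : Fin (2 * p i + q i) → Fin n) (T' : HS (2 * p i + q i)), Blk T c i e T' := by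
  obtain ⟨e, he⟩ := exists_enum c i (hB.rk i)
  obtain ⟨T', h1, h2⟩ := hsub n _ T e he.inj (by
    intro a b hb
    have hcb : c b ≠ i := fun h => by
      obtain ⟨j, hj⟩ := he.surj b h
      exact hb j hj
    refine ⟨hB.bQ _ _ ?_, hB.bx _ _ ?_, hB.bx _ _ ?_⟩
    · rw [he.col]; exact Ne.symm hcb
    · rw [he.col]; exact Ne.symm hcb
    · rw [he.col]; exact hcb)
  exact ⟨e, T', he, h1, h2⟩

theorem Blk.scalar {i : Fin r} {k : ℕ} {e : Fin k → Fin n} {T' : HS k} (b : Blk T c i e T')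
    (hB : T.Big c p q) : T'.Scalar := by
  intro P hP
  obtain ⟨Ph, hPh⟩ : ∃ Ph : Matrix (Fin n) (Fin n) ℚ, Ph = (Matrix.of fun a j =>
      if e j = a then (1 : ℚ) else 0) * P * (Matrix.of fun a j => if e j = a then (1 : ℚ) else 0)ᵀ :=
    ⟨_, rfl⟩
  have h1 : mC Ph = sel e * mC P * (sel e)ᵀ := by
    rw [hPh]
    ext a a'
    simp only [mC, Matrix.map_apply, Matrix.mul_apply, Matrix.of_apply, Matrix.transpose_apply,
      sel]
    push_cast
    refine Finset.sum_congr rfl fun x _ => ?_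
    congr 1
    · refine Finset.sum_congr rfl fun y _ => ?_
      split_ifs <;> simp
    · split_ifs <;> simp
  have h2 : mC Ph * T.x = T.x * mC Ph := by
    rw [h1, ← Matrix.mul_assoc, ← Matrix.mul_assoc, b.en.mul_sel hB.bx, Matrix.mul_assoc,
      b.en.selT_mul hB.bx, ← b.x]
    calc sel e * mC P * (T'.x * (sel e)ᵀ) = sel e * (mC P * T'.x) * (sel e)ᵀ := by
          simp only [Matrix.mul_assoc]
      _ = _ := by rw [hP]; simp only [Matrix.mul_assoc]
  obtain ⟨d, hd⟩ := hB.endo Ph h2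
  refine ⟨d i, ?_⟩
  have h3 : ∀ j j', Ph (e j) (e j') = P j j' := by
    intro j j'
    rw [hPh]
    simp [Matrix.mul_apply, b.en.inj.eq_iff]
  ext j j'
  rw [← h3, hd, Matrix.diagonal_apply, Matrix.smul_apply, Matrix.one_apply]
  by_cases hj : j = j'
  · subst hj
    simp [b.en.col]
  · rw [if_neg fun h => hj (b.en.inj h), if_neg hj]
    simp

theorem Blk.trace {i : Fin r} {k : ℕ} {e : Fin k → Fin n} {T' : HS k} (b : Blk T c i e T')
    (hB : T.Big c p q) : (T'.x * T'.x).trace = 2 * (p i : ℂ) := by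
  rw [b.x, ← b.en.sub_mul hB.bx, ← hB.tr i, Matrix.trace]
  simp only [Matrix.diag_apply, Matrix.submatrix_apply]
  have h1 : (univ.filter fun a => c a = i) = univ.image e := by
    ext a
    simp only [Finset.mem_filter, Finset.mem_univ, true_and, Finset.mem_image]
    constructor
    · intro h
      exact b.en.surj a h
    · rintro ⟨j, rfl⟩
      exact b.en.col j
  rw [h1, Finset.sum_image (fun x _ y _ h => b.en.inj h)]

theorem BD.mul {A B : Matrix (Fin n) (Fin n) ℂ} (hA : BD c A) (hB : BD c B) : BD c (A * B) := by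
  intro a b h
  rw [Matrix.mul_apply]
  refine Finset.sum_eq_zero fun l _ => ?_
  by_cases hl : c a = c l
  · rw [hB l b (by rw [← hl]; exact h), mul_zero]
  · rw [hA a l hl, zero_mul]

theorem BD.one : BD c (1 : Matrix (Fin n) (Fin n) ℂ) := by
  intro a b h
  rw [Matrix.one_apply_ne]
  rintro rfl
  exact h rfl

theorem BD.sub {A B : Matrix (Fin n) (Fin n) ℂ} (hA : BD c A) (hB : BD c B) : BD c (A - B) := by
  intro a b h
  rw [Matrix.sub_apply, hA a b h, hB a b h, sub_zero]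

theorem BD.smul {A : Matrix (Fin n) (Fin n) ℂ} (hA : BD c A) (z : ℂ) : BD c (z • A) := by
  intro a b h
  rw [Matrix.smul_apply, hA a b h, smul_zero]

theorem BD_C (hB : T.Big c p q) : BD c T.C :=
  ((hB.bx.mul hB.bx).smul 2).sub BD.one

theorem Blk.C {i : Fin r} {k : ℕ} {e : Fin k → Fin n} {T' : HS k} (b : Blk T c i e T')
    (hB : T.Big c p q) : T'.C = T.C.submatrix e e := by
  unfold HS.C
  rw [b.x, ← b.en.sub_mul hB.bx]
  ext j j'
  simp [Matrix.one_apply, b.en.inj.eq_iff]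

/-- the linear map restricting to a block -/
def subL {k : ℕ} (e : Fin k → Fin n) :
    Matrix (Fin n) (Fin n) ℂ →ₗ[ℂ] Matrix (Fin k) (Fin k) ℂ where
  toFun A := A.submatrix e e
  map_add' _ _ := rfl
  map_smul' _ _ := rfl

theorem Blk.skew {i : Fin r} {k : ℕ} {e : Fin k → Fin n} {T' : HS k} (b : Blk T c i e T')
    (hB : T.Big c p q) {y : Matrix (Fin n) (Fin n) ℂ} (hy : yᵀ * mC T.Q + mC T.Q * y = 0) :
    (y.submatrix e e)ᵀ * mC T'.Q + mC T'.Q * y.submatrix e e = 0 := by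
  have hQ := hB.bQ.mC
  have h1 : (y.submatrix e e)ᵀ * mC T'.Q = (yᵀ * mC T.Q).submatrix e e := by
    rw [b.en.sub_mul hQ, b.Q, mC_sub]
    rfl
  have h2 : mC T'.Q * y.submatrix e e = (mC T.Q * y).submatrix e e := by
    rw [b.Q, mC_sub, sub_eq e (mC T.Q * y), sub_eq e y, ← Matrix.mul_assoc,
      ← Matrix.mul_assoc (sel e)ᵀ, b.en.selT_mul hQ]
    simp only [Matrix.mul_assoc]
  rw [h1, h2]
  have h3 := congrArg (fun M => M.submatrix e e) hy
  exact h3

/-- every element of `so(T_i)` is the restriction of an element of `hT` -/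
theorem Blk.surj (hdia : S_dia) {i : Fin r} {e : Fin (2 * p i + q i) → Fin n}
    {T' : HS (2 * p i + q i)}
    (b : Blk T c i e T') (hB : T.Big c p q) (Z : Matrix (Fin (2 * p i + q i)) _ ℂ)
    (hZ : Zᵀ * mC T'.Q + mC T'.Q * Z = 0) : ∃ y ∈ T.hT, y.submatrix e e = Z := by
  have hbd : ∀ y ∈ T.hT, BD c y := hdia n r T c hB.bQ hB.bx
  have hp : 0 < p i := by
    rcases hB.num i with h | h
    · omega
    · exact h.1
  have h := prj _ (p i) (q i) T' (b.scalar hB) (b.trace hB) rfl hp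
    (by
      rcases hB.num i with h | h
      · exact Or.inl h.1
      · exact Or.inr h.2)
    (T.hT.map (subL e)) ?_ ?_ ?_ ?_ Z hZ
  · obtain ⟨y, hy, hyZ⟩ := h
    exact ⟨y, hy, hyZ⟩
  · rintro _ ⟨y, hy, rfl⟩
    exact b.skew hB ((mem_hT T y).1 hy).1
  · rintro _ ⟨y, hy, rfl⟩ _ ⟨z, hz, rfl⟩
    refine ⟨y * z - z * y, hT_lie T W101.PG.lie hy hz, ?_⟩
    change (y * z - z * y).submatrix e e = y.submatrix e e * z.submatrix e e -
      z.submatrix e e * y.submatrix e e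
    rw [← b.en.sub_mul (hbd z hz), ← b.en.sub_mul (hbd y hy)]
    rfl
  · rintro _ ⟨y, hy, rfl⟩
    refine ⟨_, W199.PG.star' n T y hy, ?_⟩
    change (-(T.C * y.map (starRingEnd ℂ) * T.C)).submatrix e e =
      -(T'.C * (y.submatrix e e).map (starRingEnd ℂ) * T'.C)
    have h1 : BD c (y.map (starRingEnd ℂ)) := (hbd y hy).map (map_zero _)
    rw [b.C hB, ← map_sub_ee, ← b.en.sub_mul h1, ← b.en.sub_mul (BD_C hB)]
    rfl
  · intro σ
    refine ⟨T.x.map σ, W131.PG.gal W101.PG.hk n T σ, ?_⟩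
    change (T.x.map σ).submatrix e e = T'.x.map σ
    rw [b.x]
    rfl

end

end Pool.Agent.W544.PG
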