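import Pool.Agent.W544.PG.Final

/-!
# The theorem on Hodge Lie algebras for an arbitrary star-closed Lie algebra
-/

open Matrix Finset Module

namespace Pool.Agent.W544.PG

noncomputable section

/-- A Lie algebra of skew matrices closed under the star operation of `T` and containing all
conjugates of the Hodge operator contains `so(T)`. -/
theorem prj (n p q : ℕ) (T : HS n) (hsc : T.Scalar) (htr : (T.x * T.x).trace = 2 * p)
    (hn : n = 2 * p + q) (hp : 0 < p)
    (hcond : p = 1 ∨ 2 * p ^ 2 * (p ^ 2 + 1) < (q - 2 * p) * (q + p))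
    (h : Submodule ℂ (Matrix (Fin n) (Fin n) ℂ))
    (hsk : ∀ y ∈ h, yᵀ * mC T.Q + mC T.Q * y = 0)
    (hli : ∀ y ∈ h, ∀ z ∈ h, y * z - z * y ∈ h)
    (hst : ∀ y ∈ h, -(T.C * y.map (starRingEnd ℂ) * T.C) ∈ h)
    (hga : ∀ σ : ℂ ≃+* ℂ, T.x.map σ ∈ h) (Z : Matrix (Fin n) (Fin n) ℂ)
    (hZ : Zᵀ * mC T.Q + mC T.Q * Z = 0) : Z ∈ h := by
  obtain ⟨g, g1, g2, g3, g4⟩ := W927.PG.coord n p q T htr hn
  obtain ⟨g', hg'⟩ : ∃ g' : Matrix (I p q) (Fin n) ℂ, g' = gᴴ * T.H := ⟨_, rfl⟩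
  have e1 : g' * g = 1 := by rw [hg']; exact g2
  have e2 : g * g' = 1 := by rw [hg']; exact g3
  have mem : ∀ y : Matrix (I p q) (I p q) ℂ, y ∈ h.comap (cL g g') ↔ g * y * g' ∈ h :=
    fun y => Iff.rfl
  have hx0 : x0 p q ∈ h.comap (cL g g') := by
    rw [mem, ← g4, Matrix.mul_assoc, e2, Matrix.mul_one]
    have h1 := hga (RingEquiv.refl ℂ)
    have h2 : T.x.map (RingEquiv.refl ℂ) = T.x := by
      ext i j
      simp
    rwa [h2] at h1
  have hskew : ∀ X ∈ h.comap (cL g g'), Xᵀ * B0 p q + B0 p q * X = 0 := by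
    intro y hy
    rw [mem] at hy
    rw [← g1]
    exact cc_skew' e1 e2 _ y (hsk _ hy)
  have hstar' : ∀ X ∈ h.comap (cL g g'), Xᴴ ∈ h.comap (cL g g') := by
    intro y hy
    rw [mem] at hy ⊢
    have h1 := hst _ hy
    have h2 := cc_star T g3 g2 y (g * y * g') (by rw [hg']) (hsk _ hy)
    rw [← hg'] at h2
    rw [h2]
    exact h1
  have hlie' : ∀ X ∈ h.comap (cL g g'), ∀ Y ∈ h.comap (cL g g'),
      X * Y - Y * X ∈ h.comap (cL g g') := by
    intro a ha b hb
    rw [mem] at ha hb ⊢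
    have h1 := hli _ ha _ hb
    rw [cc_mul e1, cc_mul e1] at h1
    rw [Matrix.mul_sub, Matrix.sub_mul]
    exact h1
  have hcom : ∀ C, (∀ y ∈ h.comap (cL g g'), y * y * y = y → (y * y).trace = 2 * p →
      C * y = y * C) → ∃ c : ℂ, C = c • (1 : Matrix (I p q) (I p q) ℂ) := by
    intro C hC
    have h1 : ∀ σ : ℂ ≃+* ℂ, g * C * g' * T.x.map σ = T.x.map σ * (g * C * g') := by
      intro σ
      apply comm_coord e2
      apply hC
      · rw [mem, cc_back e2]
        exact hga σ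
      · rw [cc_mul' e2, cc_mul' e2, x_map_cube]
      · rw [cc_mul' e2, Matrix.mul_assoc, Matrix.trace_mul_comm, Matrix.mul_assoc, e2,
          Matrix.mul_one]
        exact x_map_tr T σ htr
    obtain ⟨c, hc⟩ := W655.PG.desc n T hsc _ h1
    refine ⟨c, ?_⟩
    rw [← cc_fwd e1 C, hc, Matrix.mul_smul, Matrix.smul_mul, Matrix.mul_one, e1]
  have key := coreF p q (h.comap (cL g g')) hp hcond hskew hstar' hlie' hx0 hcom
    (g' * Z * g) (by
      rw [← g1]
      exact cc_skew e2 _ Z hZ)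
  rw [mem, cc_back e2] at key
  exact key

end

end Pool.Agent.W544.PG
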