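import Pool.Agent.W544.PG.Core2
import Pool.Agent.W544.PG.Final4

/-!
# Tate classes on products of surfaces (assembly)
-/

open Matrix Finset Module

namespace Pool.Agent.W544.PG

noncomputable section

variable {K : Type} [Field K] {Γ : Type} [Group Γ] [TopologicalSpace Γ] {n r s : ℕ}
  {T : GR K Γ n} {c : Fin n → Fin r} {p q : Fin r → ℕ}

theorem map_mulR {m : Type} [Fintype m] [DecidableEq m] (f : K →+* ℂ) (A B : Matrix m m K) :
    (A * B).map f = A.map f * B.map f := Matrix.map_mul

/-- the form is non-degenerate -/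
theorem GR.Red.det (h : T.Red c) : T.Q.det ≠ 0 := by
  obtain ⟨u, -, hu, -⟩ := h
  intro h0
  have h1 := congrArg Matrix.det hu
  rw [Matrix.det_mul, Matrix.det_mul, Matrix.det_one] at h1
  have h2 : (T.Q.map T.ι).det = T.ι T.Q.det := (RingHom.map_det T.ι T.Q).symm
  rw [h2, h0, map_zero, mul_zero, zero_mul] at h1
  exact zero_ne_one h1

theorem BD_diag (d : Fin r → ℂ) : BD c (Matrix.diagonal fun a => d (c a)) := by
  intro a b h
  rw [Matrix.diagonal_apply_ne]
  rintro rfl
  exact h rfl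

/-- block-diagonal matrices commute with block scalars -/
theorem BD.comm_diag {A : Matrix (Fin n) (Fin n) ℂ} (hA : BD c A) (d : Fin r → ℂ) :
    A * (Matrix.diagonal fun a => d (c a)) = (Matrix.diagonal fun a => d (c a)) * A := by
  ext a b
  rw [Matrix.mul_diagonal, Matrix.diagonal_mul]
  by_cases h : c a = c b
  · rw [h, mul_comm]
  · rw [hA a b h, zero_mul, mul_zero]

/-- the trace of a block is invariant under block-diagonal conjugation -/
theorem block_trace {u u' A : Matrix (Fin n) (Fin n) ℂ} (hu : BD c u) (h1 : u * u' = 1)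
    (i : Fin r) : ∑ a with c a = i, (u' * A * u) a a = ∑ a with c a = i, A a a := by
  have h2 : ∀ M : Matrix (Fin n) (Fin n) ℂ, ∑ a with c a = i, M a a =
      ((Matrix.diagonal fun a => if c a = i then (1 : ℂ) else 0) * M).trace := by
    intro M
    rw [Matrix.trace, Finset.sum_filter]
    refine Finset.sum_congr rfl fun a _ => ?_
    rw [Matrix.diag_apply, Matrix.diagonal_mul]
    split_ifs <;> simp
  rw [h2, h2]
  have h3 := hu.comm_diag (fun j => if j = i then (1 : ℂ) else 0)
  rw [Matrix.mul_assoc u', ← Matrix.mul_assoc, Matrix.trace_mul_comm, Matrix.mul_assoc A,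
    ← Matrix.mul_assoc u, h3, Matrix.mul_assoc, h1, Matrix.mul_one, Matrix.trace_mul_comm]

theorem LC_span {y : Matrix (Fin n) (Fin n) K} (hy : y ∈ T.L) : y.map T.ι ∈ T.LC :=
  Submodule.subset_span ⟨y, hy, rfl⟩

theorem LC_bd (h : ∀ y ∈ T.L, BD c y) : ∀ y ∈ T.LC, BD c y := by
  intro y hy
  unfold GR.LC at hy
  induction hy using Submodule.span_induction with
  | mem y h' =>
    obtain ⟨z, hz, rfl⟩ := h'
    exact (h z hz).map (map_zero _)
  | zero => intro a b _; rfl
  | add a b _ _ ha hb => intro i j hij; rw [Matrix.add_apply, ha i j hij, hb i j hij, add_zero]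
  | smul z a _ ha => exact ha.smul z

theorem LC_skew (h : ∀ y ∈ T.L, yᵀ * T.Q + T.Q * y = 0) :
    ∀ y ∈ T.LC, yᵀ * T.Q.map T.ι + T.Q.map T.ι * y = 0 := by
  intro y hy
  unfold GR.LC at hy
  induction hy using Submodule.span_induction with
  | mem y h' =>
    obtain ⟨z, hz, rfl⟩ := h'
    have h1 := congrArg (fun M : Matrix (Fin n) (Fin n) K => M.map T.ι) (h z hz)
    have h2 : (z.map T.ι)ᵀ = zᵀ.map T.ι := rfl
    rw [h2, ← map_mulR, ← map_mulR]
    have h3 : ∀ A B : Matrix (Fin n) (Fin n) K, (A + B).map T.ι = A.map T.ι + B.map T.ι := by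
      intro A B
      ext i j
      simp
    rw [← h3, h z hz]
    ext i j
    simp
  | zero => simp
  | add a b _ _ ha hb =>
    rw [Matrix.transpose_add, Matrix.add_mul, Matrix.mul_add,
      show aᵀ * T.Q.map T.ι + bᵀ * T.Q.map T.ι + (T.Q.map T.ι * a + T.Q.map T.ι * b) =
        (aᵀ * T.Q.map T.ι + T.Q.map T.ι * a) + (bᵀ * T.Q.map T.ι + T.Q.map T.ι * b) by abel,
      ha, hb, add_zero]
  | smul z a _ ha =>
    rw [Matrix.transpose_smul, Matrix.smul_mul, Matrix.mul_smul, ← smul_add, ha, smul_zero]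

theorem LC_lie : ∀ y ∈ T.LC, ∀ z ∈ T.LC, y * z - z * y ∈ T.LC := by
  intro y hy z hz
  unfold GR.LC at hy hz
  induction hy using Submodule.span_induction with
  | mem y h' =>
    obtain ⟨y', hy', rfl⟩ := h'
    induction hz using Submodule.span_induction with
    | mem z h'' =>
      obtain ⟨z', hz', rfl⟩ := h''
      rw [← map_mulR, ← map_mulR]
      have h3 : ∀ A B : Matrix (Fin n) (Fin n) K, A.map T.ι - B.map T.ι = (A - B).map T.ι := by
        intro A B
        ext i j
        simp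
      rw [h3]
      exact LC_span (T.lie y' hy' z' hz')
    | zero => simp
    | add a b _ _ ha hb =>
      rw [Matrix.mul_add, Matrix.add_mul,
        show ∀ A B C D : Matrix (Fin n) (Fin n) ℂ, A + B - (C + D) = (A - C) + (B - D) from
          fun A B C D => by abel]
      exact T.LC.add_mem ha hb
    | smul w a _ ha =>
      rw [Matrix.mul_smul, Matrix.smul_mul, ← smul_sub]
      exact T.LC.smul_mem w ha
  | zero => simp
  | add a b _ _ ha hb =>
    rw [Matrix.mul_add, Matrix.add_mul,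
      show ∀ A B C D : Matrix (Fin n) (Fin n) ℂ, A + B - (C + D) = (A - C) + (B - D) from
        fun A B C D => by abel]
    exact T.LC.add_mem ha hb
  | smul w a _ ha =>
    rw [Matrix.mul_smul, Matrix.smul_mul, ← smul_sub]
    exact T.LC.smul_mem w ha

/-- conjugation as a linear map -/
def cM (g g' : Matrix (Fin n) (Fin n) ℂ) :
    Matrix (Fin n) (Fin n) ℂ →ₗ[ℂ] Matrix (Fin n) (Fin n) ℂ where
  toFun y := g * y * g'
  map_add' a b := by rw [Matrix.mul_add, Matrix.add_mul]
  map_smul' c a := by rw [Matrix.mul_smul, Matrix.smul_mul, RingHom.id_apply]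

theorem comm_coord' {g g' : Matrix (Fin n) (Fin n) ℂ} (e2 : g * g' = 1)
    (C w : Matrix (Fin n) (Fin n) ℂ) (h : C * (g' * w * g) = (g' * w * g) * C) :
    (g * C * g') * w = w * (g * C * g') := by
  have h1 : (g * C * g') * w = g * (C * (g' * w * g)) * g' := by
    calc (g * C * g') * w = (g * C * g') * w * (g * g') := by rw [e2, Matrix.mul_one]
      _ = _ := by simp only [Matrix.mul_assoc]
  have h2 : w * (g * C * g') = g * ((g' * w * g) * C) * g' := by
    calc w * (g * C * g') = (g * g') * w * (g * C * g') := by rw [e2, Matrix.one_mul]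
      _ = _ := by simp only [Matrix.mul_assoc]
  rw [h1, h2, h]

/-- the commutant of the complexified Lie algebra -/
theorem LC_com (hdk : S_dk) (C : Matrix (Fin n) (Fin n) ℂ)
    (hC : ∀ y ∈ T.LC, C * y = y * C) (d : ∀ P : Matrix (Fin n) (Fin n) K,
      (∀ y ∈ T.L, P * y = y * P) → ∃ d : Fin r → K, P = Matrix.diagonal (fun a => d (c a))) :
    ∃ d : Fin r → ℂ, C = Matrix.diagonal fun a => d (c a) := by
  obtain ⟨E, hE⟩ : ∃ E : Set (Fin n × Fin n → K), E = {e | ∃ y ∈ T.L, ∃ i j, ∀ P : Fin n × Fin n → K,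
      ∑ x, e x * P x = ((Matrix.of fun a b => P (a, b)) * y - y * (Matrix.of fun a b => P (a, b))) i j} :=
    ⟨_, rfl⟩
  have hcoef : ∀ y : Matrix (Fin n) (Fin n) K, ∀ i j, ∃ e : Fin n × Fin n → K,
      (∀ P : Fin n × Fin n → K, ∑ x, e x * P x =
        ((Matrix.of fun a b => P (a, b)) * y - y * (Matrix.of fun a b => P (a, b))) i j) ∧
      ∑ x, T.ι (e x) * C x.1 x.2 = (C * y.map T.ι - y.map T.ι * C) i j := by
    intro y i j
    refine ⟨fun x => (if x.1 = i then y x.2 j else 0) - (if x.2 = j then y i x.1 else 0), ?_, ?_⟩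
    · intro P
      rw [Fintype.sum_prod_type, Matrix.sub_apply, Matrix.mul_apply, Matrix.mul_apply]
      simp only [sub_mul, ite_mul, zero_mul, Matrix.of_apply, Finset.sum_sub_distrib]
      congr 1
      · rw [Finset.sum_comm]
        simp only [Finset.sum_ite_eq', Finset.mem_univ, if_true]
        exact Finset.sum_congr rfl fun x _ => mul_comm _ _
      · simp only [Finset.sum_ite_eq', Finset.mem_univ, if_true]
    · rw [Fintype.sum_prod_type, Matrix.sub_apply, Matrix.mul_apply, Matrix.mul_apply]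
      simp only [map_sub, sub_mul, Finset.sum_sub_distrib, apply_ite T.ι, map_zero, ite_mul,
        zero_mul, Matrix.map_apply]
      congr 1
      · rw [Finset.sum_comm]
        simp only [Finset.sum_ite_eq', Finset.mem_univ, if_true]
        exact Finset.sum_congr rfl fun x _ => mul_comm _ _
      · simp only [Finset.sum_ite_eq', Finset.mem_univ, if_true]
  have hcancel : ∀ e e' : Fin n × Fin n → K,
      (∀ P : Fin n × Fin n → K, ∑ x, e x * P x = ∑ x, e' x * P x) → e = e' := by
    intro e e' h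
    funext x
    have h1 := h (Pi.single x 1)
    simpa [Pi.single_apply] using h1
  have h1 : ∀ e ∈ E, ∑ x, T.ι (e x) * C x.1 x.2 = 0 := by
    rw [hE]
    rintro e ⟨y, hy, i, j, he⟩
    obtain ⟨e', he', hC'⟩ := hcoef y i j
    have h2 : e = e' := hcancel e e' fun P => by rw [he P, he' P]
    rw [h2, hC', hC _ (LC_span hy), sub_self, Matrix.zero_apply]
  have h2 := hdk K T.ι (Fin n × Fin n) E (fun x => C x.1 x.2) h1
  -- every element of the span is block scalar
  have h3 : ∀ u ∈ Submodule.span ℂ {u : Fin n × Fin n → ℂ | ∃ v : Fin n × Fin n → K,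
      (u = fun x => T.ι (v x)) ∧ ∀ e ∈ E, ∑ x, e x * v x = 0},
      ∃ d : Fin r → ℂ, ∀ a b, u (a, b) = Matrix.diagonal (fun a => d (c a)) a b := by
    intro u hu
    induction hu using Submodule.span_induction with
    | mem u h =>
      obtain ⟨v, rfl, hv⟩ := h
      obtain ⟨d', hd'⟩ := d (Matrix.of fun a b => v (a, b)) (by
        intro y hy
        rw [← sub_eq_zero]
        ext i j
        obtain ⟨e, he, -⟩ := hcoef y i j
        rw [← he v, Matrix.zero_apply]
        apply hv
        rw [hE]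
        exact ⟨y, hy, i, j, he⟩)
      refine ⟨fun i => T.ι (d' i), fun a b => ?_⟩
      have h4 : v (a, b) = Matrix.diagonal (fun a => d' (c a)) a b := by
        rw [← hd']
        rfl
      change T.ι (v (a, b)) = _
      rw [h4, Matrix.diagonal_apply, Matrix.diagonal_apply]
      split_ifs <;> simp
    | zero => exact ⟨fun _ => 0, fun a b => by simp [Matrix.diagonal_apply]⟩
    | add u v _ _ hu hv =>
      obtain ⟨d1, h1⟩ := hu
      obtain ⟨d2, h2⟩ := hv
      refine ⟨fun i => d1 i + d2 i, fun a b => ?_⟩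
      rw [Pi.add_apply, h1, h2, Matrix.diagonal_apply, Matrix.diagonal_apply,
        Matrix.diagonal_apply]
      split_ifs <;> simp
    | smul z u _ hu =>
      obtain ⟨d1, h1⟩ := hu
      refine ⟨fun i => z * d1 i, fun a b => ?_⟩
      rw [Pi.smul_apply, h1, Matrix.diagonal_apply, Matrix.diagonal_apply]
      split_ifs <;> simp
  obtain ⟨d', hd'⟩ := h3 _ h2
  exact ⟨d', by ext a b; exact hd' a b⟩

/-- **The Lie algebra of the image of Galois.** -/
theorem mainTate (hblk : S_blk) (hdk : S_dk) (htbd : S_tbd) (htcm : S_tcm) (hT : T.Big c p q)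
    (Z : Matrix (Fin n) (Fin n) ℂ) (hZ : Zᵀ * T.Q.map T.ι + T.Q.map T.ι * Z = 0)
    (hZc : BD c Z) : Z ∈ T.LC := by
  have hdet := hT.red.det
  have hL := htbd K Γ n r T c hT.bQ hT.bρ hdet
  have hbd := LC_bd (T := T) fun y hy => (hL y hy).1
  have hsk := LC_skew (T := T) fun y hy => (hL y hy).2
  obtain ⟨u, hub, huQ, hst, hxH⟩ := hT.red
  have e1 : u⁻¹ * u = 1 := by
    have h1 : (uᵀ * T.Q.map T.ι) * u = 1 := huQ
    have h2 : u⁻¹ = uᵀ * T.Q.map T.ι := Matrix.inv_eq_left_inv h1
    rw [h2]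
    exact h1
  have e2 : u * u⁻¹ = 1 := mul_eq_one_comm.1 e1
  have hui : BD c u⁻¹ := W918.PG.bd_inv hub (by
    have h1 := congrArg Matrix.det e2
    rw [Matrix.det_mul, Matrix.det_one] at h1
    exact IsUnit.of_mul_eq_one _ h1)
  have mem : ∀ y : Matrix (Fin n) (Fin n) ℂ, y ∈ T.LC.comap (cM u u⁻¹) ↔ u * y * u⁻¹ ∈ T.LC :=
    fun y => Iff.rfl
  have hskew : ∀ y ∈ T.LC.comap (cM u u⁻¹), yᵀ = -y := by
    intro y hy
    rw [mem] at hy
    have h1 := cc_skew' e1 e2 _ y (hsk _ hy)
    rw [huQ, Matrix.mul_one, Matrix.one_mul] at h1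
    exact eq_neg_of_add_eq_zero_left h1
  have hx : T.x ∈ T.LC := T.sen
  have hux : u⁻¹ * T.x * u ∈ T.LC.comap (cM u u⁻¹) := by
    rw [mem, cc_back e2]
    exact hx
  have key := hblk n r c p q (T.LC.comap (cM u u⁻¹)) (u⁻¹ * T.x * u) ?_ hskew ?_ ?_ hux hxH ?_ ?_
    hT.rk hT.cop hT.num ?_ (u⁻¹ * Z * u) ?_ ?_
  · rw [mem, cc_back e2] at key
    exact key
  · intro y hy
    rw [mem] at hy
    rw [← cc_fwd e1 y]
    exact (hui.mul (hbd _ hy)).mul hub
  · intro y hy
    rw [mem] at hy ⊢
    have h1 := hst _ hy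
    rw [cc_fwd e1] at h1
    exact h1
  · intro y hy z hz
    rw [mem] at hy hz ⊢
    have h1 := LC_lie _ hy _ hz
    rw [cc_mul e1, cc_mul e1] at h1
    rw [Matrix.mul_sub, Matrix.sub_mul]
    exact h1
  · rw [cc_mul' e2, cc_mul' e2, T.cube]
  · intro i
    rw [cc_mul' e2, block_trace hub e2]
    exact hT.tr i
  · intro C hC
    obtain ⟨d, hd⟩ := LC_com (T := T) (c := c) hdk (u * C * u⁻¹) (by
      intro y hy
      apply comm_coord' e2
      apply hC
      rw [mem, cc_back e2]
      exact hy) (fun P hP => hT.endo P (htcm K Γ n T hdet (fun y hy => (hL y hy).2) P hP))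
    refine ⟨d, ?_⟩
    rw [← cc_fwd e1 C, hd, hui.comm_diag, Matrix.mul_assoc, e1, Matrix.mul_one]
  · have h1 := cc_skew e2 _ Z hZ
    rw [huQ, Matrix.mul_one, Matrix.one_mul] at h1
    exact eq_neg_of_add_eq_zero_left h1
  · exact (hui.mul hZc).mul hub

end

end Pool.Agent.W544.PG
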